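import Pool.Agent.N224.Hil.Defs0
import Pool.Agent.H803R2.KakArea
import Pool.Agent.H709U.B3

set_option autoImplicit false

/-! Project HN, part A1: the area formula bound for `(P, Q)`. -/

open Real Set MeasureTheory Topology Filter
open scoped ENNReal

namespace Pool.Agent.N224.Hil.A1

/-- images of open sets are measurable -/
lemma meas_image {F : ℝ × ℝ → ℝ × ℝ} (hF : Continuous F) {U : Set (ℝ × ℝ)} (hU : IsOpen U) :
    MeasurableSet (F '' U) := by
  haveI : LocallyCompactSpace U := hU.locallyCompactSpace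
  have h1 : IsSigmaCompact U := isSigmaCompact_iff_sigmaCompactSpace.2 inferInstance
  obtain ⟨K, hK, hKU⟩ := h1
  rw [← hKU, image_iUnion]
  exact MeasurableSet.iUnion fun n => ((hK n).image hF).measurableSet

/-- the set of values which are taken more than `N` times is measurable -/
lemma meas_bad {F : ℝ × ℝ → ℝ × ℝ} (hF : Continuous F) (N : ℕ) :
    MeasurableSet {v | (N : ℕ∞) < {x | F x = v}.encard} := by
  classical
  let B := TopologicalSpace.countableBasis (ℝ × ℝ)
  have hB := TopologicalSpace.isBasis_countableBasis (ℝ × ℝ)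
  have heq : {v | (N : ℕ∞) < {x | F x = v}.encard} =
      ⋃ U : Fin (N + 1) → B, ⋃ _ : Pairwise (Function.onFun Disjoint fun i => (U i : Set (ℝ × ℝ))),
        ⋂ i, F '' (U i : Set (ℝ × ℝ)) := by
    ext v
    simp only [mem_setOf_eq, mem_iUnion, mem_iInter]
    constructor
    · intro h
      have h1 : ((N + 1 : ℕ) : ℕ∞) ≤ {x | F x = v}.encard := by
        rw [Nat.cast_add, Nat.cast_one]
        exact Order.add_one_le_of_lt h
      obtain ⟨t, ht, htc⟩ := Set.exists_subset_encard_eq h1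
      have htf : t.Finite := Set.finite_of_encard_eq_coe htc
      obtain ⟨U, hU, hd⟩ := htf.t2_separation
      have hcard : htf.toFinset.card = N + 1 := by
        have := htf.encard_eq_coe_toFinset_card
        rw [htc] at this
        exact_mod_cast this.symm
      let e := (htf.toFinset.equivFinOfCardEq hcard).symm
      have hmem : ∀ i, (e i : ℝ × ℝ) ∈ t := fun i => htf.mem_toFinset.1 (e i).2
      have hb : ∀ i, ∃ W ∈ B, (e i : ℝ × ℝ) ∈ W ∧ W ⊆ U (e i) := fun i =>
        hB.exists_subset_of_mem_open (hU _).1 (hU _).2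
      choose W hWB hWm hWU using hb
      refine ⟨fun i => ⟨W i, hWB i⟩, ?_, ?_⟩
      · intro i j hij
        have hne : (e i : ℝ × ℝ) ≠ e j := fun h => hij (e.injective (Subtype.ext h))
        exact (hd (hmem i) (hmem j) hne).mono (hWU i) (hWU j)
      · intro i
        exact ⟨e i, hWm i, ht (hmem i)⟩
    · rintro ⟨U, hd, h⟩
      choose x hxU hx using h
      have hinj : Function.Injective x := by
        intro i j hij
        by_contra hne
        exact Set.disjoint_left.1 (hd hne) (hxU i) (hij ▸ hxU j)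
      have h2 : (Set.range x).encard = (N + 1 : ℕ) := by
        rw [← Set.image_univ, hinj.encard_image, Set.encard_univ]
        simp
      have h3 : Set.range x ⊆ {y | F y = v} := by
        rintro _ ⟨i, rfl⟩
        exact hx i
      have h4 := Set.encard_le_encard h3
      rw [h2] at h4
      refine lt_of_lt_of_le ?_ h4
      exact_mod_cast Nat.lt_succ_self N
  rw [heq]
  haveI : Countable B := (TopologicalSpace.countable_countableBasis (ℝ × ℝ)).to_subtype
  refine MeasurableSet.iUnion fun U => MeasurableSet.iUnion fun _ => MeasurableSet.iInter fun i =>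
    meas_image hF (hB.isOpen (U i).2)

/-- a measurable set with countable slices is null -/
lemma null_of_slices {S : Set (ℝ × ℝ)} (hS : MeasurableSet S) {c : Set ℝ} (hc : c.Countable)
    (h : ∀ a ∉ c, {b | (a, b) ∈ S}.Countable) : volume S = 0 := by
  rw [show (volume : Measure (ℝ × ℝ)) = (volume : Measure ℝ).prod volume from rfl,
    Measure.measure_prod_null hS]
  have h1 : ∀ᵐ a : ℝ, a ∉ c := by
    have := hc.measure_zero (volume : Measure ℝ)
    exact measure_eq_zero_iff_ae_notMem.1 this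
  filter_upwards [h1] with a ha
  exact (h a ha).measure_zero _

/-- the radial integral -/
lemma lint_radial {δ : ℝ} (hδ : 0 < δ) :
    ∫⁻ r in Ioi (0:ℝ), ENNReal.ofReal (2 * δ ^ 2 * r / (r ^ 2 + δ ^ 2) ^ 2) = 1 := by
  have hd : ∀ x ∈ Ioi (0:ℝ), HasDerivAt (fun r : ℝ => - (δ ^ 2 / (r ^ 2 + δ ^ 2)))
      (2 * δ ^ 2 * x / (x ^ 2 + δ ^ 2) ^ 2) x := by
    intro x _
    have hpos : x ^ 2 + δ ^ 2 ≠ 0 := by positivity
    have h1 : HasDerivAt (fun r : ℝ => r ^ 2 + δ ^ 2) (2 * x) x := by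
      simpa using (hasDerivAt_pow 2 x).add_const (δ ^ 2)
    have h2 := ((hasDerivAt_const x (δ ^ 2)).fun_div h1 hpos).fun_neg
    refine h2.congr_deriv ?_
    field_simp
    ring
  have hcont : ContinuousWithinAt (fun r : ℝ => - (δ ^ 2 / (r ^ 2 + δ ^ 2))) (Ici 0) 0 := by
    refine Continuous.continuousWithinAt ?_
    have : ∀ r : ℝ, r ^ 2 + δ ^ 2 ≠ 0 := fun r => by positivity
    fun_prop (disch := assumption)
  have hnn : ∀ x ∈ Ioi (0:ℝ), 0 ≤ 2 * δ ^ 2 * x / (x ^ 2 + δ ^ 2) ^ 2 := by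
    intro x hx
    have : (0:ℝ) < x := hx
    positivity
  have hlim : Tendsto (fun r : ℝ => - (δ ^ 2 / (r ^ 2 + δ ^ 2))) atTop (𝓝 0) := by
    have h1 : Tendsto (fun r : ℝ => r ^ 2 + δ ^ 2) atTop atTop :=
      tendsto_atTop_add_const_right _ _ (tendsto_pow_atTop (by norm_num))
    have h2 := (h1.const_div_atTop (δ ^ 2)).neg
    simpa using h2
  have hi := integrableOn_Ioi_deriv_of_nonneg hcont hd hnn hlim
  have he := integral_Ioi_of_hasDerivAt_of_nonneg hcont hd hnn hlim
  rw [← ofReal_integral_eq_lintegral_ofReal hi, he]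
  · have : δ ^ 2 ≠ 0 := by positivity
    simp [this]
  · exact (ae_restrict_iff' measurableSet_Ioi).2 (Eventually.of_forall hnn)

/-- the total mass of the density -/
lemma lint_dens {δ : ℝ} (hδ : 0 < δ) :
    ∫⁻ v : ℝ × ℝ, ENNReal.ofReal (2 * δ ^ 2 / (v.1 ^ 2 + v.2 ^ 2 + δ ^ 2) ^ 2) =
      ENNReal.ofReal (2 * π) := by
  rw [← lintegral_comp_polarCoord_symm]
  have h1 : ∀ p : ℝ × ℝ, p ∈ polarCoord.target → ENNReal.ofReal p.1 • ENNReal.ofReal (2 * δ ^ 2 /
      ((polarCoord.symm p).1 ^ 2 + (polarCoord.symm p).2 ^ 2 + δ ^ 2) ^ 2) =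
      ENNReal.ofReal (2 * δ ^ 2 * p.1 / (p.1 ^ 2 + δ ^ 2) ^ 2) := by
    intro p hp
    have hp1 : 0 < p.1 := by
      rw [polarCoord_target] at hp
      exact hp.1
    rw [smul_eq_mul, ← ENNReal.ofReal_mul hp1.le, polarCoord_symm_apply]
    congr 1
    have : (p.1 * cos p.2) ^ 2 + (p.1 * sin p.2) ^ 2 = p.1 ^ 2 := by
      nlinarith [Real.sin_sq_add_cos_sq p.2]
    simp only
    rw [this]
    ring
  rw [setLIntegral_congr_fun (by rw [polarCoord_target]; exact measurableSet_Ioi.prod measurableSet_Ioo) h1,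
    polarCoord_target]
  have hm : Measurable fun p : ℝ × ℝ => ENNReal.ofReal (2 * δ ^ 2 * p.1 / (p.1 ^ 2 + δ ^ 2) ^ 2) := by
    fun_prop
  rw [show (volume : Measure (ℝ × ℝ)) = (volume : Measure ℝ).prod volume from rfl,
    setLIntegral_prod _ hm.aemeasurable]
  simp only [lintegral_const, Measure.restrict_apply MeasurableSet.univ, univ_inter, Real.volume_Ioo]
  rw [lintegral_mul_const _ (by fun_prop), lint_radial hδ, one_mul]
  congr 1
  ring

/-- an irreducible polynomial divides `Q - C v` for at most one constant `v` -/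
lemma dvd_unique {q Q : MvPolynomial (Fin 2) ℝ} (hq : ¬ IsUnit q) {v w : ℝ}
    (h1 : q ∣ Q - MvPolynomial.C v) (h2 : q ∣ Q - MvPolynomial.C w) : v = w := by
  by_contra hne
  apply hq
  have h3 : q ∣ MvPolynomial.C (w - v) := by
    have := dvd_sub h1 h2
    rw [show Q - MvPolynomial.C v - (Q - MvPolynomial.C w) = (MvPolynomial.C (w - v) : MvPolynomial (Fin 2) ℝ)
      by rw [map_sub]; ring] at this
    exact this
  have h4 : IsUnit (MvPolynomial.C (w - v) : MvPolynomial (Fin 2) ℝ) :=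
    (isUnit_iff_ne_zero.2 (sub_ne_zero.2 (Ne.symm hne))).map MvPolynomial.C
  exact isUnit_of_dvd_unit h3 h4

/-- the slices of the exceptional set -/
lemma slice_countable {P Q : MvPolynomial (Fin 2) ℝ} (hP : P ≠ 0) :
    {v : ℝ | ¬ IsRelPrime P (Q - MvPolynomial.C v)}.Countable := by
  classical
  have hsub : {v : ℝ | ¬ IsRelPrime P (Q - MvPolynomial.C v)} ⊆
      ⋃ q ∈ {q | q ∈ UniqueFactorizationMonoid.factors P},
        {v : ℝ | q ∣ Q - MvPolynomial.C v} := by
    intro v hv
    by_contra hno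
    apply hv
    apply WfDvdMonoid.isRelPrime_of_no_irreducible_factors (fun h => hP h.1)
    intro p hp hpP hpQ
    obtain ⟨q, hq, hpq⟩ := UniqueFactorizationMonoid.exists_mem_factors_of_dvd hP hp hpP
    apply hno
    simp only [mem_iUnion]
    exact ⟨q, hq, (hpq.dvd_iff_dvd_left).1 hpQ⟩
  refine Set.Countable.mono hsub ?_
  refine Set.Countable.biUnion (Multiset.finite_toSet _).countable ?_
  intro q hq
  have hirr : Irreducible q := UniqueFactorizationMonoid.irreducible_of_factor q hq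
  apply Set.Subsingleton.countable
  intro v hv w hw
  exact dvd_unique hirr.not_isUnit hv hw

/-- the determinant -/
lemma det_eq (A : ℝ × ℝ →L[ℝ] ℝ × ℝ) :
    A.det = (A (1, 0)).1 * (A (0, 1)).2 - (A (1, 0)).2 * (A (0, 1)).1 := by
  rw [ContinuousLinearMap.det, ← LinearMap.det_toMatrix (Module.Basis.finTwoProd ℝ),
    Matrix.det_fin_two]
  simp [LinearMap.toMatrix_apply]
  ring

/-- the area formula -/
lemma area {F : ℝ × ℝ → ℝ × ℝ} (hF : ContDiff ℝ 1 F) {N : ℕ}
    (hN : ∀ᵐ v : ℝ × ℝ, {x | F x = v}.encard ≤ N) {h : ℝ × ℝ → ℝ≥0∞} (hh : Measurable h) :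
    ∫⁻ z, ENNReal.ofReal |(fderiv ℝ F z).det| * h (F z) ≤ N * ∫⁻ v, h v := by
  have hFm : Measurable F := hF.continuous.measurable
  have hF' : Measurable (fderiv ℝ F) := measurable_fderiv ℝ F
  have hd : Measurable (fun z => ENNReal.ofReal |(fderiv ℝ F z).det|) :=
    (ContinuousLinearMap.continuous_det.measurable.comp hF').abs.ennreal_ofReal
  have hle : ((volume : Measure (ℝ × ℝ)).withDensity
      (fun z => ENNReal.ofReal |(fderiv ℝ F z).det|)).map F ≤ (N : ℝ≥0∞) • volume := by
    refine Measure.le_iff.2 fun U hU => ?_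
    rw [Measure.map_apply hFm hU, withDensity_apply _ (hFm hU), Measure.smul_apply, smul_eq_mul]
    have h1 := H803R2.Kak.lintegral_det_le_mul (volume : Measure (ℝ × ℝ)) (φ := F)
      (φ' := fderiv ℝ F) (s := univ) (N := N) MeasurableSet.univ hU
      (fun x _ => (hF.differentiable (by norm_num) x).hasFDerivAt) hF' (by simpa using hN)
    simp only [mem_univ, true_and] at h1
    exact h1
  calc ∫⁻ z, ENNReal.ofReal |(fderiv ℝ F z).det| * h (F z)
      = ∫⁻ z, h (F z) ∂((volume : Measure (ℝ × ℝ)).withDensity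
          (fun z => ENNReal.ofReal |(fderiv ℝ F z).det|)) := by
        exact (lintegral_withDensity_eq_lintegral_mul volume hd (hh.comp hFm)).symm
    _ = ∫⁻ v, h v ∂(((volume : Measure (ℝ × ℝ)).withDensity
          (fun z => ENNReal.ofReal |(fderiv ℝ F z).det|)).map F) := by
        rw [lintegral_map hh hFm]
    _ ≤ ∫⁻ v, h v ∂((N : ℝ≥0∞) • volume) := lintegral_mono' hle le_rfl
    _ = N * ∫⁻ v, h v := by rw [lintegral_smul_measure, smul_eq_mul]

open Pool.Agent.H709R2 (rot wedge field)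

/-- almost every value is taken at most `n²` times -/
lemma ae_mult (b3 : ∀ (n : ℕ) (P Q : MvPolynomial (Fin 2) ℝ), P.totalDegree ≤ n →
    Q.totalDegree ≤ n → IsRelPrime P Q →
    ∃ Z : Finset (ℝ × ℝ), Z.card ≤ n ^ 2 ∧ ∀ z, field P Q z = 0 ↔ z ∈ Z)
    {n : ℕ} {P Q : MvPolynomial (Fin 2) ℝ} (hP : P.totalDegree ≤ n)
    (hQ : Q.totalDegree ≤ n) :
    ∀ᵐ v : ℝ × ℝ, {x | field P Q x = v}.encard ≤ ((n ^ 2 : ℕ) : ℕ∞) := by
  have hF : ContDiff ℝ 1 (field P Q) := Pool.Agent.H709R2.contDiff_field P Q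
  have hbad := meas_bad hF.continuous (n ^ 2)
  have hnull : volume {v | ((n ^ 2 : ℕ) : ℕ∞) < {x | field P Q x = v}.encard} = 0 := by
    refine null_of_slices hbad (c := {a : ℝ | P = MvPolynomial.C a}) ?_ ?_
    · apply Set.Subsingleton.countable
      intro a ha b hb
      have h : (MvPolynomial.C a : MvPolynomial (Fin 2) ℝ) = MvPolynomial.C b :=
        (show P = MvPolynomial.C a from ha) ▸ hb
      exact MvPolynomial.C_injective _ _ h
    · intro a ha
      have hPa : P - MvPolynomial.C a ≠ 0 := fun h => ha (sub_eq_zero.1 h)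
      refine (slice_countable (Q := Q) hPa).mono ?_
      intro b hb hrel
      have hdP : (P - MvPolynomial.C a).totalDegree ≤ n :=
        (MvPolynomial.totalDegree_sub _ _).trans (by simp [hP])
      have hdQ : (Q - MvPolynomial.C b).totalDegree ≤ n :=
        (MvPolynomial.totalDegree_sub _ _).trans (by simp [hQ])
      obtain ⟨Z, hZc, hZ⟩ := b3 n _ _ hdP hdQ hrel
      have hsub : {x | field P Q x = (a, b)} ⊆ (Z : Set (ℝ × ℝ)) := by
        intro x hx
        rw [Finset.mem_coe, ← hZ x]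
        have hx' : field P Q x = (a, b) := hx
        have h1 := congrArg Prod.fst hx'
        have h2 := congrArg Prod.snd hx'
        simp only [field] at h1 h2 ⊢
        ext <;> simp [h1, h2]
      have h1 := Set.encard_le_encard hsub
      rw [Set.encard_coe_eq_coe_finsetCard] at h1
      have h2 : ((n ^ 2 : ℕ) : ℕ∞) < ((n ^ 2 : ℕ) : ℕ∞) :=
        lt_of_lt_of_le (show ((n ^ 2 : ℕ) : ℕ∞) < {x | field P Q x = (a, b)}.encard from hb)
          (h1.trans (by exact_mod_cast hZc))
      exact lt_irrefl _ h2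
  filter_upwards [measure_eq_zero_iff_ae_notMem.1 hnull] with v hv
  exact not_lt.1 hv

theorem core (b3 : ∀ (n : ℕ) (P Q : MvPolynomial (Fin 2) ℝ), P.totalDegree ≤ n →
    Q.totalDegree ≤ n → IsRelPrime P Q →
    ∃ Z : Finset (ℝ × ℝ), Z.card ≤ n ^ 2 ∧ ∀ z, field P Q z = 0 ↔ z ∈ Z) : S_A1 := by
  intro n P Q hP hQ δ hδ
  have hF : ContDiff ℝ 1 (field P Q) := Pool.Agent.H709R2.contDiff_field P Q
  have hm : Measurable fun v : ℝ × ℝ => ENNReal.ofReal (2 * δ ^ 2 / (v.1 ^ 2 + v.2 ^ 2 + δ ^ 2) ^ 2) := by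
    fun_prop
  have h := area hF (ae_mult b3 hP hQ) hm
  rw [lint_dens hδ] at h
  refine le_trans (le_of_eq ?_) (h.trans (le_of_eq ?_))
  · refine lintegral_congr fun z => ?_
    rw [← ENNReal.ofReal_mul (abs_nonneg _), det_eq]
    congr 1
    simp only [wedge, H709R2.sq]
    ring
  · rw [← ENNReal.ofReal_natCast, ← ENNReal.ofReal_mul (Nat.cast_nonneg _)]
    congr 1
    push_cast
    ring

end Pool.Agent.N224.Hil.A1

namespace Pool.Agent.N224.Hil

/-- A1 -/
theorem a1 : S_A1 := A1.core (fun n P Q hP hQ h => Pool.Agent.H709U.b3 n P Q hP hQ h)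

end Pool.Agent.N224.Hil
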