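import Pool.Agent.N224.Hil.Defs0
import Pool.Agent.H803R2.KakArea
import Pool.Agent.H709U.B3
import Pool.Agent.H810R3.Tub.Poly

/-! HN/A2 (helper92): the area formula for the map `(A / ε, Q / P)`. At the points where the
determinant does not vanish every value is taken at most `m n` times: the common factor of
`A - ε k` and `Q - t P` does not vanish there, and Bezout's bound applies to the cofactors. -/

set_option autoImplicit false

open Real Set MeasureTheory Topology Filter
open scoped ENNReal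

namespace Pool.Agent.N224.Hil.A2

open Pool.Agent.H709R2 (wedge field)

noncomputable section

/-- the polynomial function -/
def ev (P : MvPolynomial (Fin 2) ℝ) (z : ℝ × ℝ) : ℝ := MvPolynomial.eval ![z.1, z.2] P

lemma ev_cd (P : MvPolynomial (Fin 2) ℝ) : ContDiff ℝ 1 (ev P) :=
  Pool.Agent.H709R2.contDiff_evalPoly P

lemma ev_diff (P : MvPolynomial (Fin 2) ℝ) : Differentiable ℝ (ev P) :=
  (ev_cd P).differentiable one_ne_zero

lemma ev_mul (P Q : MvPolynomial (Fin 2) ℝ) : ev (P * Q) = fun z => ev P z * ev Q z := by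
  ext z
  exact map_mul _ _ _

lemma ev_sub (P Q : MvPolynomial (Fin 2) ℝ) : ev (P - Q) = fun z => ev P z - ev Q z := by
  ext z
  exact map_sub _ _ _

lemma ev_C (c : ℝ) : ev (MvPolynomial.C c) = fun _ => c := by
  ext z
  exact MvPolynomial.eval_C _

/-- the determinant in coordinates -/
lemma det_eq (L : ℝ × ℝ →L[ℝ] ℝ × ℝ) :
    L.det = (L (1, 0)).1 * (L (0, 1)).2 - (L (0, 1)).1 * (L (1, 0)).2 := by
  have h : L.det = LinearMap.det (L : ℝ × ℝ →ₗ[ℝ] ℝ × ℝ) := rfl
  rw [h, ← LinearMap.det_toMatrix (Module.Basis.finTwoProd ℝ), Matrix.det_fin_two]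
  simp [LinearMap.toMatrix_apply]

variable (P Q A : MvPolynomial (Fin 2) ℝ) (ε : ℝ)

/-- the map `(A / ε, Q / P)` -/
def phi (z : ℝ × ℝ) : ℝ × ℝ := (ev A z / ε, ev Q z / ev P z)

/-- the wedge of the field with its derivative -/
def wd (z v : ℝ × ℝ) : ℝ := ev P z * fderiv ℝ (ev Q) z v - ev Q z * fderiv ℝ (ev P) z v

lemma wd_eq (z v : ℝ × ℝ) : wedge (field P Q z) (fderiv ℝ (field P Q) z v) = wd P Q z v := by
  have h1 : field P Q = fun z => (ev P z, ev Q z) := rfl
  have h2 : fderiv ℝ (field P Q) z v = (fderiv ℝ (ev P) z v, fderiv ℝ (ev Q) z v) := by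
    rw [h1, DifferentiableAt.fderiv_prodMk (ev_diff P z) (ev_diff Q z)]
    rfl
  rw [h2]
  rfl

variable {P Q A ε}

lemma quot_fderiv {z : ℝ × ℝ} (hz : ev P z ≠ 0) :
    HasFDerivAt (fun w => ev Q w / ev P w)
      ((ev P z ^ 2)⁻¹ • (ev P z • fderiv ℝ (ev Q) z - ev Q z • fderiv ℝ (ev P) z)) z := by
  have h1 := (ev_diff Q z).hasFDerivAt
  have h2 := (ev_diff P z).hasFDerivAt
  have h3 : HasFDerivAt (fun w => (ev P w)⁻¹) (-(ev P z ^ 2)⁻¹ • fderiv ℝ (ev P) z) z :=
    (hasDerivAt_inv hz).comp_hasFDerivAt z h2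
  have h4 := h1.mul h3
  have h5 : (fun w => ev Q w / ev P w) = fun w => ev Q w * (ev P w)⁻¹ := by
    ext w
    rw [div_eq_mul_inv]
  rw [h5]
  refine h4.congr_fderiv ?_
  ext <;>
  · simp only [ContinuousLinearMap.add_apply, ContinuousLinearMap.smul_apply, ContinuousLinearMap.sub_apply,
      smul_eq_mul, ContinuousLinearMap.coe_comp', Function.comp_apply]
    field_simp
    ring

lemma phi_fderiv {z : ℝ × ℝ} (hz : ev P z ≠ 0) : HasFDerivAt (phi P Q A ε)
    ((ε⁻¹ • fderiv ℝ (ev A) z).prod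
      ((ev P z ^ 2)⁻¹ • (ev P z • fderiv ℝ (ev Q) z - ev Q z • fderiv ℝ (ev P) z))) z := by
  have h1 : HasFDerivAt (fun w => ev A w / ε) (ε⁻¹ • fderiv ℝ (ev A) z) z := by
    have := (ev_diff A z).hasFDerivAt.const_mul ε⁻¹
    refine this.congr_of_eventuallyEq (Eventually.of_forall fun w => ?_)
    show ev A w / ε = ε⁻¹ * ev A w
    rw [div_eq_inv_mul]
  exact h1.prodMk (quot_fderiv hz)

lemma phi_det {z : ℝ × ℝ} (hz : ev P z ≠ 0) : (fderiv ℝ (phi P Q A ε) z).det =
    ε⁻¹ * (fderiv ℝ (ev A) z (1, 0) * wd P Q z (0, 1) -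
      fderiv ℝ (ev A) z (0, 1) * wd P Q z (1, 0)) / ev P z ^ 2 := by
  rw [(phi_fderiv hz).fderiv, det_eq]
  unfold wd
  simp only [ContinuousLinearMap.prod_apply, ContinuousLinearMap.smul_apply,
    ContinuousLinearMap.sub_apply, smul_eq_mul]
  field_simp

/-- the regular points -/
def rg (P Q A : MvPolynomial (Fin 2) ℝ) (ε : ℝ) : Set (ℝ × ℝ) :=
  {z | ev P z ≠ 0 ∧ (fderiv ℝ (phi P Q A ε) z).det ≠ 0}

lemma meas_rg : MeasurableSet (rg P Q A ε) := by
  have h1 : Measurable fun z => (fderiv ℝ (phi P Q A ε) z).det :=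
    ContinuousLinearMap.continuous_det.measurable.comp (measurable_fderiv ℝ _)
  have h2 : Measurable (ev P) := (ev_cd P).continuous.measurable
  exact (h2 (measurableSet_singleton (0:ℝ)).compl).inter (h1 (measurableSet_singleton (0:ℝ)).compl)

/-- every value is taken at most `m n` times at the regular points -/
lemma mult {n m : ℕ} (hP : P.totalDegree ≤ n) (hQ : Q.totalDegree ≤ n) (hA : A.totalDegree ≤ m)
    (hε : 0 < ε) (y : ℝ × ℝ) :
    {x | x ∈ rg P Q A ε ∧ phi P Q A ε x = y}.encard ≤ ((m * n : ℕ) : ℕ∞) := by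
  classical
  set A' := A - MvPolynomial.C (ε * y.1) with hA'
  set B' := Q - MvPolynomial.C y.2 * P with hB'
  have eA : ev A' = fun z => ev A z - ε * y.1 := by
    rw [hA', ev_sub, ev_C]
  have eB : ev B' = fun z => ev Q z - y.2 * ev P z := by
    rw [hB', ev_sub, ev_mul, ev_C]
  have dA : ∀ z, fderiv ℝ (ev A') z = fderiv ℝ (ev A) z := by
    intro z
    rw [eA, fderiv_sub_const]
  have dB : ∀ z v, fderiv ℝ (ev B') z v = fderiv ℝ (ev Q) z v - y.2 * fderiv ℝ (ev P) z v := by
    intro z v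
    rw [eB, fderiv_fun_sub (ev_diff Q z) ((ev_diff P z).const_mul _), fderiv_const_mul (ev_diff P z)]
    rfl
  -- the equations
  have key : ∀ x ∈ rg P Q A ε, phi P Q A ε x = y → ev A' x = 0 ∧ ev B' x = 0 ∧
      fderiv ℝ (ev A') x (1, 0) * fderiv ℝ (ev B') x (0, 1) -
        fderiv ℝ (ev A') x (0, 1) * fderiv ℝ (ev B') x (1, 0) ≠ 0 := by
    intro x hx hxy
    have h1 : ev A x / ε = y.1 := congrArg Prod.fst hxy
    have h2 : ev Q x / ev P x = y.2 := congrArg Prod.snd hxy
    have h3 : ev A x = ε * y.1 := by rw [← h1]; field_simp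
    have h4 : ev Q x = y.2 * ev P x := by rw [← h2, div_mul_cancel₀ _ hx.1]
    refine ⟨?_, ?_, fun h0 => ?_⟩
    · rw [eA]
      show ev A x - ε * y.1 = 0
      rw [h3, sub_self]
    · rw [eB]
      show ev Q x - y.2 * ev P x = 0
      rw [h4, sub_self]
    apply hx.2
    rw [phi_det hx.1]
    have h5 : fderiv ℝ (ev A) x (1, 0) * wd P Q x (0, 1) -
        fderiv ℝ (ev A) x (0, 1) * wd P Q x (1, 0) = 0 := by
      have h6 : ∀ v, wd P Q x v = ev P x * fderiv ℝ (ev B') x v := by
        intro v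
        rw [dB]
        unfold wd
        rw [h4]
        ring
      rw [h6, h6, ← dA]
      linear_combination (ev P x) * h0
    rw [h5]
    simp
  by_cases hAB : A' = 0 ∨ B' = 0
  · have : {x | x ∈ rg P Q A ε ∧ phi P Q A ε x = y} = ∅ := by
      ext x
      simp only [mem_ofPred_eq, mem_empty_iff_false, iff_false]
      rintro ⟨hx, hxy⟩
      obtain ⟨-, -, h3⟩ := key x hx hxy
      apply h3
      have hz : ∀ z v, fderiv ℝ (ev (0 : MvPolynomial (Fin 2) ℝ)) z v = 0 := by
        intro z v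
        have : ev (0 : MvPolynomial (Fin 2) ℝ) = fun _ => (0:ℝ) := by
          ext w
          exact map_zero _
        rw [this]
        simp
      rcases hAB with h | h
      · rw [h, hz, hz]; ring
      · rw [h, hz, hz]; ring
    rw [this, encard_empty]
    exact zero_le
  push Not at hAB
  obtain ⟨u, v, g, huv, hu, hv⟩ := UniqueFactorizationMonoid.exists_reduced_factors A' hAB.1 B'
  have hg0 : g ≠ 0 := by rintro rfl; exact hAB.1 (by rw [← hu, zero_mul])
  have hu0 : u ≠ 0 := by rintro rfl; exact hAB.1 (by rw [← hu, mul_zero])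
  have hv0 : v ≠ 0 := by rintro rfl; exact hAB.2 (by rw [← hv, mul_zero])
  have hdu : u.totalDegree ≤ m := by
    have h1 := MvPolynomial.totalDegree_mul_of_isDomain hg0 hu0
    rw [hu] at h1
    have h2 : A'.totalDegree ≤ m := by
      rw [hA']
      refine (MvPolynomial.totalDegree_sub _ _).trans (max_le hA ?_)
      rw [MvPolynomial.totalDegree_C]
      exact Nat.zero_le _
    omega
  have hdv : v.totalDegree ≤ n := by
    have h1 := MvPolynomial.totalDegree_mul_of_isDomain hg0 hv0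
    rw [hv] at h1
    have h2 : B'.totalDegree ≤ n := by
      rw [hB']
      refine (MvPolynomial.totalDegree_sub _ _).trans (max_le hQ ?_)
      refine (MvPolynomial.totalDegree_mul _ _).trans ?_
      rw [MvPolynomial.totalDegree_C, zero_add]
      exact hP
    omega
  have hzero : ∀ x ∈ rg P Q A ε, phi P Q A ε x = y → ev u x = 0 ∧ ev v x = 0 := by
    intro x hx hxy
    obtain ⟨h1, h2, h3⟩ := key x hx hxy
    have eA' : ev A' = fun z => ev g z * ev u z := by rw [← hu, ev_mul]
    have eB' : ev B' = fun z => ev g z * ev v z := by rw [← hv, ev_mul]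
    have hgx : ev g x ≠ 0 := by
      intro hg
      apply h3
      have h4 : ∀ w, fderiv ℝ (ev A') x w = ev u x * fderiv ℝ (ev g) x w := by
        intro w
        rw [eA', fderiv_fun_mul (ev_diff g x) (ev_diff u x)]
        simp [hg]
      have h5 : ∀ w, fderiv ℝ (ev B') x w = ev v x * fderiv ℝ (ev g) x w := by
        intro w
        rw [eB', fderiv_fun_mul (ev_diff g x) (ev_diff v x)]
        simp [hg]
      rw [h4, h4, h5, h5]
      ring
    rw [eA'] at h1
    rw [eB'] at h2
    exact ⟨(mul_eq_zero.1 h1).resolve_left hgx, (mul_eq_zero.1 h2).resolve_left hgx⟩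
  by_contra hcon
  push Not at hcon
  have h1 : ((m * n + 1 : ℕ) : ℕ∞) ≤ {x | x ∈ rg P Q A ε ∧ phi P Q A ε x = y}.encard := by
    rw [Nat.cast_add, Nat.cast_one]
    exact Order.add_one_le_of_lt hcon
  obtain ⟨t, ht, htc⟩ := Set.exists_subset_encard_eq h1
  have htf : t.Finite := Set.finite_of_encard_eq_coe htc
  have hinj : Function.Injective (fun z : ℝ × ℝ => (![z.1, z.2] : Fin 2 → ℝ)) := by
    intro z w h
    have h0 := congrFun h 0
    have h1 := congrFun h 1
    simp at h0 h1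
    exact Prod.ext h0 h1
  have h2 := Pool.Agent.H709U.B3.bezout u v hv0 huv
    (htf.toFinset.image fun z : ℝ × ℝ => (![z.1, z.2] : Fin 2 → ℝ)) (by
      intro w hw
      rw [Finset.mem_image] at hw
      obtain ⟨z, hz, rfl⟩ := hw
      have h3 := ht (htf.mem_toFinset.1 hz)
      exact hzero z h3.1 h3.2)
  rw [Finset.card_image_of_injective _ hinj] at h2
  have h3 : htf.toFinset.card = m * n + 1 := by
    have h4 := htf.encard_eq_coe_toFinset_card
    rw [htc] at h4
    exact_mod_cast h4.symm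
  have h4 : u.totalDegree * v.totalDegree ≤ m * n := Nat.mul_le_mul hdu hdv
  omega

/-- the zero set of `P` -/
lemma null_zero (hP : P ≠ 0) : volume {z : ℝ × ℝ | ev P z = 0} = 0 := by
  have h1 := Pool.Agent.H810R3.Tub.zero_null 2 P hP
  have h2 := (volume_preserving_finTwoArrow ℝ).symm
  have h3 : {z : ℝ × ℝ | ev P z = 0} =
      (MeasurableEquiv.finTwoArrow (α := ℝ)).symm ⁻¹' {y : Fin 2 → ℝ | MvPolynomial.eval y P = 0} := by
    ext z
    have h4 : (MeasurableEquiv.finTwoArrow (α := ℝ)).symm z = ![z.1, z.2] := by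
      ext i
      fin_cases i <;> rfl
    simp only [mem_ofPred_eq, mem_preimage, h4]
    rfl
  rw [h3, h2.measure_preimage_equiv]
  exact h1

lemma lint_one : ∫⁻ x : ℝ, ENNReal.ofReal (1 + x ^ 2)⁻¹ = ENNReal.ofReal π := by
  rw [← integral_univ_inv_one_add_sq]
  rw [ofReal_integral_eq_lintegral_ofReal integrable_inv_one_add_sq
    (Eventually.of_forall fun x => by positivity)]

/-- the weight -/
def hw (z : ℝ × ℝ) : ℝ≥0∞ := ENNReal.ofReal (1 + z.1 ^ 2)⁻¹ * ENNReal.ofReal (1 + z.2 ^ 2)⁻¹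

lemma meas_hw : Measurable hw := by
  unfold hw
  fun_prop

lemma lint_hw : ∫⁻ z, hw z = ENNReal.ofReal π * ENNReal.ofReal π := by
  unfold hw
  rw [Measure.volume_eq_prod, lintegral_prod_mul (f := fun x : ℝ => ENNReal.ofReal (1 + x ^ 2)⁻¹)
    (g := fun x : ℝ => ENNReal.ofReal (1 + x ^ 2)⁻¹) (by fun_prop) (by fun_prop), lint_one]

lemma meas_phi : Measurable (phi P Q A ε) := by
  unfold phi
  exact ((ev_cd A).continuous.measurable.div_const _).prodMk
    ((ev_cd Q).continuous.measurable.div (ev_cd P).continuous.measurable)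

lemma main_ineq {n m : ℕ} (hP : P.totalDegree ≤ n) (hQ : Q.totalDegree ≤ n)
    (hA : A.totalDegree ≤ m) (hε : 0 < ε) :
    ∫⁻ z in rg P Q A ε, ENNReal.ofReal |(fderiv ℝ (phi P Q A ε) z).det| * hw (phi P Q A ε z) ≤
      ((m * n : ℕ) : ℝ≥0∞) * (ENNReal.ofReal π * ENNReal.ofReal π) := by
  have hmd : Measurable fun z => ENNReal.ofReal |(fderiv ℝ (phi P Q A ε) z).det| :=
    ((ContinuousLinearMap.continuous_det.measurable.comp (measurable_fderiv ℝ _)).abs).ennreal_ofReal
  set ν := (volume.restrict (rg P Q A ε)).withDensity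
    (fun z => ENNReal.ofReal |(fderiv ℝ (phi P Q A ε) z).det|) with hν
  have h1 : Measure.map (phi P Q A ε) ν ≤ ((m * n : ℕ) : ℝ≥0∞) • (volume : Measure (ℝ × ℝ)) := by
    rw [Measure.le_iff]
    intro U hU
    rw [Measure.map_apply meas_phi hU, hν, withDensity_apply _ (meas_phi hU),
      Measure.restrict_restrict (meas_phi hU)]
    have h2 : phi P Q A ε ⁻¹' U ∩ rg P Q A ε =
        {x | x ∈ rg P Q A ε ∧ phi P Q A ε x ∈ U} := by
      ext x
      simp only [mem_inter_iff, mem_preimage, mem_ofPred_eq]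
      exact and_comm
    rw [h2]
    exact Pool.Agent.H803R2.Kak.lintegral_det_le_mul volume meas_rg hU
      (fun x hx => (phi_fderiv hx.1).differentiableAt.hasFDerivAt) (measurable_fderiv ℝ _)
      (Eventually.of_forall fun y => mult hP hQ hA hε y)
  calc ∫⁻ z in rg P Q A ε, ENNReal.ofReal |(fderiv ℝ (phi P Q A ε) z).det| * hw (phi P Q A ε z)
      = ∫⁻ z, hw (phi P Q A ε z) ∂ν := by
        have h3 : Measurable fun z => hw (phi P Q A ε z) := meas_hw.comp meas_phi
        rw [hν, lintegral_withDensity_eq_lintegral_mul _ hmd h3]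
        rfl
    _ = ∫⁻ y, hw y ∂(Measure.map (phi P Q A ε) ν) := by
        rw [lintegral_map meas_hw meas_phi]
    _ ≤ ∫⁻ y, hw y ∂(((m * n : ℕ) : ℝ≥0∞) • (volume : Measure (ℝ × ℝ))) := lintegral_mono' h1 le_rfl
    _ = _ := by
        rw [lintegral_smul_measure, lint_hw, smul_eq_mul]

end

end Pool.Agent.N224.Hil.A2

namespace Pool.Agent.N224.Hil

open A2 in
theorem a2 : S_A2 := by
  intro n m P Q A hP hQ hA hrel ε hε
  simp only [wd_eq]
  by_cases hP0 : P = 0
  · have h1 : ∀ z v : ℝ × ℝ, wd P Q z v = 0 := by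
      intro z v
      have h2 : ev P = fun _ => (0:ℝ) := by
        ext w
        rw [hP0]
        exact map_zero _
      unfold wd
      rw [h2]
      simp
    simp [h1]
  have hnull : ∀ᵐ z : ℝ × ℝ, ev P z ≠ 0 := by
    rw [ae_iff]
    simp only [ne_eq, not_not]
    exact null_zero hP0
  have hae : ∀ᵐ z : ℝ × ℝ, ENNReal.ofReal (ε⁻¹ *
      |fderiv ℝ (fun w : ℝ × ℝ => MvPolynomial.eval ![w.1, w.2] A) z (1, 0) * wd P Q z (0, 1) -
        fderiv ℝ (fun w : ℝ × ℝ => MvPolynomial.eval ![w.1, w.2] A) z (0, 1) * wd P Q z (1, 0)| /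
      ((1 + (MvPolynomial.eval ![z.1, z.2] A / ε) ^ 2) * H709R2.sq (H709R2.field P Q z))) =
      (rg P Q A ε).indicator (fun z => ENNReal.ofReal |(fderiv ℝ (phi P Q A ε) z).det| *
        hw (phi P Q A ε z)) z := by
    filter_upwards [hnull] with z hz
    have hdet := phi_det (Q := Q) (A := A) (ε := ε) hz
    have h3 : (fun w : ℝ × ℝ => MvPolynomial.eval ![w.1, w.2] A) = ev A := rfl
    have h4 : MvPolynomial.eval ![z.1, z.2] A = ev A z := rfl
    have h5 : H709R2.sq (H709R2.field P Q z) = ev P z ^ 2 + ev Q z ^ 2 := rfl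
    rw [h3, h4, h5]
    have hp2 : 0 < ev P z ^ 2 := by positivity
    by_cases hd : (fderiv ℝ (phi P Q A ε) z).det = 0
    · rw [indicator_of_notMem (fun h => h.2 hd)]
      rw [hd] at hdet
      have h6 : fderiv ℝ (ev A) z (1, 0) * wd P Q z (0, 1) -
          fderiv ℝ (ev A) z (0, 1) * wd P Q z (1, 0) = 0 := by
        have h7 := (div_eq_zero_iff.1 hdet.symm).resolve_right hp2.ne'
        exact (mul_eq_zero.1 h7).resolve_left (inv_ne_zero hε.ne')
      rw [h6]
      simp
    · have hmem : z ∈ rg P Q A ε := ⟨hz, hd⟩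
      rw [indicator_of_mem hmem]
      unfold hw
      rw [← ENNReal.ofReal_mul (by positivity), ← ENNReal.ofReal_mul (abs_nonneg _), hdet]
      congr 1
      rw [abs_div, abs_mul, abs_of_pos (inv_pos.2 hε), abs_of_pos hp2]
      show _ = _ * ((1 + (ev A z / ε) ^ 2)⁻¹ * (1 + (ev Q z / ev P z) ^ 2)⁻¹)
      have h8 : (1 + (ev Q z / ev P z) ^ 2)⁻¹ = ev P z ^ 2 / (ev P z ^ 2 + ev Q z ^ 2) := by
        rw [div_pow]
        field_simp
      rw [h8]
      have h9 : 0 < 1 + (ev A z / ε) ^ 2 := by positivity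
      have h10 : 0 < ev P z ^ 2 + ev Q z ^ 2 := by positivity
      field_simp
  rw [lintegral_congr_ae hae, lintegral_indicator meas_rg]
  refine (main_ineq hP hQ hA hε).trans (le_of_eq ?_)
  rw [← ENNReal.ofReal_mul Real.pi_pos.le, ← ENNReal.ofReal_natCast, ← ENNReal.ofReal_mul (by positivity)]
  congr 1
  push_cast
  ring

end Pool.Agent.N224.Hil
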