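import Pool.Agent.N224.Hil.Defs0
import Pool.Agent.H761R2.SV.Pomp

/-! Project HN: Green's formula with winding numbers (S_G), from the Cauchy-Pompeiu formula. -/

set_option autoImplicit false

open Set MeasureTheory Topology Filter
open scoped ENNReal

namespace Pool.Agent.N224.Hil

namespace G

open Pool.Agent.H761R2.SV (dbar continuous_dbar integrable_mul_cauchy pompeiu_compact
  integrableOn_norm_inv)
open Pool.Agent.H709R2 (wedge)

variable {γ V : ℝ → ℝ × ℝ} {T : ℝ}

/-- the plane as the complex line -/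
noncomputable def cx : (ℝ × ℝ) →L[ℝ] ℂ :=
  (Complex.equivRealProdCLM.symm : (ℝ × ℝ) ≃L[ℝ] ℂ).toContinuousLinearMap

/-- the complex line as the plane -/
noncomputable def rp : ℂ →L[ℝ] (ℝ × ℝ) :=
  (Complex.equivRealProdCLM : ℂ ≃L[ℝ] (ℝ × ℝ)).toContinuousLinearMap

lemma cx_re (z : ℝ × ℝ) : (cx z).re = z.1 := by simp [cx]

lemma cx_im (z : ℝ × ℝ) : (cx z).im = z.2 := by simp [cx]

lemma rp_eq (w : ℂ) : rp w = (w.re, w.im) := rfl

lemma cx_rp (w : ℂ) : cx (rp w) = w := by
  apply Complex.ext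
  · rw [cx_re, rp_eq]
  · rw [cx_im, rp_eq]

lemma cont_curve (h : Loop γ V T) : Continuous γ :=
  continuous_iff_continuousAt.2 fun t => (h.der t).continuousAt

/-- the integral of the Cauchy kernel along the curve -/
lemma inner (h : Loop γ V T) {z : ℝ × ℝ} (hz : z ∉ range γ) :
    ∫ t in (0:ℝ)..T, cx (V t) * (cx (γ t) - cx z)⁻¹ =
      2 * Real.pi * Complex.I * (wn γ V T z : ℂ) := by
  have hsq : ∀ t, H709R2.sq (γ t - z) ≠ 0 := by
    intro t h0
    apply hz
    refine ⟨t, ?_⟩
    unfold H709R2.sq at h0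
    have h1 : (γ t - z).1 = 0 := by nlinarith [sq_nonneg (γ t - z).1, sq_nonneg (γ t - z).2]
    have h2 : (γ t - z).2 = 0 := by nlinarith [sq_nonneg (γ t - z).1, sq_nonneg (γ t - z).2]
    exact sub_eq_zero.1 (Prod.ext h1 h2)
  have hγ := cont_curve h
  have hcs : Continuous fun t => H709R2.sq (γ t - z) := by
    unfold H709R2.sq
    fun_prop
  have hV := h.cont
  obtain ⟨A, hA⟩ : ∃ A : ℝ → ℝ, A = fun t =>
      ((γ t - z).1 * (V t).1 + (γ t - z).2 * (V t).2) / H709R2.sq (γ t - z) := ⟨_, rfl⟩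
  obtain ⟨B, hB⟩ : ∃ B : ℝ → ℝ, B = fun t =>
      wedge (γ t - z) (V t) / H709R2.sq (γ t - z) := ⟨_, rfl⟩
  have cA : Continuous A := by
    rw [hA]
    exact Continuous.div (by fun_prop) hcs hsq
  have cB : Continuous B := by
    rw [hB]
    refine Continuous.div ?_ hcs hsq
    unfold H709R2.wedge
    fun_prop
  have e : ∀ t, cx (V t) * (cx (γ t) - cx z)⁻¹ = (A t : ℂ) + (B t : ℂ) * Complex.I := by
    intro t
    rw [← map_sub, ← div_eq_mul_inv]
    have h0 := hsq t
    have hne : cx (γ t - z) ≠ 0 := by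
      intro h1
      apply h0
      unfold H709R2.sq
      have h2 := congrArg Complex.re h1
      have h3 := congrArg Complex.im h1
      rw [cx_re, Complex.zero_re] at h2
      rw [cx_im, Complex.zero_im] at h3
      rw [h2, h3]
      ring
    have hAt : A t = ((γ t - z).1 * (V t).1 + (γ t - z).2 * (V t).2) / H709R2.sq (γ t - z) := by
      rw [hA]
    have hBt : B t = wedge (γ t - z) (V t) / H709R2.sq (γ t - z) := by rw [hB]
    rw [div_eq_iff hne, hAt, hBt]
    clear hAt hBt
    generalize γ t - z = a at h0 hne ⊢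
    generalize V t = v
    obtain ⟨a1, a2⟩ := a
    obtain ⟨v1, v2⟩ := v
    unfold H709R2.wedge H709R2.sq
    unfold H709R2.sq at h0
    simp only at h0 ⊢
    apply Complex.ext
    · simp only [Complex.add_re, Complex.mul_re, Complex.ofReal_re, Complex.ofReal_im, Complex.I_re,
        Complex.I_im, Complex.add_im, Complex.mul_im, cx_re, cx_im]
      field_simp
      ring
    · simp only [Complex.add_re, Complex.mul_re, Complex.ofReal_re, Complex.ofReal_im, Complex.I_re,
        Complex.I_im, Complex.add_im, Complex.mul_im, cx_re, cx_im]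
      field_simp
      ring
  have hA0 : ∫ t in (0:ℝ)..T, A t = 0 := by
    have hd : ∀ t ∈ uIcc (0:ℝ) T, HasDerivAt (fun t => Real.log (H709R2.sq (γ t - z)) / 2) (A t) t := by
      intro t _
      have h1 : HasDerivAt (fun t => (γ t - z).1) (V t).1 t := by
        have := (hasFDerivAt_fst (𝕜 := ℝ) (p := γ t - z)).comp_hasDerivAt t ((h.der t).sub_const z)
        exact this
      have h2 : HasDerivAt (fun t => (γ t - z).2) (V t).2 t := by
        have := (hasFDerivAt_snd (𝕜 := ℝ) (p := γ t - z)).comp_hasDerivAt t ((h.der t).sub_const z)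
        exact this
      have h3 : HasDerivAt (fun t => H709R2.sq (γ t - z))
          (2 * (γ t - z).1 * (V t).1 + 2 * (γ t - z).2 * (V t).2) t := by
        have h4 := (h1.pow 2).add (h2.pow 2)
        unfold H709R2.sq
        refine h4.congr_deriv ?_
        push_cast
        ring
      refine ((h3.log (hsq t)).div_const 2).congr_deriv ?_
      rw [hA]
      have := hsq t
      field_simp
    rw [intervalIntegral.integral_eq_sub_of_hasDerivAt hd (cA.intervalIntegrable _ _)]
    have h5 := h.per 0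
    rw [zero_add] at h5
    rw [h5, sub_self]
  simp_rw [e]
  rw [intervalIntegral.integral_add, intervalIntegral.integral_mul_const,
    intervalIntegral.integral_ofReal, intervalIntegral.integral_ofReal, hA0]
  · unfold wn
    rw [← hB]
    push_cast
    have hpi : (Real.pi : ℂ) ≠ 0 := by exact_mod_cast Real.pi_ne_zero
    field_simp
    ring
  · exact (Complex.continuous_ofReal.comp cA).intervalIntegrable _ _
  · exact ((Complex.continuous_ofReal.comp cB).mul continuous_const).intervalIntegrable _ _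

lemma dbar_compact {F : ℂ → ℂ} (hc : HasCompactSupport F) : HasCompactSupport (dbar F) := by
  have h1 := hc.fderiv (𝕜 := ℝ)
  exact h1.comp_left (g := fun L : ℂ →L[ℝ] ℂ => (L 1 + Complex.I * L Complex.I) / 2) (by simp)

/-- integrability on the product -/
lemma fubini (h : Loop γ V T) {F : ℂ → ℂ} (hF : ContDiff ℝ 1 F) (hc : HasCompactSupport F) :
    Integrable (fun p : ℝ × ℂ => dbar F p.2 * (cx (V p.1) * (cx (γ p.1) - p.2)⁻¹))
      ((volume.restrict (Ioc 0 T)).prod volume) := by
  have hγ := cont_curve h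
  have hd : Continuous (dbar F) := continuous_dbar hF
  have hdc : HasCompactSupport (dbar F) := dbar_compact hc
  have hm : Measurable (fun p : ℝ × ℂ => dbar F p.2 * (cx (V p.1) * (cx (γ p.1) - p.2)⁻¹)) := by
    have m1 : Measurable fun p : ℝ × ℂ => dbar F p.2 := hd.measurable.comp measurable_snd
    have m2 : Measurable fun p : ℝ × ℂ => cx (V p.1) :=
      (cx.continuous.comp h.cont).measurable.comp measurable_fst
    have m3 : Measurable fun p : ℝ × ℂ => cx (γ p.1) - p.2 :=
      ((cx.continuous.comp hγ).measurable.comp measurable_fst).sub measurable_snd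
    exact m1.mul (m2.mul m3.inv)
  obtain ⟨M, hM⟩ := hdc.exists_bound_of_continuous hd
  obtain ⟨R, hR⟩ := (hdc.isCompact.isBounded).subset_closedBall (0 : ℂ)
  have hM0 : 0 ≤ M := (norm_nonneg _).trans (hM 0)
  obtain ⟨C1, hC1⟩ := (isCompact_Icc (a := (0:ℝ)) (b := T)).exists_bound_of_continuousOn
    (cx.continuous.comp hγ).continuousOn
  obtain ⟨C2, hC2⟩ := (isCompact_Icc (a := (0:ℝ)) (b := T)).exists_bound_of_continuousOn
    (cx.continuous.comp h.cont).continuousOn
  have hint : ∀ t, Integrable (fun w => dbar F w * (cx (V t) * (cx (γ t) - w)⁻¹)) := by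
    intro t
    refine ((integrable_mul_cauchy hd hdc (cx (γ t))).const_mul (cx (V t))).congr
      (Eventually.of_forall fun w => ?_)
    simp only
    ring
  rw [integrable_prod_iff hm.aestronglyMeasurable]
  refine ⟨Eventually.of_forall fun t => hint t, ?_⟩
  -- the uniform bound
  obtain ⟨ρ, hρ⟩ : ∃ ρ : ℝ, ρ = R + C1 + 1 := ⟨_, rfl⟩
  obtain ⟨ψ, hψ⟩ : ∃ ψ : ℂ → ℝ, ψ = (Metric.ball (0 : ℂ) ρ).indicator (fun w : ℂ => ‖w‖⁻¹) :=
    ⟨_, rfl⟩
  have iψ : Integrable ψ := by
    rw [hψ]
    exact (integrable_indicator_iff measurableSet_ball).2 (integrableOn_norm_inv _)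
  have hψ0 : ∀ w, 0 ≤ ψ w := by
    intro w
    rw [hψ]
    apply indicator_nonneg
    intro w _
    positivity
  refine Integrable.of_bound (C := C2 * (M * ∫ w, ψ w))
    (hm.stronglyMeasurable.norm.integral_prod_right').aestronglyMeasurable ?_
  rw [ae_restrict_iff' measurableSet_Ioc]
  refine Eventually.of_forall fun t ht => ?_
  have ht' : t ∈ Icc (0:ℝ) T := ⟨ht.1.le, ht.2⟩
  rw [Real.norm_of_nonneg (integral_nonneg fun w => norm_nonneg _)]
  have hC20 : 0 ≤ C2 := (norm_nonneg _).trans (hC2 t ht')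
  have h1 : ∀ w, ‖dbar F w * (cx (V t) * (cx (γ t) - w)⁻¹)‖ ≤ C2 * (M * ψ (cx (γ t) - w)) := by
    intro w
    rw [norm_mul, norm_mul, norm_inv]
    have e : ‖dbar F w‖ * (‖cx (V t)‖ * ‖cx (γ t) - w‖⁻¹) =
        ‖cx (V t)‖ * (‖dbar F w‖ * ‖cx (γ t) - w‖⁻¹) := by ring
    rw [e]
    refine mul_le_mul (hC2 t ht') ?_ (by positivity) hC20
    by_cases hw : w ∈ tsupport (dbar F)
    · have hw1 : ‖w‖ ≤ R := by simpa using hR hw
      have hmem : cx (γ t) - w ∈ Metric.ball (0 : ℂ) ρ := by
        rw [mem_ball_zero_iff, hρ]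
        have h2 := norm_sub_le (cx (γ t)) w
        have h3 : ‖cx (γ t)‖ ≤ C1 := hC1 t ht'
        linarith
      rw [hψ, indicator_of_mem hmem]
      exact mul_le_mul_of_nonneg_right (hM w) (by positivity)
    · rw [image_eq_zero_of_notMem_tsupport hw, norm_zero, zero_mul]
      exact mul_nonneg hM0 (hψ0 _)
  have h2 : Integrable (fun w => C2 * (M * ψ (cx (γ t) - w))) :=
    ((iψ.comp_sub_left (cx (γ t))).const_mul M).const_mul C2
  refine (integral_mono (hint t).norm h2 h1).trans ?_
  rw [integral_const_mul, integral_const_mul, integral_sub_left_eq_self ψ volume (cx (γ t))]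

/-- almost all points are off the curve -/
lemma ae_off (hN : S_N) (h : Loop γ V T) : ∀ᵐ w : ℂ, rp w ∉ range γ := by
  have h1 : volume (rp ⁻¹' range γ) = 0 := by
    have h2 := hN γ V T h
    have h3 := Complex.volume_preserving_equiv_real_prod.measure_preimage_equiv (range γ)
    rw [h2] at h3
    exact h3
  exact measure_eq_zero_iff_ae_notMem.1 h1

/-- the complex formula -/
lemma complex_green (hN : S_N) (h : Loop γ V T) {F : ℂ → ℂ} (hF : ContDiff ℝ 1 F)
    (hc : HasCompactSupport F) :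
    Integrable (fun w => dbar F w * (2 * Complex.I * (wn γ V T (rp w) : ℂ))) ∧
    ∫ t in (0:ℝ)..T, F (cx (γ t)) * cx (V t) =
      ∫ w, dbar F w * (2 * Complex.I * (wn γ V T (rp w) : ℂ)) := by
  have hpi : (Real.pi : ℂ) ≠ 0 := by exact_mod_cast Real.pi_ne_zero
  have hfub := fubini h hF hc
  have hinner : ∀ᵐ w : ℂ, (∫ t in Ioc 0 T, dbar F w * (cx (V t) * (cx (γ t) - w)⁻¹)) =
      Real.pi * (dbar F w * (2 * Complex.I * (wn γ V T (rp w) : ℂ))) := by
    filter_upwards [ae_off hN h] with w hw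
    have h1 := inner h hw
    rw [cx_rp, intervalIntegral.integral_of_le h.pos.le] at h1
    rw [integral_const_mul, h1]
    ring
  have hswap : ∫ t in Ioc 0 T, (∫ w, dbar F w * (cx (V t) * (cx (γ t) - w)⁻¹)) =
      ∫ w, (∫ t in Ioc 0 T, dbar F w * (cx (V t) * (cx (γ t) - w)⁻¹)) :=
    integral_integral_swap hfub
  have hl : ∀ t, ∫ w, dbar F w * (cx (V t) * (cx (γ t) - w)⁻¹) =
      Real.pi * (F (cx (γ t)) * cx (V t)) := by
    intro t
    have h1 := pompeiu_compact hF hc (cx (γ t))
    have h2 : ∫ w, dbar F w * (cx (V t) * (cx (γ t) - w)⁻¹) =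
        ∫ w, cx (V t) * (dbar F w * (cx (γ t) - w)⁻¹) := by
      congr 1
      funext w
      ring
    rw [h2, integral_const_mul, h1]
    ring
  simp_rw [hl] at hswap
  rw [integral_const_mul, integral_congr_ae hinner, integral_const_mul] at hswap
  constructor
  · have h3 := hfub.integral_prod_right
    have h4 : Integrable (fun w => (Real.pi : ℂ) *
        (dbar F w * (2 * Complex.I * (wn γ V T (rp w) : ℂ)))) := h3.congr hinner
    have h5 := h4.const_mul ((Real.pi : ℂ)⁻¹)
    refine h5.congr (Eventually.of_forall fun w => ?_)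
    simp only
    rw [inv_mul_cancel_left₀ hpi]
  · rw [intervalIntegral.integral_of_le h.pos.le]
    exact mul_left_cancel₀ hpi hswap

/-- the real formula for functions with compact support -/
lemma green_compact (hN : S_N) (h : Loop γ V T) {f g : ℝ × ℝ → ℝ} (hf : ContDiff ℝ 1 f)
    (hg : ContDiff ℝ 1 g) (hfc : HasCompactSupport f) (hgc : HasCompactSupport g) :
    Integrable (fun z => wn γ V T z * (fderiv ℝ g z (1, 0) - fderiv ℝ f z (0, 1))) ∧
    ∫ t in (0:ℝ)..T, (f (γ t) * (V t).1 + g (γ t) * (V t).2) =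
      ∫ z, wn γ V T z * (fderiv ℝ g z (1, 0) - fderiv ℝ f z (0, 1)) := by
  obtain ⟨F, hF⟩ : ∃ F : ℂ → ℂ, F = fun w => (f (rp w) : ℂ) - Complex.I * (g (rp w) : ℂ) :=
    ⟨_, rfl⟩
  have hf1 : ContDiff ℝ 1 fun w : ℂ => (f (rp w) : ℂ) :=
    Complex.ofRealCLM.contDiff.comp (hf.comp rp.contDiff)
  have hg1 : ContDiff ℝ 1 fun w : ℂ => (g (rp w) : ℂ) :=
    Complex.ofRealCLM.contDiff.comp (hg.comp rp.contDiff)
  have hFd : ContDiff ℝ 1 F := by
    rw [hF]
    exact hf1.sub (contDiff_const.mul hg1)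
  have hf2 : HasCompactSupport fun w : ℂ => (f (rp w) : ℂ) := by
    have h1 : HasCompactSupport (f ∘ rp) :=
      hfc.comp_homeomorph Complex.equivRealProdCLM.toHomeomorph
    exact h1.comp_left (g := fun x : ℝ => (x : ℂ)) Complex.ofReal_zero
  have hg2 : HasCompactSupport fun w : ℂ => (g (rp w) : ℂ) := by
    have h1 : HasCompactSupport (g ∘ rp) :=
      hgc.comp_homeomorph Complex.equivRealProdCLM.toHomeomorph
    exact h1.comp_left (g := fun x : ℝ => (x : ℂ)) Complex.ofReal_zero
  have hFc : HasCompactSupport F := by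
    rw [hF]
    have h1 : HasCompactSupport fun w : ℂ => Complex.I * (g (rp w) : ℂ) :=
      hg2.comp_left (g := fun x : ℂ => Complex.I * x) (mul_zero _)
    exact hf2.sub h1
  obtain ⟨hi, he⟩ := complex_green hN h hFd hFc
  -- the derivatives
  have hdf : ∀ (u : ℝ × ℝ → ℝ), ContDiff ℝ 1 u → ∀ w v : ℂ,
      fderiv ℝ (fun w : ℂ => (u (rp w) : ℂ)) w v = (fderiv ℝ u (rp w) (rp v) : ℂ) := by
    intro u hu w v
    have h1 : HasFDerivAt u (fderiv ℝ u (rp w)) (rp w) :=
      (hu.differentiable (by simp) (rp w)).hasFDerivAt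
    have h2 := Complex.ofRealCLM.hasFDerivAt.comp w (h1.comp w rp.hasFDerivAt)
    have h3 : fderiv ℝ (fun w : ℂ => (u (rp w) : ℂ)) w = _ := h2.fderiv
    rw [h3]
    rfl
  have hd : ∀ w v : ℂ, fderiv ℝ F w v = (fderiv ℝ f (rp w) (rp v) : ℂ) -
      Complex.I * (fderiv ℝ g (rp w) (rp v) : ℂ) := by
    intro w v
    rw [hF]
    have h1 : DifferentiableAt ℝ (fun w : ℂ => (f (rp w) : ℂ)) w := hf1.differentiable (by simp) w
    have h2 : DifferentiableAt ℝ (fun w : ℂ => (g (rp w) : ℂ)) w := hg1.differentiable (by simp) w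
    rw [fderiv_fun_sub h1 (h2.const_mul _), ContinuousLinearMap.sub_apply, hdf f hf,
      fderiv_const_mul h2, ContinuousLinearMap.smul_apply, hdf g hg, smul_eq_mul]
  have hre : ∀ w : ℂ, (dbar F w * (2 * Complex.I * (wn γ V T (rp w) : ℂ))).re =
      wn γ V T (rp w) * (fderiv ℝ g (rp w) (1, 0) - fderiv ℝ f (rp w) (0, 1)) := by
    intro w
    unfold dbar
    rw [hd, hd]
    have e1 : rp 1 = (1, 0) := by rw [rp_eq, Complex.one_re, Complex.one_im]
    have e2 : rp Complex.I = (0, 1) := by rw [rp_eq, Complex.I_re, Complex.I_im]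
    rw [e1, e2]
    have e3 : (((fderiv ℝ f (rp w) (1, 0) : ℝ) : ℂ) - Complex.I * ((fderiv ℝ g (rp w) (1, 0) : ℝ) : ℂ) +
        Complex.I * (((fderiv ℝ f (rp w) (0, 1) : ℝ) : ℂ) -
          Complex.I * ((fderiv ℝ g (rp w) (0, 1) : ℝ) : ℂ))) / 2 *
          (2 * Complex.I * ((wn γ V T (rp w) : ℝ) : ℂ)) =
        ((wn γ V T (rp w) * (fderiv ℝ g (rp w) (1, 0) - fderiv ℝ f (rp w) (0, 1)) : ℝ) : ℂ) +
        ((wn γ V T (rp w) * (fderiv ℝ f (rp w) (1, 0) + fderiv ℝ g (rp w) (0, 1)) : ℝ) : ℂ) *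
          Complex.I := by
      push_cast
      linear_combination ((wn γ V T (rp w) : ℂ) * (((fderiv ℝ f (rp w) (0, 1) : ℝ) : ℂ) -
        ((fderiv ℝ g (rp w) (1, 0) : ℝ) : ℂ) - Complex.I * ((fderiv ℝ g (rp w) (0, 1) : ℝ) : ℂ))) *
        Complex.I_sq
    rw [e3, Complex.add_re, Complex.ofReal_re, Complex.re_ofReal_mul, Complex.I_re, mul_zero,
      add_zero]
  have hmp := Complex.volume_preserving_equiv_real_prod
  constructor
  · have h1 := hi.re
    have h2 : Integrable (fun w : ℂ => wn γ V T (rp w) *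
        (fderiv ℝ g (rp w) (1, 0) - fderiv ℝ f (rp w) (0, 1))) := by
      refine h1.congr (Eventually.of_forall fun w => ?_)
      exact hre w
    exact (hmp.integrable_comp_emb Complex.measurableEquivRealProd.measurableEmbedding).1 h2
  · have h1 := congrArg Complex.re he
    have h2 : (∫ w, dbar F w * (2 * Complex.I * (wn γ V T (rp w) : ℂ))).re =
        ∫ z, wn γ V T z * (fderiv ℝ g z (1, 0) - fderiv ℝ f z (0, 1)) := by
      have h3 : (∫ w, dbar F w * (2 * Complex.I * (wn γ V T (rp w) : ℂ))).re =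
          ∫ w, (dbar F w * (2 * Complex.I * (wn γ V T (rp w) : ℂ))).re := (integral_re hi).symm
      have h4 := hmp.integral_comp Complex.measurableEquivRealProd.measurableEmbedding
        (fun z => wn γ V T z * (fderiv ℝ g z (1, 0) - fderiv ℝ f z (0, 1)))
      rw [h3]
      simp_rw [hre]
      exact h4
    have hγ := cont_curve h
    have h5 : (∫ t in (0:ℝ)..T, F (cx (γ t)) * cx (V t)).re =
        ∫ t in (0:ℝ)..T, (f (γ t) * (V t).1 + g (γ t) * (V t).2) := by
      have hci : IntervalIntegrable (fun t => F (cx (γ t)) * cx (V t)) volume 0 T :=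
        ((hFd.continuous.comp (cx.continuous.comp hγ)).mul
          (cx.continuous.comp h.cont)).intervalIntegrable _ _
      have h6 : ∫ t in (0:ℝ)..T, Complex.reCLM (F (cx (γ t)) * cx (V t)) =
          Complex.reCLM (∫ t in (0:ℝ)..T, F (cx (γ t)) * cx (V t)) :=
        Complex.reCLM.intervalIntegral_comp_comm hci
      refine Eq.trans h6.symm ?_
      apply intervalIntegral.integral_congr
      intro t _
      show (F (cx (γ t)) * cx (V t)).re = f (γ t) * (V t).1 + g (γ t) * (V t).2
      have e : rp (cx (γ t)) = γ t := by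
        rw [rp_eq, cx_re, cx_im]
      rw [hF]
      simp only [e]
      rw [Complex.mul_re, Complex.sub_re, Complex.sub_im, Complex.ofReal_re, Complex.ofReal_im,
        Complex.I_mul_re, Complex.I_mul_im, Complex.ofReal_re, Complex.ofReal_im, cx_re, cx_im]
      ring
    rw [← h5, ← h2]
    exact h1

/-- the winding number vanishes outside a square which contains the curve -/
lemma wn_zero (h3 : S_W3) (h : Loop γ V T) {R : ℝ} (hR : ∀ t, ‖γ t‖ ≤ R) {z : ℝ × ℝ}
    (hz : R < ‖z‖) : wn γ V T z = 0 := by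
  have hb : ∀ t, |(γ t).1| ≤ R ∧ |(γ t).2| ≤ R := by
    intro t
    have := hR t
    rw [Prod.norm_def, max_le_iff] at this
    exact this
  rw [Prod.norm_def, lt_max_iff, Real.norm_eq_abs, Real.norm_eq_abs, lt_abs, lt_abs] at hz
  rcases hz with (hz | hz) | (hz | hz)
  · refine h3 γ V T h z (-1, 0) fun t => ?_
    have := abs_le.1 (hb t).1
    simp only
    linarith
  · refine h3 γ V T h z (1, 0) fun t => ?_
    have := abs_le.1 (hb t).1
    simp only
    linarith
  · refine h3 γ V T h z (0, -1) fun t => ?_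
    have := abs_le.1 (hb t).2
    simp only
    linarith
  · refine h3 γ V T h z (0, 1) fun t => ?_
    have := abs_le.1 (hb t).2
    simp only
    linarith

end G

/-- **HN/G** -/
theorem g (h1 : S_W1) (h2 : S_W2) (h3 : S_W3) (hN : S_N) : S_G := by
  intro γ V T h f g hf hg
  have hγ := G.cont_curve h
  have hbdd : Bornology.IsBounded (range γ) :=
    Function.Periodic.isBounded_of_continuous h.per h.pos.ne' hγ
  obtain ⟨R, hRs⟩ := hbdd.subset_closedBall 0
  have hR : ∀ t, ‖γ t‖ ≤ R := fun t => by simpa using hRs (mem_range_self t)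
  have hR0 : 0 ≤ R := (norm_nonneg _).trans (hR 0)
  let b : ContDiffBump (0 : ℝ × ℝ) := ⟨R + 1, R + 2, by linarith, by linarith⟩
  have hbd : ContDiff ℝ 1 (fun z => b z) := b.contDiff
  have hbc : HasCompactSupport (fun z => b z) := b.hasCompactSupport
  have hb1 : ∀ z : ℝ × ℝ, ‖z‖ ≤ R + 1 → b z = 1 := by
    intro z hz
    exact b.one_of_mem_closedBall (by simpa [b] using hz)
  obtain ⟨i1, e1⟩ := G.green_compact hN h (f := fun z => b z * f z) (g := fun z => b z * g z)
    (hbd.mul hf) (hbd.mul hg) hbc.mul_right hbc.mul_right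
  have hkey : ∀ z : ℝ × ℝ, wn γ V T z * (fderiv ℝ (fun z => b z * g z) z (1, 0) -
      fderiv ℝ (fun z => b z * f z) z (0, 1)) =
      wn γ V T z * (fderiv ℝ g z (1, 0) - fderiv ℝ f z (0, 1)) := by
    intro z
    rcases lt_or_ge ‖z‖ (R + 1) with hz | hz
    · have hev : ∀ᶠ y in 𝓝 z, b y = 1 := by
        have : {y : ℝ × ℝ | ‖y‖ < R + 1} ∈ 𝓝 z := (isOpen_lt continuous_norm continuous_const).mem_nhds hz
        filter_upwards [this] with y hy
        exact hb1 y (le_of_lt hy)
      have e1 : fderiv ℝ (fun z => b z * g z) z = fderiv ℝ g z := by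
        apply Filter.EventuallyEq.fderiv_eq
        filter_upwards [hev] with y hy
        rw [hy, one_mul]
      have e2 : fderiv ℝ (fun z => b z * f z) z = fderiv ℝ f z := by
        apply Filter.EventuallyEq.fderiv_eq
        filter_upwards [hev] with y hy
        rw [hy, one_mul]
      rw [e1, e2]
    · rw [G.wn_zero h3 h hR (by linarith : R < ‖z‖), zero_mul, zero_mul]
  simp_rw [hkey] at i1 e1
  refine ⟨i1, ?_⟩
  rw [← e1]
  apply intervalIntegral.integral_congr
  intro t _
  simp only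
  rw [hb1 (γ t) (by linarith [hR t]), one_mul, one_mul]

end Pool.Agent.N224.Hil
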