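import Pool.Agent.N224.Hil.Defs0

/-! Project HN: a simple closed curve winds at most once around every point. -/

set_option autoImplicit false

open Real Set MeasureTheory Topology Filter

namespace Pool.Agent.N224.Hil

namespace J

noncomputable section

open Complex (I arg slitPlane)

/-- the data of a simple closed curve in the complex plane and its winding numbers -/
structure Hc (c v : ℝ → ℂ) (T : ℝ) (N : ℂ → ℝ) : Prop where
  pos : 0 < T
  der : ∀ t, HasDerivAt c (v t) t
  cont : Continuous v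
  per : ∀ t, c (t + T) = c t
  ne : ∀ t, v t ≠ 0
  inj : ∀ s t, c s = c t → ∃ k : ℤ, s = t + k * T
  eq : ∀ z, N z = (2 * π)⁻¹ * ∫ t in (0:ℝ)..T, (v t / (c t - z)).im
  int : ∀ z ∉ range c, ∃ k : ℤ, N z = k
  cN : ContinuousOn N (range c)ᶜ
  ext : ∀ z : ℂ, (∀ t, (c t).re < z.re) → N z = 0

variable {c v : ℝ → ℂ} {T : ℝ} {N : ℂ → ℝ}

lemma Hc.cc (h : Hc c v T N) : Continuous c :=
  continuous_iff_continuousAt.2 fun t => (h.der t).continuousAt

lemma Hc.perc (h : Hc c v T N) : Function.Periodic c T := h.per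

lemma Hc.perv (h : Hc c v T N) : Function.Periodic v T := by
  intro t
  have h1 : HasDerivAt (fun s => c (s + T)) (v (t + T)) t := (h.der (t + T)).comp_add_const t T
  have h2 : (fun s => c (s + T)) = c := funext h.per
  rw [h2] at h1
  exact h1.unique (h.der t)

lemma Hc.compact (h : Hc c v T N) : IsCompact (range c) := by
  rw [← h.perc.image_Icc h.pos 0]
  exact isCompact_Icc.image h.cc

/-- the points next to the curve are not on the curve -/
lemma Hc.tube (h : Hc c v T N) (t₀ : ℝ) : ∃ ε > 0, ∀ t s : ℝ, |t - t₀| < ε → s ≠ 0 → |s| < ε →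
    c t + s * (I * v t) ∉ range c := by
  have hA : 0 < ‖v t₀‖ := norm_pos_iff.2 (h.ne t₀)
  have hT := h.pos
  obtain ⟨ρ, hρ, hρv⟩ := Metric.continuousAt_iff.1 (h.cont.continuousAt (x := t₀)) (‖v t₀‖ / 4)
    (by positivity)
  set r := min (ρ / 2) (T / 4) with hr
  have hr0 : 0 < r := lt_min (by positivity) (by positivity)
  have hr1 : r ≤ ρ / 2 := min_le_left _ _
  have hr2 : r ≤ T / 4 := min_le_right _ _
  have hcl : IsClosed (c '' Icc (t₀ + r) (t₀ + T - r)) := (isCompact_Icc.image h.cc).isClosed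
  have hnot : c t₀ ∉ c '' Icc (t₀ + r) (t₀ + T - r) := by
    rintro ⟨t', ht', he⟩
    obtain ⟨k, hk⟩ := h.inj t' t₀ he
    rcases le_or_gt k 0 with hk0 | hk0
    · have h1 : (k : ℝ) ≤ 0 := by exact_mod_cast hk0
      have h2 : (k : ℝ) * T ≤ 0 := mul_nonpos_of_nonpos_of_nonneg h1 hT.le
      linarith [ht'.1]
    · have h1 : (1 : ℝ) ≤ k := by exact_mod_cast hk0
      have h2 : T ≤ (k : ℝ) * T := by nlinarith
      linarith [ht'.2]
  have hct : Continuous (fun p : ℝ × ℝ => c p.1 + p.2 * (I * v p.1)) := by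
    have h1 := h.cc
    have h2 := h.cont
    fun_prop
  have hev : ∀ᶠ p in 𝓝 (t₀, (0:ℝ)), c p.1 + p.2 * (I * v p.1) ∈
      (c '' Icc (t₀ + r) (t₀ + T - r))ᶜ := by
    refine hct.continuousAt.eventually_mem (hcl.isOpen_compl.mem_nhds ?_)
    simpa using hnot
  obtain ⟨ε₁, hε₁, hball⟩ := Metric.eventually_nhds_iff.1 hev
  refine ⟨min ε₁ r, lt_min hε₁ hr0, ?_⟩
  rintro t s ht hs0 hs ⟨t', ht'⟩
  have ht1 : |t - t₀| < ε₁ := ht.trans_le (min_le_left _ _)
  have ht2 : |t - t₀| < r := ht.trans_le (min_le_right _ _)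
  have hs1 : |s| < ε₁ := hs.trans_le (min_le_left _ _)
  obtain ⟨u, hu, hcu⟩ := h.perc.exists_mem_Ico hT t' (t₀ - r)
  rw [hcu] at ht'
  by_cases hur : t₀ + r ≤ u
  · have h1 : dist ((t, s) : ℝ × ℝ) (t₀, 0) < ε₁ := by
      rw [Prod.dist_eq, Real.dist_eq, Real.dist_eq]
      exact max_lt ht1 (by simpa using hs1)
    apply hball h1
    refine ⟨u, ⟨hur, ?_⟩, ht'⟩
    have := hu.2
    linarith
  · push Not at hur
    have hu1 : |u - t₀| ≤ r := abs_le.2 ⟨by linarith [hu.1], by linarith⟩
    have hub : u ∈ Metric.ball t₀ ρ := by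
      rw [Metric.mem_ball, Real.dist_eq]
      linarith
    have htb : t ∈ Metric.ball t₀ ρ := by
      rw [Metric.mem_ball, Real.dist_eq]
      linarith
    have hb : ∀ x ∈ Metric.ball t₀ ρ, ‖v x / v t₀ - 1‖ ≤ 1 / 4 := by
      intro x hx
      have h1 : v x / v t₀ - 1 = (v x - v t₀) / v t₀ := by
        rw [sub_div, div_self (h.ne t₀)]
      rw [h1, norm_div, div_le_iff₀ hA]
      have h2 := hρv (Metric.mem_ball.1 hx)
      rw [dist_eq_norm] at h2
      linarith
    have hd : ∀ x ∈ Metric.ball t₀ ρ, HasDerivWithinAt (fun x => c x / v t₀ - (x : ℂ))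
        (v x / v t₀ - 1) (Metric.ball t₀ ρ) x := fun x _ =>
      (((h.der x).div_const _).sub (Complex.ofRealCLM.hasDerivAt (x := x))).hasDerivWithinAt
    have hmv := (convex_ball t₀ ρ).norm_image_sub_le_of_norm_hasDerivWithin_le hd hb htb hub
    have e2 : ‖(s : ℂ) * (I * (v t / v t₀ - 1))‖ ≤ |s| * (1 / 4) := by
      rw [norm_mul, norm_mul, Complex.norm_I, one_mul, Complex.norm_real, Real.norm_eq_abs]
      exact mul_le_mul_of_nonneg_left (hb t htb) (abs_nonneg _)
    have e3 : ((u : ℂ) - t) - s * I = (s : ℂ) * (I * (v t / v t₀ - 1)) -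
        ((c u / v t₀ - (u : ℂ)) - (c t / v t₀ - (t : ℂ))) := by
      rw [ht']
      field_simp
      ring
    have e4 : ‖((u : ℂ) - t) - s * I‖ ≤ |s| * (1 / 4) + 1 / 4 * |u - t| := by
      rw [e3]
      refine (norm_sub_le _ _).trans (add_le_add e2 ?_)
      simpa [Real.norm_eq_abs] using hmv
    have e5 : |u - t| ≤ ‖((u : ℂ) - t) - s * I‖ := by
      have := Complex.abs_re_le_norm (((u : ℂ) - t) - s * I)
      simpa using this
    have e6 : |s| ≤ ‖((u : ℂ) - t) - s * I‖ := by
      have := Complex.abs_im_le_norm (((u : ℂ) - t) - s * I)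
      simpa using this
    have e7 : 0 < |s| := abs_pos.2 hs0
    have e8 := abs_nonneg (u - t)
    linarith

/-- the winding number is constant along connected sets off the curve -/
lemma Hc.const_on (h : Hc c v T N) {X : Type*} [TopologicalSpace X] {S : Set X}
    (hS : IsPreconnected S) {f : X → ℂ} (hf : ContinuousOn f S) (hfS : ∀ x ∈ S, f x ∉ range c)
    {x y : X} (hx : x ∈ S) (hy : y ∈ S) : N (f x) = N (f y) := by
  have hc : ContinuousOn (fun x => N (f x)) S := h.cN.comp hf hfS
  have hd : IsDiscrete (range ((↑) : ℤ → ℝ)) :=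
    Int.isClosedEmbedding_coe_real.isInducing.isDiscrete_range
  refine hS.constant_of_mapsTo hd hc (fun x hx => ?_) hx hy
  obtain ⟨k, hk⟩ := h.int _ (hfS x hx)
  exact ⟨k, hk.symm⟩

lemma Hc.sides (h : Hc c v T N) (t₀ : ℝ) : ∃ (kp km ε : ℝ), 0 < ε ∧ ∀ t s : ℝ, |t - t₀| < ε →
    (0 < s → s < ε → N (c t + s * (I * v t)) = kp) ∧
    (-ε < s → s < 0 → N (c t + s * (I * v t)) = km) := by
  obtain ⟨ε, hε, htube⟩ := h.tube t₀
  have hct : Continuous (fun p : ℝ × ℝ => c p.1 + p.2 * (I * v p.1)) := by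
    have h1 := h.cc
    have h2 := h.cont
    fun_prop
  refine ⟨N (c t₀ + (ε / 2 : ℝ) * (I * v t₀)), N (c t₀ + (-(ε / 2) : ℝ) * (I * v t₀)), ε, hε, ?_⟩
  intro t s ht
  have ht' := abs_lt.1 ht
  constructor
  · intro hs1 hs2
    refine h.const_on (S := Ioo (t₀ - ε) (t₀ + ε) ×ˢ Ioo 0 ε)
      (isPreconnected_Ioo.prod isPreconnected_Ioo)
      (f := fun p : ℝ × ℝ => c p.1 + p.2 * (I * v p.1)) hct.continuousOn ?_
      (x := (t, s)) (y := (t₀, ε / 2)) ?_ ?_
    · rintro ⟨x, y⟩ ⟨hx, hy⟩
      refine htube x y (abs_lt.2 ⟨by linarith [hx.1], by linarith [hx.2]⟩) hy.1.ne' ?_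
      rw [abs_of_pos hy.1]
      exact hy.2
    · exact ⟨⟨by linarith, by linarith⟩, hs1, hs2⟩
    · exact ⟨⟨by linarith, by linarith⟩, by simp only; linarith, by simp only; linarith⟩
  · intro hs1 hs2
    refine h.const_on (S := Ioo (t₀ - ε) (t₀ + ε) ×ˢ Ioo (-ε) 0)
      (isPreconnected_Ioo.prod isPreconnected_Ioo)
      (f := fun p : ℝ × ℝ => c p.1 + p.2 * (I * v p.1)) hct.continuousOn ?_
      (x := (t, s)) (y := (t₀, -(ε / 2))) ?_ ?_
    · rintro ⟨x, y⟩ ⟨hx, hy⟩
      refine htube x y (abs_lt.2 ⟨by linarith [hx.1], by linarith [hx.2]⟩) hy.2.ne ?_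
      rw [abs_of_neg hy.2]
      linarith [hy.1]
    · exact ⟨⟨by linarith, by linarith⟩, hs1, hs2⟩
    · exact ⟨⟨by linarith, by linarith⟩, by simp only; linarith, by simp only; linarith⟩

lemma Hc.global (h : Hc c v T N) : ∃ (kp km : ℝ), ∀ t : ℝ, ∃ ε > 0, ∀ s : ℝ,
    (0 < s → s < ε → N (c t + s * (I * v t)) = kp) ∧
    (-ε < s → s < 0 → N (c t + s * (I * v t)) = km) := by
  choose kp km ε hε hs using h.sides
  have hkp : IsLocallyConstant kp := by
    rw [IsLocallyConstant.iff_eventually_eq]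
    intro t₀
    rw [Metric.eventually_nhds_iff]
    refine ⟨ε t₀, hε t₀, fun t ht => ?_⟩
    rw [Real.dist_eq] at ht
    have h1 := hε t
    have h2 := hε t₀
    set s := min (ε t) (ε t₀) / 2 with hsd
    have hs0 : 0 < s := by
      have := lt_min h1 h2
      positivity
    have hs1 : s < ε t := by
      have := min_le_left (ε t) (ε t₀)
      linarith
    have hs2 : s < ε t₀ := by
      have := min_le_right (ε t) (ε t₀)
      linarith
    have e1 := (hs t₀ t s ht).1 hs0 hs2
    have e2 := (hs t t s (by simpa using h1)).1 hs0 hs1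
    rw [← e1, ← e2]
  have hkm : IsLocallyConstant km := by
    rw [IsLocallyConstant.iff_eventually_eq]
    intro t₀
    rw [Metric.eventually_nhds_iff]
    refine ⟨ε t₀, hε t₀, fun t ht => ?_⟩
    rw [Real.dist_eq] at ht
    have h1 := hε t
    have h2 := hε t₀
    set s := min (ε t) (ε t₀) / 2 with hsd
    have hs0 : 0 < s := by
      have := lt_min h1 h2
      positivity
    have hs1 : s < ε t := by
      have := min_le_left (ε t) (ε t₀)
      linarith
    have hs2 : s < ε t₀ := by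
      have := min_le_right (ε t) (ε t₀)
      linarith
    have e1 := (hs t₀ t (-s) ht).2 (by linarith) (by linarith)
    have e2 := (hs t t (-s) (by simpa using h1)).2 (by linarith) (by linarith)
    rw [← e1, ← e2]
  refine ⟨kp 0, km 0, fun t => ⟨ε t, hε t, fun s => ?_⟩⟩
  rw [hkp.apply_eq_of_preconnectedSpace 0 t, hkm.apply_eq_of_preconnectedSpace 0 t]
  exact hs t t s (by simpa using hε t)

/-- every point off the curve is on a normal segment -/
lemma Hc.near (h : Hc c v T N) {z : ℂ} (hz : z ∉ range c) : ∃ t s : ℝ, s ≠ 0 ∧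
    z = c t + s * (I * v t) ∧ ∀ τ : ℝ, 0 < τ → τ ≤ 1 → c t + τ * (s * (I * v t)) ∉ range c := by
  obtain ⟨p, ⟨t, rfl⟩, hp⟩ := h.compact.exists_infDist_eq_dist (range_nonempty c) z
  have hmin : ∀ x, dist z (c t) ≤ dist z (c x) := fun x => by
    rw [← hp]
    exact Metric.infDist_le_dist_of_mem (mem_range_self x)
  have hd0 : 0 < dist z (c t) := by
    rw [dist_pos]
    rintro rfl
    exact hz (mem_range_self t)
  have hre : ∀ x, HasDerivAt (fun x => (c x - z).re) (v x).re x := fun x => by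
    have h1 := (Complex.reCLM.hasFDerivAt.comp_hasDerivAt x ((h.der x).sub_const z))
    exact h1
  have him : ∀ x, HasDerivAt (fun x => (c x - z).im) (v x).im x := fun x => by
    have h1 := (Complex.imCLM.hasFDerivAt.comp_hasDerivAt x ((h.der x).sub_const z))
    exact h1
  have hg : HasDerivAt (fun x => (c x - z).re * (c x - z).re + (c x - z).im * (c x - z).im)
      (((v t).re * (c t - z).re + (c t - z).re * (v t).re) +
        ((v t).im * (c t - z).im + (c t - z).im * (v t).im)) t :=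
    ((hre t).mul (hre t)).add ((him t).mul (him t))
  have hlm : IsLocalMin (fun x => (c x - z).re * (c x - z).re + (c x - z).im * (c x - z).im) t := by
    refine Filter.Eventually.of_forall fun x => ?_
    have h1 := hmin x
    rw [dist_comm z, dist_comm z, dist_eq_norm, dist_eq_norm] at h1
    have h2 : ‖c t - z‖ ^ 2 ≤ ‖c x - z‖ ^ 2 := pow_le_pow_left₀ (norm_nonneg _) h1 2
    rw [← Complex.normSq_eq_norm_sq, ← Complex.normSq_eq_norm_sq, Complex.normSq_apply,
      Complex.normSq_apply] at h2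
    exact h2
  have h0 := hlm.hasDerivAt_eq_zero hg
  have hIv : I * v t ≠ 0 := mul_ne_zero Complex.I_ne_zero (h.ne t)
  have him0 : ((z - c t) / (I * v t)).im = 0 := by
    rw [Complex.div_im]
    have e1 : (I * v t).re = -(v t).im := by simp
    have e2 : (I * v t).im = (v t).re := by simp
    rw [e1, e2, ← sub_div]
    have e3 : (z - c t).im * -(v t).im - (z - c t).re * (v t).re = 0 := by
      have e4 : (z - c t).im = -(c t - z).im := by simp
      have e5 : (z - c t).re = -(c t - z).re := by simp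
      rw [e4, e5]
      linarith
    rw [e3, zero_div]
  set s : ℝ := ((z - c t) / (I * v t)).re with hs
  have hsz : z - c t = s * (I * v t) := by
    have e1 : ((z - c t) / (I * v t)) = (s : ℂ) := by
      apply Complex.ext
      · simp [hs]
      · simpa using him0
    rw [← e1, div_mul_cancel₀ _ hIv]
  refine ⟨t, s, ?_, ?_, ?_⟩
  · rintro h1
    rw [h1, Complex.ofReal_zero, zero_mul, sub_eq_zero] at hsz
    exact hz (hsz ▸ mem_range_self t)
  · rw [← hsz]
    ring
  · rintro τ hτ0 hτ1 ⟨x, hx⟩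
    rw [← hsz] at hx
    have h1 := hmin x
    rw [hx, dist_eq_norm, dist_eq_norm] at h1
    have h2 : z - (c t + τ * (z - c t)) = ((1 - τ : ℝ) : ℂ) * (z - c t) := by
      push_cast
      ring
    rw [dist_eq_norm] at hd0
    rw [h2, norm_mul, Complex.norm_real, Real.norm_of_nonneg (by linarith)] at h1
    nlinarith

lemma Hc.values (h : Hc c v T N) {kp km : ℝ} (hk : ∀ t : ℝ, ∃ ε > 0, ∀ s : ℝ,
    (0 < s → s < ε → N (c t + s * (I * v t)) = kp) ∧
    (-ε < s → s < 0 → N (c t + s * (I * v t)) = km)) {z : ℂ} (hz : z ∉ range c) :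
    N z = kp ∨ N z = km := by
  obtain ⟨t, s, hs0, hzs, hτ⟩ := h.near hz
  obtain ⟨ε, hε, hkε⟩ := hk t
  have hsp : 0 < |s| := abs_pos.2 hs0
  obtain ⟨τ, hτ0, hτ1, hτs⟩ : ∃ τ : ℝ, 0 < τ ∧ τ ≤ 1 ∧ τ * |s| < ε := by
    refine ⟨min 1 (ε / (2 * |s|)), lt_min one_pos (by positivity), min_le_left _ _, ?_⟩
    calc min 1 (ε / (2 * |s|)) * |s| ≤ ε / (2 * |s|) * |s| :=
          mul_le_mul_of_nonneg_right (min_le_right _ _) (abs_nonneg _)
      _ = ε / 2 := by field_simp
      _ < ε := by linarith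
  have hconst : N (c t + (1 : ℝ) * (s * (I * v t))) = N (c t + τ * (s * (I * v t))) := by
    refine h.const_on (S := Ioc (0:ℝ) 1) isPreconnected_Ioc
      (f := fun τ : ℝ => c t + τ * (s * (I * v t))) ?_ ?_ (x := 1) (y := τ) ?_ ?_
    · fun_prop
    · exact fun x hx => hτ x hx.1 hx.2
    · exact ⟨one_pos, le_rfl⟩
    · exact ⟨hτ0, hτ1⟩
  have e1 : c t + (1 : ℝ) * (s * (I * v t)) = z := by
    rw [hzs]
    push_cast
    ring
  have e2 : c t + τ * (s * (I * v t)) = c t + ((τ * s : ℝ) : ℂ) * (I * v t) := by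
    push_cast
    ring
  rw [e1, e2] at hconst
  rw [hconst]
  rcases lt_or_gt_of_ne hs0 with hs | hs
  · right
    rw [abs_of_neg hs] at hτs
    exact (hkε (τ * s)).2 (by linarith) (mul_neg_of_pos_of_neg hτ0 hs)
  · left
    rw [abs_of_pos hs] at hτs
    exact (hkε (τ * s)).1 (mul_pos hτ0 hs) hτs

/-- the change of the argument -/
lemma Hc.ftc (h : Hc c v T N) {κ z : ℂ} {α β : ℝ} (hαβ : α ≤ β)
    (hs : ∀ t ∈ Icc α β, κ * (c t - z) ∈ slitPlane) :
    ∫ t in α..β, (v t / (c t - z)).im = arg (κ * (c β - z)) - arg (κ * (c α - z)) := by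
  have hκ : ∀ t ∈ Icc α β, κ * (c t - z) ≠ 0 := fun t ht => Complex.slitPlane_ne_zero (hs t ht)
  have hd : ∀ t ∈ uIcc α β, HasDerivAt (fun t => arg (κ * (c t - z))) (v t / (c t - z)).im t := by
    intro t ht
    rw [uIcc_of_le hαβ] at ht
    have h1 : HasDerivAt (fun t => κ * (c t - z)) (κ * v t) t :=
      ((h.der t).sub_const z).const_mul κ
    have h2 := h1.clog_real (hs t ht)
    have h3 := Complex.imCLM.hasFDerivAt.comp_hasDerivAt t h2
    have hκ0 : κ ≠ 0 := left_ne_zero_of_mul (hκ t ht)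
    rw [mul_div_mul_left _ _ hκ0] at h3
    have e1 : (fun t => arg (κ * (c t - z))) =
        (Complex.imCLM : ℂ → ℝ) ∘ fun t => Complex.log (κ * (c t - z)) := by
      funext t
      simp [Complex.log_im]
    rw [e1]
    exact h3
  rw [intervalIntegral.integral_eq_sub_of_hasDerivAt hd]
  apply ContinuousOn.intervalIntegrable
  rw [uIcc_of_le hαβ]
  have h1 : ContinuousOn (fun t => v t / (c t - z)) (Icc α β) :=
    h.cont.continuousOn.div (h.cc.continuousOn.sub continuousOn_const)
      fun t ht => right_ne_zero_of_mul (hκ t ht)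
  exact Complex.continuous_im.comp_continuousOn h1

/-- the integral over the part of the curve away from the point is continuous -/
lemma Hc.away (h : Hc c v T N) {δ ε : ℝ} (hδ : 0 < δ) (hδT : δ < T / 2) (hε : 0 < ε)
    (htube : ∀ s : ℝ, s ≠ 0 → |s| < ε → c 0 + s * (I * v 0) ∉ range c) :
    ∃ A : ℝ → ℝ, Continuous A ∧ ∀ s : ℝ, |s| < ε / 2 →
      A s = ∫ t in δ..(T - δ), (v t / (c t - (c 0 + s * (I * v 0)))).im := by
  have hT := h.pos
  have hle : δ ≤ T - δ := by linarith
  set cl : ℝ → ℝ := fun t => max δ (min (T - δ) t) with hcl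
  set cs : ℝ → ℝ := fun s => max (-(ε / 2)) (min (ε / 2) s) with hcs
  have hclc : Continuous cl := continuous_const.max (continuous_const.min continuous_id)
  have hcsc : Continuous cs := continuous_const.max (continuous_const.min continuous_id)
  have hclm : ∀ t, cl t ∈ Icc δ (T - δ) := fun t =>
    ⟨le_max_left _ _, max_le hle (min_le_left _ _)⟩
  have hcsm : ∀ s, |cs s| < ε := fun s => by
    have h1 : -(ε / 2) ≤ cs s := le_max_left _ _
    have h2 : cs s ≤ ε / 2 := max_le (by linarith) (min_le_left _ _)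
    rw [abs_lt]
    constructor <;> linarith
  have hne : ∀ s t : ℝ, c (cl t) - (c 0 + (cs s : ℂ) * (I * v 0)) ≠ 0 := by
    intro s t h0
    rw [sub_eq_zero] at h0
    by_cases hs : cs s = 0
    · rw [hs, Complex.ofReal_zero, zero_mul, add_zero] at h0
      obtain ⟨k, hk⟩ := h.inj _ _ h0
      have h1 := hclm t
      rw [hk, zero_add] at h1
      rcases le_or_gt k 0 with hk0 | hk0
      · have h2 : (k : ℝ) ≤ 0 := by exact_mod_cast hk0
        have h3 : (k : ℝ) * T ≤ 0 := mul_nonpos_of_nonpos_of_nonneg h2 hT.le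
        linarith [h1.1]
      · have h2 : (1 : ℝ) ≤ k := by exact_mod_cast hk0
        have h3 : T ≤ (k : ℝ) * T := by nlinarith
        linarith [h1.2]
    · exact htube _ hs (hcsm s) ⟨_, h0⟩
  have hG : Continuous (Function.uncurry fun s t : ℝ =>
      (v (cl t) / (c (cl t) - (c 0 + (cs s : ℂ) * (I * v 0)))).im) := by
    refine Complex.continuous_im.comp (Continuous.div ?_ ?_ fun p => hne p.1 p.2)
    · exact h.cont.comp (hclc.comp continuous_snd)
    · refine (h.cc.comp (hclc.comp continuous_snd)).sub (continuous_const.add ?_)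
      exact (Complex.continuous_ofReal.comp (hcsc.comp continuous_fst)).mul continuous_const
  refine ⟨fun s => ∫ t in δ..(T - δ),
    (v (cl t) / (c (cl t) - (c 0 + (cs s : ℂ) * (I * v 0)))).im,
    intervalIntegral.continuous_parametric_intervalIntegral_of_continuous' hG _ _, ?_⟩
  intro s hs
  have hs' := abs_lt.1 hs
  have e1 : cs s = s := by
    rw [hcs]
    show max (-(ε / 2)) (min (ε / 2) s) = s
    rw [min_eq_right hs'.2.le, max_eq_right hs'.1.le]
  refine intervalIntegral.integral_congr fun t ht => ?_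
  rw [uIcc_of_le hle] at ht
  have e2 : cl t = t := by
    rw [hcl]
    show max δ (min (T - δ) t) = t
    rw [min_eq_right ht.2, max_eq_right ht.1]
  show (v (cl t) / (c (cl t) - (c 0 + (cs s : ℂ) * (I * v 0)))).im = _
  rw [e1, e2]

/-- splitting of the winding number -/
lemma Hc.split (h : Hc c v T N) {δ : ℝ} {z : ℂ} (hz : z ∉ range c) :
    2 * π * N z = (∫ t in (-δ)..δ, (v t / (c t - z)).im) +
      ∫ t in δ..(T - δ), (v t / (c t - z)).im := by
  have hne : ∀ t, c t - z ≠ 0 := fun t h0 => hz ⟨t, sub_eq_zero.1 h0⟩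
  have hcont : Continuous (fun t => (v t / (c t - z)).im) :=
    Complex.continuous_im.comp (h.cont.div (h.cc.sub continuous_const) hne)
  have hp : Function.Periodic (fun t => (v t / (c t - z)).im) T := fun t => by
    show (v (t + T) / (c (t + T) - z)).im = _
    rw [h.perv t, h.perc t]
  have h1 := hp.intervalIntegral_add_eq 0 (-δ)
  rw [zero_add] at h1
  have e : -δ + T = T - δ := by ring
  rw [e] at h1
  rw [h.eq z, h1, intervalIntegral.integral_add_adjacent_intervals
    (hcont.intervalIntegrable _ _) (hcont.intervalIntegrable _ _)]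
  field_simp

/-- **the jump** -/
lemma Hc.jump (h : Hc c v T N) {kp km ε : ℝ} (hε : 0 < ε) (hk : ∀ s : ℝ,
    (0 < s → s < ε → N (c 0 + s * (I * v 0)) = kp) ∧
    (-ε < s → s < 0 → N (c 0 + s * (I * v 0)) = km)) : kp = km + 1 := by
  have hT := h.pos
  have hv0 := h.ne 0
  obtain ⟨ε', hε', htube'⟩ := h.tube 0
  have htube : ∀ s : ℝ, s ≠ 0 → |s| < ε' → c 0 + s * (I * v 0) ∉ range c := fun s hs0 hs =>
    htube' 0 s (by simpa using hε') hs0 hs
  -- the choice of `δ`
  have hcr : Continuous (fun t => (v t / v 0).re) :=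
    Complex.continuous_re.comp (h.cont.div_const _)
  have hev : ∀ᶠ t in 𝓝 (0:ℝ), 0 < (v t / v 0).re := by
    have h1 : 0 < (v 0 / v 0).re := by
      rw [div_self hv0]
      exact one_pos
    exact hcr.continuousAt.eventually (lt_mem_nhds h1)
  obtain ⟨ρ, hρ, hρv⟩ := Metric.eventually_nhds_iff.1 hev
  set δ := min (ρ / 2) (T / 4) with hδd
  have hδ0 : 0 < δ := lt_min (by positivity) (by positivity)
  have hδ1 : δ ≤ ρ / 2 := min_le_left _ _
  have hδ2 : δ < T / 2 := (min_le_right _ _).trans_lt (by linarith)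
  obtain ⟨A, hAc, hA⟩ := h.away hδ0 hδ2 hε' htube
  -- monotonicity
  set hh : ℝ → ℝ := fun t => ((c t - c 0) / v 0).re with hhh
  have hhd : ∀ t, HasDerivAt hh (v t / v 0).re t := fun t =>
    Complex.reCLM.hasFDerivAt.comp_hasDerivAt t (((h.der t).sub_const (c 0)).div_const (v 0))
  have hmono : StrictMonoOn hh (Icc (-δ) δ) := by
    refine strictMonoOn_of_deriv_pos (convex_Icc _ _)
      (fun t _ => (hhd t).continuousAt.continuousWithinAt) fun t ht => ?_
    rw [(hhd t).deriv]
    apply hρv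
    rw [interior_Icc] at ht
    rw [Real.dist_eq, sub_zero, abs_lt]
    constructor <;> linarith [ht.1, ht.2]
  have hh0 : hh 0 = 0 := by
    rw [hhh]
    simp
  have hm0 : (0:ℝ) ∈ Icc (-δ) δ := ⟨by linarith, by linarith⟩
  have hhp : ∀ t ∈ Icc (-δ) δ, 0 < t → 0 < hh t := fun t ht ht0 => by
    rw [← hh0]
    exact hmono hm0 ht ht0
  have hhn : ∀ t ∈ Icc (-δ) δ, t < 0 → hh t < 0 := fun t ht ht0 => by
    rw [← hh0]
    exact hmono ht hm0 ht0
  set κ : ℂ := I / v 0 with hκ
  have hκz : ∀ (t s : ℝ), κ * (c t - (c 0 + s * (I * v 0))) = I * ((c t - c 0) / v 0) + s := by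
    intro t s
    rw [hκ]
    field_simp
    ring_nf
    rw [Complex.I_sq]
    ring
  have him : ∀ (t s : ℝ), (κ * (c t - (c 0 + s * (I * v 0)))).im = hh t := by
    intro t s
    rw [hκz]
    simp [hhh]
  have hre0 : ∀ s : ℝ, (κ * (c 0 - (c 0 + s * (I * v 0)))).re = s := by
    intro s
    rw [hκz, sub_self, zero_div, mul_zero, zero_add, Complex.ofReal_re]
  have hδm : δ ∈ Icc (-δ) δ := ⟨by linarith, le_rfl⟩
  have hδm' : -δ ∈ Icc (-δ) δ := ⟨le_rfl, by linarith⟩
  set E : ℝ → ℝ := fun s => arg (κ * (c δ - (c 0 + s * (I * v 0)))) -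
    arg (κ * (c (-δ) - (c 0 + s * (I * v 0)))) with hE
  have hEc : ContinuousAt E 0 := by
    have hlin : ∀ t : ℝ, Continuous (fun s : ℝ => κ * (c t - (c 0 + s * (I * v 0)))) := fun t => by
      fun_prop
    have h1 : ∀ t : ℝ, hh t ≠ 0 →
        ContinuousAt (fun s : ℝ => arg (κ * (c t - (c 0 + s * (I * v 0))))) 0 := by
      intro t ht
      refine ContinuousAt.comp (g := arg) (Complex.continuousAt_arg ?_) (hlin t).continuousAt
      rw [Complex.mem_slitPlane_iff]
      right
      rw [him]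
      exact ht
    exact (h1 δ (hhp δ hδm hδ0).ne').sub (h1 (-δ) (hhn (-δ) hδm' (by linarith)).ne)
  have hM : ContinuousAt (fun s => E s + A s) 0 := hEc.add hAc.continuousAt
  set η := min ε (ε' / 2) with hη
  have hη0 : 0 < η := lt_min hε (by positivity)
  have hη1 : η ≤ ε := min_le_left _ _
  have hη2 : η ≤ ε' / 2 := min_le_right _ _
  have hpos : ∀ s : ℝ, 0 < s → s < η → E s + A s = 2 * π * kp := by
    intro s hs0 hs
    have habs : |s| = s := abs_of_pos hs0
    have hzn := htube s hs0.ne' (by rw [habs]; linarith)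
    have h1 : 2 * π * kp = (∫ t in (-δ)..δ, (v t / (c t - (c 0 + s * (I * v 0)))).im) + A s := by
      rw [← (hk s).1 hs0 (by linarith), h.split (δ := δ) hzn, hA s (by rw [habs]; linarith)]
    rw [h.ftc (κ := κ) (by linarith)] at h1
    · exact h1.symm
    · intro t ht
      rw [Complex.mem_slitPlane_iff]
      rcases eq_or_ne t 0 with rfl | ht0
      · left
        rw [hre0]
        exact hs0
      · right
        rw [him]
        rcases lt_or_gt_of_ne ht0 with h1 | h1
        · exact (hhn t ht h1).ne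
        · exact (hhp t ht h1).ne'
  have hneg : ∀ s : ℝ, -η < s → s < 0 → E s + A s = 2 * π * (km + 1) := by
    intro s hs hs0
    have habs : |s| = -s := abs_of_neg hs0
    have hzn := htube s hs0.ne (by rw [habs]; linarith)
    have h1 : 2 * π * km = (∫ t in (-δ)..δ, (v t / (c t - (c 0 + s * (I * v 0)))).im) + A s := by
      rw [← (hk s).2 (by linarith) hs0, h.split (δ := δ) hzn, hA s (by rw [habs]; linarith)]
    rw [h.ftc (κ := -κ) (by linarith)] at h1
    · have e1 : arg (-κ * (c δ - (c 0 + s * (I * v 0)))) =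
          arg (κ * (c δ - (c 0 + s * (I * v 0)))) - π := by
        rw [neg_mul]
        apply Complex.arg_neg_eq_arg_sub_pi_of_im_pos
        rw [him]
        exact hhp δ hδm hδ0
      have e2 : arg (-κ * (c (-δ) - (c 0 + s * (I * v 0)))) =
          arg (κ * (c (-δ) - (c 0 + s * (I * v 0)))) + π := by
        rw [neg_mul]
        apply Complex.arg_neg_eq_arg_add_pi_of_im_neg
        rw [him]
        exact hhn (-δ) hδm' (by linarith)
      rw [e1, e2] at h1
      rw [hE]
      simp only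
      linarith
    · intro t ht
      rw [neg_mul, Complex.mem_slitPlane_iff]
      rcases eq_or_ne t 0 with rfl | ht0
      · left
        rw [Complex.neg_re, hre0]
        linarith
      · right
        rw [Complex.neg_im, him, neg_ne_zero]
        rcases lt_or_gt_of_ne ht0 with h1 | h1
        · exact (hhn t ht h1).ne
        · exact (hhp t ht h1).ne'
  have hl1 : Tendsto (fun s => E s + A s) (𝓝[>] 0) (𝓝 (2 * π * kp)) := by
    refine tendsto_const_nhds.congr' ?_
    filter_upwards [Ioo_mem_nhdsGT hη0] with s hs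
    exact (hpos s hs.1 hs.2).symm
  have hl2 : Tendsto (fun s => E s + A s) (𝓝[<] 0) (𝓝 (2 * π * (km + 1))) := by
    refine tendsto_const_nhds.congr' ?_
    filter_upwards [Ioo_mem_nhdsLT (neg_neg_of_pos hη0)] with s hs
    exact (hneg s hs.1 hs.2).symm
  have h1 := tendsto_nhds_unique hl1 (hM.tendsto.mono_left nhdsWithin_le_nhds)
  have h2 := tendsto_nhds_unique hl2 (hM.tendsto.mono_left nhdsWithin_le_nhds)
  have h3 : 2 * π * kp = 2 * π * (km + 1) := h1.trans h2.symm
  exact mul_left_cancel₀ (by positivity) h3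

/-- one side of the curve is outside -/
lemma Hc.outer (h : Hc c v T N) {kp km : ℝ} (hk : ∀ t : ℝ, ∃ ε > 0, ∀ s : ℝ,
    (0 < s → s < ε → N (c t + s * (I * v t)) = kp) ∧
    (-ε < s → s < 0 → N (c t + s * (I * v t)) = km)) : kp = 0 ∨ km = 0 := by
  have hre : Continuous (fun t => (c t).re) := Complex.continuous_re.comp h.cc
  obtain ⟨t, ht, hmax⟩ := (isCompact_Icc (a := (0:ℝ)) (b := 0 + T)).exists_isMaxOn
    ⟨0, by simpa using h.pos.le⟩ hre.continuousOn
  have hmax' : ∀ x, (c x).re ≤ (c t).re := by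
    intro x
    obtain ⟨y, hy, hxy⟩ := h.perc.exists_mem_Ico h.pos x 0
    rw [hxy]
    exact hmax ⟨hy.1, hy.2.le⟩
  have hd : HasDerivAt (fun t => (c t).re) (v t).re t :=
    Complex.reCLM.hasFDerivAt.comp_hasDerivAt t (h.der t)
  have hlm : IsLocalMax (fun t => (c t).re) t := Filter.Eventually.of_forall hmax'
  have h0 := hlm.hasDerivAt_eq_zero hd
  have him : (v t).im ≠ 0 := fun h1 => h.ne t (Complex.ext h0 h1)
  obtain ⟨ε, hε, hkε⟩ := hk t
  have hz : ∀ s : ℝ, s * (v t).im < 0 → N (c t + s * (I * v t)) = 0 := by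
    intro s hs
    apply h.ext
    intro x
    have h1 : (c t + s * (I * v t)).re = (c t).re - s * (v t).im := by
      simp
      ring
    rw [h1]
    linarith [hmax' x]
  rcases lt_or_gt_of_ne him with h1 | h1
  · left
    rw [← (hkε (ε / 2)).1 (by linarith) (by linarith)]
    exact hz _ (mul_neg_of_pos_of_neg (by linarith) h1)
  · right
    rw [← (hkε (-(ε / 2))).2 (by linarith) (by linarith)]
    exact hz _ (mul_neg_of_neg_of_pos (by linarith) h1)

theorem Hc.main (h : Hc c v T N) : ∃ ε : ℝ, (ε = 1 ∨ ε = -1) ∧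
    (∀ z ∉ range c, N z = 0 ∨ N z = ε) ∧ ∃ z ∉ range c, N z = ε := by
  obtain ⟨kp, km, hk⟩ := h.global
  have hval := fun (z : ℂ) (hz : z ∉ range c) => h.values hk hz
  have hout := h.outer hk
  obtain ⟨ε₀, hε₀, hk0⟩ := hk 0
  have hjump := h.jump hε₀ hk0
  obtain ⟨ε₁, hε₁, htube⟩ := h.tube 0
  set s := min ε₀ ε₁ / 2 with hs
  have hs0 : 0 < s := by
    have := lt_min hε₀ hε₁
    positivity
  have hs1 : s < ε₀ := by
    have := min_le_left ε₀ ε₁
    linarith
  have hs2 : s < ε₁ := by
    have := min_le_right ε₀ ε₁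
    linarith
  rcases hout with h0 | h0
  · have hkm : km = -1 := by linarith
    refine ⟨-1, Or.inr rfl, fun z hz => ?_, c 0 + ((-s : ℝ) : ℂ) * (I * v 0), ?_, ?_⟩
    · rcases hval z hz with h1 | h1
      · exact Or.inl (h1.trans h0)
      · exact Or.inr (h1.trans hkm)
    · exact htube 0 (-s) (by simpa using hε₁) (by linarith [hs0] : (-s) < 0).ne
        (by rw [abs_neg, abs_of_pos hs0]; exact hs2)
    · rw [(hk0 (-s)).2 (by linarith) (by linarith), hkm]
  · have hkp : kp = 1 := by linarith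
    refine ⟨1, Or.inl rfl, fun z hz => ?_, c 0 + (s : ℂ) * (I * v 0), ?_, ?_⟩
    · rcases hval z hz with h1 | h1
      · exact Or.inr (h1.trans hkp)
      · exact Or.inl (h1.trans h0)
    · exact htube 0 s (by simpa using hε₁) hs0.ne' (by rw [abs_of_pos hs0]; exact hs2)
    · rw [(hk0 s).1 hs0 hs1, hkp]

end

end J

open J

theorem j (h1 : S_W1) (h2 : S_W2) (h3 : S_W3) : S_J := by
  intro γ V T hL hV hinj
  set e : (ℝ × ℝ) ≃L[ℝ] ℂ := Complex.equivRealProdCLM.symm with he
  have er : ∀ p : ℝ × ℝ, (e p).re = p.1 := fun p => rfl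
  have ei : ∀ p : ℝ × ℝ, (e p).im = p.2 := fun p => rfl
  have hrange : ∀ z : ℂ, z ∉ range (fun t => e (γ t)) ↔ (z.re, z.im) ∉ range γ := by
    intro z
    rw [not_iff_not]
    constructor
    · rintro ⟨t, rfl⟩
      exact ⟨t, rfl⟩
    · rintro ⟨t, ht⟩
      refine ⟨t, ?_⟩
      show e (γ t) = z
      rw [ht]
      apply Complex.ext <;> rfl
  have hc : Hc (fun t => e (γ t)) (fun t => e (V t)) T (fun z => wn γ V T (z.re, z.im)) := by
    refine ⟨hL.pos, fun t => ?_, e.continuous.comp hL.cont, fun t => ?_, fun t => ?_,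
      fun s t hst => ?_, fun z => ?_, fun z hz => ?_, ?_, fun z hz => ?_⟩
    · exact e.toContinuousLinearMap.hasFDerivAt.comp_hasDerivAt t (hL.der t)
    · show e (γ (t + T)) = e (γ t)
      rw [hL.per t]
    · show e (V t) ≠ 0
      rw [Ne, map_eq_zero_iff e e.injective]
      exact hV t
    · exact hinj s t (e.injective hst)
    · show wn γ V T (z.re, z.im) = _
      unfold wn
      congr 1
      refine intervalIntegral.integral_congr fun t _ => ?_
      show H709R2.wedge (γ t - (z.re, z.im)) (V t) / H709R2.sq (γ t - (z.re, z.im)) =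
        (e (V t) / (e (γ t) - z)).im
      rw [Complex.div_im, Complex.normSq_apply, Complex.sub_re, Complex.sub_im, er, ei, er, ei,
        ← sub_div]
      unfold H709R2.wedge H709R2.sq
      simp only [Prod.fst_sub, Prod.snd_sub]
      congr 1
      · ring
      · ring
    · exact h1 γ V T hL _ ((hrange z).1 hz)
    · refine (h2 γ V T hL).comp (Continuous.continuousOn ?_) fun z hz => (hrange z).1 hz
      exact Complex.continuous_re.prodMk Complex.continuous_im
    · refine h3 γ V T hL _ (-1, 0) fun t => ?_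
      have h4 := hz t
      simp only [er] at h4
      simp only
      linarith
  obtain ⟨ε, hε, hall, z, hz, hzε⟩ := hc.main
  refine ⟨ε, hε, fun w hw => ?_, (z.re, z.im), (hrange z).1 hz, hzε⟩
  have h4 := hall (e w) ((hrange (e w)).2 hw)
  exact h4

end Pool.Agent.N224.Hil
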