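import Pool.Agent.N224.Hil.LB2
import Pool.Agent.W960.HP.Fam

/-! Project HN, part LB: the lower bound. -/

open Real Set MeasureTheory Topology Filter
open scoped ENNReal

namespace Pool.Agent.N224.Hil

noncomputable section

open Pool.Agent.H709R2 (rot wedge field ClosedOrbit)
open Pool.Agent.H709U (rf Orb)

namespace LB

/-- the radius of the oval which is an orbit of the field rotated by the angle `a` -/
def rad (a : ℝ) : ℝ := √(1 / 2 - tan a / 32)

lemma cos_pos' {a : ℝ} (h : |a| < π / 4) : 0 < cos a := by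
  obtain ⟨h1, h2⟩ := abs_lt.1 h
  have hp := Real.pi_pos
  exact Real.cos_pos_of_mem_Ioo ⟨by linarith, by linarith⟩

lemma tan_bound {a : ℝ} (h : |a| < π / 4) : -1 < tan a ∧ tan a < 1 := by
  obtain ⟨h1, h2⟩ := abs_lt.1 h
  have hp := Real.pi_pos
  constructor
  · have := Real.tan_lt_tan_of_lt_of_lt_pi_div_two (x := -(π / 4)) (y := a) (by linarith)
      (by linarith) (by linarith)
    rwa [Real.tan_neg, Real.tan_pi_div_four] at this
  · have := Real.tan_lt_tan_of_lt_of_lt_pi_div_two (x := a) (y := π / 4) (by linarith)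
      (by linarith) (by linarith)
    rwa [Real.tan_pi_div_four] at this

lemma rad_sq {a : ℝ} (h : |a| < π / 4) : rad a ^ 2 = 1 / 2 - tan a / 32 := by
  obtain ⟨h1, h2⟩ := tan_bound h
  unfold rad
  rw [Real.sq_sqrt (by linarith)]

lemma rad_nonneg (a : ℝ) : 0 ≤ rad a := Real.sqrt_nonneg _

lemma rad_low {a : ℝ} (h : |a| < π / 4) : 1 / 2 < rad a := by
  obtain ⟨h1, h2⟩ := tan_bound h
  apply lt_of_pow_lt_pow_left₀ 2 (rad_nonneg a)
  rw [rad_sq h]
  linarith

lemma rad_le {a : ℝ} (h : |a| < π / 4) : rad a ≤ 3 / 4 := by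
  obtain ⟨h1, h2⟩ := tan_bound h
  unfold rad
  rw [Real.sqrt_le_left (by norm_num)]
  linarith

lemma rad_abs {a : ℝ} (h : |a| < π / 4) : |rad a| ≤ 3 / 4 := by
  rw [abs_of_nonneg (rad_nonneg a)]
  exact rad_le h

lemma rad_eq {a : ℝ} (h : |a| < π / 4) : 64 * (rad a ^ 2 / 2 - 1 / 4) = -tan a := by
  rw [rad_sq h]
  ring

lemma zero_lt_q : |(0 : ℝ)| < π / 4 := by
  rw [abs_zero]
  have := Real.pi_pos
  linarith

lemma rad_zero_sq : rad 0 ^ 2 = 1 / 2 := by
  rw [rad_sq zero_lt_q, Real.tan_zero]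
  norm_num

lemma rad_sub {a : ℝ} (h : |a| < π / 4) : |rad a - rad 0| ≤ 1 / 32 := by
  have h1 := rad_low h
  have h2 := rad_low zero_lt_q
  have h3 : |rad a - rad 0| * (rad a + rad 0) = |tan a| / 32 := by
    have h4 : rad a ^ 2 - rad 0 ^ 2 = -tan a / 32 := by
      rw [rad_sq h, rad_zero_sq]
      ring
    have h5 : (rad a - rad 0) * (rad a + rad 0) = -tan a / 32 := by
      rw [← h4]
      ring
    have h6 : |(rad a - rad 0) * (rad a + rad 0)| = |tan a| / 32 := by
      rw [h5, abs_div, abs_neg]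
      norm_num
    rw [abs_mul, abs_of_nonneg (show (0:ℝ) ≤ rad a + rad 0 by linarith)] at h6
    exact h6
  have h6 : |tan a| < 1 := abs_lt.2 (tan_bound h)
  have h7 := abs_nonneg (rad a - rad 0)
  nlinarith

lemma continuous_rad {X : Type*} [TopologicalSpace X] {A : X → ℝ} (hA : Continuous A)
    (hA' : ∀ τ, |A τ| < π / 4) : Continuous (fun τ => rad (A τ)) := by
  unfold rad
  refine Real.continuous_sqrt.comp (continuous_const.sub (Continuous.div_const ?_ _))
  have h : (fun τ => tan (A τ)) = fun τ => sin (A τ) / cos (A τ) := by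
    funext τ
    exact Real.tan_eq_sin_div_cos _
  rw [h]
  exact (Real.continuous_sin.comp hA).div (Real.continuous_cos.comp hA)
    fun τ => (cos_pos' (hA' τ)).ne'

lemma continuous_gd {X : Type*} [TopologicalSpace X] {m i : ℕ} (hm : 0 < m) {f : X → ℝ}
    (hf : Continuous f) (hf' : ∀ x, |f x| < 1) : Continuous (fun x => gd m i (f x)) := by
  unfold gd
  have hm' : (0 : ℝ) < m := by positivity
  refine (Real.continuous_sin.comp ((continuous_ang m i).comp hf)).div
    (continuous_const.mul (Real.continuous_sqrt.comp (continuous_const.sub (hf.pow 2)))) fun x => ?_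
  exact (mul_pos hm' (sqrt_pos (hf' x))).ne'

lemma contDiff_Fm (m : ℕ) : ContDiff ℝ 2 (Fm m) := by
  rw [← field_PP]
  exact H709R2.contDiff_field _ _

/-- the ovals are periodic orbits of the rotated fields -/
lemma fam {m i j : ℕ} (hm : 0 < m) (hi : Ix m i) (hj : Ix m j) (A : ℝ → ℝ) (hA : Continuous A)
    (hA' : ∀ τ, |A τ| < π / 4) :
    ∃ (γ : ℝ → ℝ → ℝ × ℝ) (T : ℝ → ℝ), Continuous (fun q : ℝ × ℝ => γ q.1 q.2) ∧
      Continuous T ∧ ∀ τ, 0 < T τ ∧ (∀ t, HasDerivAt (γ τ) (rf (Fm m) (A τ) (γ τ t)) t) ∧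
      (∀ t, γ τ (t + T τ) = γ τ t) ∧ (∃ s t, γ τ s ≠ γ τ t) ∧
      range (γ τ) = range (ov m i j (rad (A τ))) := by
  have hm' : (0 : ℝ) < m := by positivity
  have hc1 : ∀ τ ω, |rad (A τ) * cos ω| < 1 := fun τ ω =>
    lt_of_le_of_lt (abs_cos (rad_abs (hA' τ)) ω) (by norm_num)
  have hs1 : ∀ τ ω, |rad (A τ) * sin ω| < 1 := fun τ ω =>
    lt_of_le_of_lt (abs_sin (rad_abs (hA' τ)) ω) (by norm_num)
  set K : ℝ → ℝ → ℝ := fun τ ω =>
    cos (A τ) * gd m i (rad (A τ) * cos ω) * gd m j (rad (A τ) * sin ω) with hKdef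
  have hr : Continuous (fun q : ℝ × ℝ => rad (A q.1)) :=
    (continuous_rad hA hA').comp continuous_fst
  have hK : Continuous (Function.uncurry K) := by
    have h1 : Continuous (fun q : ℝ × ℝ => cos (A q.1)) :=
      Real.continuous_cos.comp (hA.comp continuous_fst)
    have h2 : Continuous (fun q : ℝ × ℝ => gd m i (rad (A q.1) * cos q.2)) :=
      continuous_gd hm (hr.mul (Real.continuous_cos.comp continuous_snd)) fun q => hc1 _ _
    have h3 : Continuous (fun q : ℝ × ℝ => gd m j (rad (A q.1) * sin q.2)) :=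
      continuous_gd hm (hr.mul (Real.continuous_sin.comp continuous_snd)) fun q => hs1 _ _
    exact (h1.mul h2).mul h3
  have hpos : ∀ τ ω, 0 < K τ ω := fun τ ω =>
    mul_pos (mul_pos (cos_pos' (hA' τ)) (gd_pos hm hi (hc1 τ ω))) (gd_pos hm hj (hs1 τ ω))
  obtain ⟨W, S, hSc, hSp, hWc, hWs, hWd, hWp⟩ := tc K hK hpos (2 * π) (by positivity)
    (fun τ t => by simp only [hKdef, Real.cos_add_two_pi, Real.sin_add_two_pi])
  refine ⟨fun τ v => ov m i j (rad (A τ)) (W τ v), S, ?_, hSc, fun τ => ⟨hSp τ, ?_, ?_, ?_, ?_⟩⟩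
  · unfold ov
    have hW' : Continuous (fun q : ℝ × ℝ => W q.1 q.2) := hWc
    exact ((continuous_g m i).comp (hr.mul (Real.continuous_cos.comp hW'))).prodMk
      ((continuous_g m j).comp (hr.mul (Real.continuous_sin.comp hW')))
  · intro t
    have h1 := (hasDerivAt_ov (i := i) (j := j) hm (rad_abs (hA' τ)) (W τ t)).scomp t (hWd τ t)
    have h2 := rot_Fm hm hi hj (rad_abs (hA' τ)) (cos_pos' (hA' τ)) (rad_eq (hA' τ)) (W τ t)
    have h3 : rf (Fm m) (A τ) (ov m i j (rad (A τ)) (W τ t)) = (K τ (W τ t))⁻¹ •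
      (-(rad (A τ) * sin (W τ t)) * gd m i (rad (A τ) * cos (W τ t)),
        rad (A τ) * cos (W τ t) * gd m j (rad (A τ) * sin (W τ t))) := h2
    show HasDerivAt (fun v => ov m i j (rad (A τ)) (W τ v)) _ t
    simp only
    rw [h3]
    exact h1
  · intro t
    simp only [hWp]
    unfold ov
    rw [Real.cos_add_two_pi, Real.sin_add_two_pi]
  · obtain ⟨s, hs⟩ := hWs τ 0
    obtain ⟨t, ht⟩ := hWs τ π
    refine ⟨s, t, ?_⟩
    simp only [hs, ht]
    intro h
    have h1 : g m i (rad (A τ)) = g m i (-(rad (A τ))) := by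
      have := congrArg Prod.fst h
      simpa [ov] using this
    have h2 := g_low hm (rad_nonneg (A τ)) (rad_le (hA' τ)) hi
    rw [h1, sub_self] at h2
    have h3 := rad_low (hA' τ)
    have h4 : 0 < √2 * rad (A τ) / m := by positivity
    linarith
  · exact (hWs τ).range_comp (ov m i j (rad (A τ)))

/-- the ovals are limit cycles -/
lemma isolated {m i j : ℕ} (hm : 0 < m) (hi : Ix m i) (hj : Ix m j) :
    Isolated (Fm m) (range (ov m i j (rad 0))) := by
  have him : i < m := by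
    have := hi.2
    omega
  have hjm : j < m := by
    have := hj.2
    omega
  have h0 := rad_abs zero_lt_q
  refine ⟨J m i ×ˢ J m j, isOpen_Ioo.prod isOpen_Ioo, ?_, ?_⟩
  · rintro z ⟨ω, rfl⟩
    exact ⟨g_mem hm him (lt_of_le_of_lt (abs_cos h0 ω) (by norm_num)),
      g_mem hm hjm (lt_of_le_of_lt (abs_sin h0 ω) (by norm_num))⟩
  rintro D ⟨γ, T, hT, hode, hper, ⟨s₀, t₀, hne⟩, rfl⟩ hD
  set u : ℝ → ℝ := fun t => H m (γ t) - 1 / 4 with hu
  have hud : ∀ t, HasDerivAt u (-64 * u t * (hx m (γ t).1 ^ 2 + hx m (γ t).2 ^ 2)) t := by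
    intro t
    have h1 : HasDerivAt (fun t => (γ t).1) (Fm m (γ t)).1 t := by
      have := (hasFDerivAt_fst (𝕜 := ℝ) (p := γ t)).comp_hasDerivAt t (hode t)
      exact this
    have h2 : HasDerivAt (fun t => (γ t).2) (Fm m (γ t)).2 t := by
      have := (hasFDerivAt_snd (𝕜 := ℝ) (p := γ t)).comp_hasDerivAt t (hode t)
      exact this
    have h3 := (((p m).hasDerivAt (γ t).1).comp t h1).pow 2
    have h4 := (((p m).hasDerivAt (γ t).2).comp t h2).pow 2
    have h5 := ((h3.add h4).div_const 2).sub_const (1 / 4)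
    refine h5.congr_deriv ?_
    simp only [Function.comp, hu, Fm, hx, H]
    push_cast
    ring
  have hvd : ∀ t, HasDerivAt (fun t => u t ^ 2)
      (-128 * (u t ^ 2 * (hx m (γ t).1 ^ 2 + hx m (γ t).2 ^ 2))) t := by
    intro t
    refine ((hud t).pow 2).congr_deriv ?_
    push_cast
    ring
  have hanti : Antitone (fun t => u t ^ 2) := by
    apply antitone_of_deriv_nonpos
    · intro t
      exact (hvd t).differentiableAt
    · intro t
      rw [(hvd t).deriv]
      have : 0 ≤ u t ^ 2 * (hx m (γ t).1 ^ 2 + hx m (γ t).2 ^ 2) := by positivity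
      linarith
  have hvper : Function.Periodic (fun t => u t ^ 2) T := by
    intro t
    simp only [hu, hper]
  have hconst : ∀ s t, u s ^ 2 = u t ^ 2 := by
    have hle : ∀ s t, u s ^ 2 ≤ u t ^ 2 := by
      intro s t
      obtain ⟨n, hn⟩ := exists_nat_gt ((t - s) / T)
      have h1 : t ≤ s + n * T := by
        rw [div_lt_iff₀ hT] at hn
        linarith
      have h2 : u (s + n * T) ^ 2 = u s ^ 2 := hvper.nat_mul n s
      rw [← h2]
      exact hanti h1
    exact fun s t => le_antisymm (hle s t) (hle t s)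
  have hzero : ∀ t, u t = 0 := by
    by_contra hcon
    push Not at hcon
    obtain ⟨t₁, ht₁⟩ := hcon
    have hun : ∀ t, u t ^ 2 ≠ 0 := fun t => by
      rw [hconst t t₁]
      exact pow_ne_zero 2 ht₁
    have hd0 : ∀ t, -128 * (u t ^ 2 * (hx m (γ t).1 ^ 2 + hx m (γ t).2 ^ 2)) = 0 := by
      intro t
      have h1 : HasDerivAt (fun t => u t ^ 2) 0 t := by
        have h2 : (fun t => u t ^ 2) = fun _ => u t₁ ^ 2 := by
          funext s
          exact hconst s t₁
        rw [h2]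
        exact hasDerivAt_const t _
      exact (hvd t).unique h1
    have hg : ∀ t, hx m (γ t).1 = 0 ∧ hx m (γ t).2 = 0 := by
      intro t
      have h1 : hx m (γ t).1 ^ 2 + hx m (γ t).2 ^ 2 = 0 := by
        have := hd0 t
        rcases mul_eq_zero.1 this with h | h
        · norm_num at h
        · exact (mul_eq_zero.1 h).resolve_left (hun t)
      constructor
      · nlinarith [sq_nonneg (hx m (γ t).1), sq_nonneg (hx m (γ t).2)]
      · nlinarith [sq_nonneg (hx m (γ t).1), sq_nonneg (hx m (γ t).2)]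
    have hF : ∀ t, Fm m (γ t) = 0 := by
      intro t
      unfold Fm
      rw [(hg t).1, (hg t).2]
      simp
    apply hne
    apply is_const_of_deriv_eq_zero (f := γ)
    · intro t
      exact (hode t).differentiableAt
    · intro t
      rw [(hode t).deriv, hF]
  -- a common point
  obtain ⟨h1, h2⟩ := hD (mem_range_self 0)
  obtain ⟨ξ, hξ, hξe⟩ := exists_of_mem hm him h1
  obtain ⟨ζ, hζ, hζe⟩ := exists_of_mem hm hjm h2
  have h3 : ξ ^ 2 + ζ ^ 2 = 1 / 2 := by
    have h4 : H m (γ 0) = 1 / 4 := by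
      have := hzero 0
      simp only [hu] at this
      linarith
    have h5 : γ 0 = (g m i ξ, g m j ζ) := by
      rw [hξe, hζe]
    rw [h5, H_g hm hξ.le hζ.le] at h4
    linarith
  obtain ⟨ω, hω⟩ : ∃ ω, ov m i j (rad 0) ω = γ 0 := by
    refine ⟨Complex.arg ⟨ξ, ζ⟩, ?_⟩
    have h4 : ‖(⟨ξ, ζ⟩ : ℂ)‖ = rad 0 := by
      rw [Complex.norm_def, Complex.normSq_mk]
      unfold rad
      rw [Real.tan_zero]
      congr 1
      nlinarith
    have h5 := Complex.norm_mul_cos_arg ⟨ξ, ζ⟩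
    have h6 := Complex.norm_mul_sin_arg ⟨ξ, ζ⟩
    rw [h4] at h5 h6
    unfold ov
    rw [h5, h6]
    simp only
    rw [hξe, hζe]
  obtain ⟨δ, S, -, -, hδ⟩ := fam hm hi hj (fun _ => 0) continuous_const (fun _ => zero_lt_q)
  obtain ⟨hS, hδode, hδper, -, hδr⟩ := hδ 0
  have h7 : γ 0 ∈ range (δ 0) := by
    rw [hδr]
    exact ⟨ω, hω⟩
  obtain ⟨s', hs'⟩ := h7
  rw [← hδr]
  have hδode' : ∀ t, HasDerivAt (δ 0) (Fm m (δ 0 t)) t := by
    intro t
    have := hδode t
    refine this.congr_deriv ?_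
    unfold rf rot
    simp
  exact W960.HP.orbits_eq (contDiff_Fm m) hT hS hode hδode' hper hδper (s := 0) (s' := s') hs'.symm

/-- the ovals survive the rotations -/
lemma pers {m i j : ℕ} (hm : 0 < m) (hi : Ix m i) (hj : Ix m j) {η : ℝ} (h0 : 0 < |η|)
    (h1 : |η| < π / 4) : W960.HP.PersG (Fm m) (fun _ D =>
      diam (range (ov m i j (rad 0))) / 2 ≤ diam D ∧
        diam D ≤ 2 * diam (range (ov m i j (rad 0)))) η (range (ov m i j (rad 0))) := by
  have hm' : (0 : ℝ) < m := by positivity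
  have hη0 : η ≠ 0 := abs_pos.1 h0
  set A : ℝ → ℝ := fun τ => η * max 0 (min τ 1) with hAdef
  have hA : Continuous A := by
    simp only [hAdef]
    fun_prop
  have hAe : ∀ τ ∈ Icc (0 : ℝ) 1, A τ = η * τ := by
    intro τ hτ
    simp only [hAdef]
    rw [min_eq_left hτ.2, max_eq_right hτ.1]
  have hA' : ∀ τ, |A τ| < π / 4 := by
    intro τ
    have h2 : 0 ≤ max 0 (min τ 1) := le_max_left _ _
    have h3 : max 0 (min τ 1) ≤ 1 := max_le zero_le_one (min_le_right _ _)
    simp only [hAdef]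
    rw [abs_mul, abs_of_nonneg h2]
    calc |η| * max 0 (min τ 1) ≤ |η| * 1 := mul_le_mul_of_nonneg_left h3 (abs_nonneg _)
      _ < π / 4 := by rwa [mul_one]
  obtain ⟨γ, T, hγc, hTc, hγ⟩ := fam hm hi hj A hA hA'
  have hA0 : A 0 = 0 := by
    rw [hAe 0 ⟨le_rfl, zero_le_one⟩, mul_zero]
  refine ⟨A, γ, T, hA.continuousOn, hA0, ?_, ?_, hγc.continuousOn, hTc.continuousOn, ?_, ?_, ?_⟩
  · rw [hAe 1 ⟨zero_le_one, le_rfl⟩, mul_one]
  · intro τ hτ
    rw [hAe τ ⟨hτ.1.le, hτ.2.le⟩]
    rcases lt_or_gt_of_ne hη0 with h | h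
    · rw [min_eq_right h.le, max_eq_left h.le]
      constructor <;> nlinarith [hτ.1, hτ.2]
    · rw [min_eq_left h.le, max_eq_right h.le]
      constructor <;> nlinarith [hτ.1, hτ.2]
  · intro τ _
    obtain ⟨g1, g2, g3, g4, g5⟩ := hγ τ
    refine ⟨g1, g2, g3, g4, ?_⟩
    simp only
    rw [g5]
    have k1 := diam_comp hm hi hj (rad_nonneg (A τ)) (rad_nonneg 0) (rad_le (hA' τ))
      (rad_le zero_lt_q)
    have k2 := diam_comp hm hi hj (rad_nonneg 0) (rad_nonneg (A τ)) (rad_le zero_lt_q)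
      (rad_le (hA' τ))
    have k3 := diam_low hm hi hj (rad_nonneg 0) (rad_le zero_lt_q)
    have k4 : 4 / (m : ℝ) * |rad (A τ) - rad 0| ≤ (√2 * rad 0 / m) / 2 := by
      have k5 := rad_sub (hA' τ)
      have k6 := rad_low zero_lt_q
      have k7 : 1 ≤ √2 := by
        rw [Real.one_le_sqrt]
        norm_num
      have k8 : 4 * |rad (A τ) - rad 0| ≤ √2 * rad 0 / 2 := by nlinarith
      calc 4 / (m : ℝ) * |rad (A τ) - rad 0| = (4 * |rad (A τ) - rad 0|) / m := by ring
        _ ≤ (√2 * rad 0 / 2) / m := div_le_div_of_nonneg_right k8 hm'.le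
        _ = (√2 * rad 0 / m) / 2 := by ring
    rw [abs_sub_comm (rad 0)] at k2
    constructor <;> linarith
  · intro τ hτ τ' hτ' he
    rw [(hγ τ).2.2.2.2, (hγ τ').2.2.2.2] at he
    have k1 : ov m i j (rad (A τ)) 0 ∈ range (ov m i j (rad (A τ'))) := by
      rw [← he]
      exact mem_range_self 0
    obtain ⟨ω, hω⟩ := k1
    have k2 := congrArg (H m) hω
    rw [H_ov hm (rad_abs (hA' τ')), H_ov hm (rad_abs (hA' τ)), rad_sq (hA' τ'), rad_sq (hA' τ)] at k2
    have k3 : tan (A τ) = tan (A τ') := by linarith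
    have k4 : A τ = A τ' := by
      have k5 := abs_lt.1 (hA' τ)
      have k6 := abs_lt.1 (hA' τ')
      have hp := Real.pi_pos
      exact Real.injOn_tan ⟨by linarith, by linarith⟩ ⟨by linarith, by linarith⟩ k3
    rw [hAe τ hτ, hAe τ' hτ'] at k4
    exact mul_left_cancel₀ hη0 k4
  · rw [(hγ 0).2.2.2.2, hA0]

end LB

open LB in
/-- LB: the lower bound -/
theorem lb : S_LB := by
  intro k hk
  obtain ⟨m, hmk⟩ : ∃ m, m = 4 * k := ⟨_, rfl⟩
  have hm : 0 < m := by omega
  have hm' : (0 : ℝ) < m := by positivity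
  have hr0 := rad_nonneg 0
  have hr1 := rad_le zero_lt_q
  refine ⟨PP m, QQ m, ?_, ?_, 1 / m, by positivity, ?_⟩
  · have := degree_PP hm
    omega
  · have := degree_QQ hm
    omega
  rw [field_PP]
  have hIx : ∀ i ∈ Finset.Ico k (3 * k), Ix m i := by
    intro i hi
    rw [Finset.mem_Ico] at hi
    unfold Ix
    omega
  set I : Finset (ℕ × ℕ) := Finset.Ico k (3 * k) ×ˢ Finset.Ico k (3 * k) with hI
  have hcard : (I : Set (ℕ × ℕ)).encard = (4 * k ^ 2 : ℕ∞) := by
    rw [Set.encard_coe_eq_coe_finsetCard, hI, Finset.card_product, Nat.card_Ico]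
    have : (3 * k - k) * (3 * k - k) = 4 * k ^ 2 := by
      have : 3 * k - k = 2 * k := by omega
      rw [this]
      ring
    rw [this]
    push_cast
    rfl
  have hinj : Set.InjOn (fun q : ℕ × ℕ => range (ov m q.1 q.2 (rad 0))) (I : Set (ℕ × ℕ)) := by
    rintro ⟨i, j⟩ hij ⟨i', j'⟩ hij' he
    rw [Finset.mem_coe, hI, Finset.mem_product] at hij hij'
    simp only at he hij hij'
    have hi := hIx i hij.1
    have hj := hIx j hij.2
    have hi' := hIx i' hij'.1
    have hj' := hIx j' hij'.2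
    have him : i < m := by
      have := hi.2
      omega
    have hjm : j < m := by
      have := hj.2
      omega
    have him' : i' < m := by
      have := hi'.2
      omega
    have hjm' : j' < m := by
      have := hj'.2
      omega
    have k1 : ov m i j (rad 0) 0 ∈ range (ov m i' j' (rad 0)) := by
      rw [← he]
      exact mem_range_self 0
    obtain ⟨ω, hω⟩ := k1
    have h0 := rad_abs zero_lt_q
    have hc : ∀ ω, |rad 0 * cos ω| < 1 := fun ω => lt_of_le_of_lt (abs_cos h0 ω) (by norm_num)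
    have hs : ∀ ω, |rad 0 * sin ω| < 1 := fun ω => lt_of_le_of_lt (abs_sin h0 ω) (by norm_num)
    have e1 : i' = i := g_inj hm (hc ω) (hc 0) him' him (congrArg Prod.fst hω)
    have e2 : j' = j := g_inj hm (hs ω) (hs 0) hjm' hjm (congrArg Prod.snd hω)
    rw [e1, e2]
  rw [← hcard, ← hinj.encard_image]
  apply Set.encard_le_encard
  rintro C ⟨⟨i, j⟩, hij, rfl⟩
  rw [Finset.mem_coe, hI, Finset.mem_product] at hij
  simp only at hij
  have hi := hIx i hij.1
  have hj := hIx j hij.2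
  refine ⟨?_, isolated hm hi hj, ?_, ?_, fun η h0 h1 => pers hm hi hj h0 h1⟩
  · obtain ⟨δ, S, -, -, hδ⟩ := fam hm hi hj (fun _ => 0) continuous_const (fun _ => zero_lt_q)
    obtain ⟨hS, hδode, hδper, hne, hδr⟩ := hδ 0
    refine ⟨δ 0, S 0, hS, fun t => (hδode t).congr_deriv ?_, hδper, hne, hδr.symm⟩
    unfold rf rot
    simp
  · refine le_trans ?_ (diam_low hm hi hj hr0 hr1)
    have h2 : √2 * rad 0 = 1 := by
      have h3 : (√2 * rad 0) ^ 2 = 1 := by
        rw [mul_pow, rad_zero_sq, Real.sq_sqrt (by norm_num)]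
        norm_num
      have h4 : 0 ≤ √2 * rad 0 := by positivity
      nlinarith
    rw [h2]
  · refine (diam_le fun ω ω' => dd_le hm hi hj hr0 hr1 ω ω').trans ?_
    calc 4 / (m : ℝ) * rad 0 ≤ 4 / m * 1 := by
          apply mul_le_mul_of_nonneg_left (by linarith) (by positivity)
      _ = 4 * (1 / m) := by ring

end

end Pool.Agent.N224.Hil
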