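import Pool.Agent.N224.Hil.Defs
import Pool.Agent.W960.HP.Fam

/-! Project HN, part NI: closed curves are null sets; the set enclosed by a closed orbit does not
depend on the parametrisation. -/

set_option autoImplicit false

open Real Set MeasureTheory Topology Filter
open scoped ENNReal

namespace Pool.Agent.N224.Hil

open Pool.Agent.H709R2 (rot wedge field)

/-- N: a closed curve is a null set -/
theorem n : S_N := by
  intro γ V T h
  have hd : deriv γ = V := funext fun t => (h.der t).deriv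
  have hc : ContDiff ℝ 1 γ := by
    rw [contDiff_one_iff_deriv, hd]
    exact ⟨fun t => (h.der t).differentiableAt, h.cont⟩
  have h1 : dimH (range γ) ≤ 1 := by
    have := hc.dimH_range_le
    simpa using this
  have h2 : μH[2] (range γ) = 0 := by
    have h3 : dimH (range γ) < ((2 : NNReal) : ℝ≥0∞) := lt_of_le_of_lt h1 (by norm_num)
    have := hausdorffMeasure_of_dimH_lt h3
    simpa using this
  rw [hausdorffMeasure_prod_real] at h2
  exact h2

namespace NI

lemma periods {g g0 : ℝ → ℝ × ℝ} {Y : ℝ × ℝ → ℝ × ℝ} {T T0 c : ℝ} {k : ℤ} (hg : ∀ t, g t = g0 (t + c))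
    (hT : T = k * T0) (hp : ∀ t, g0 (t + T0) = g0 t) (hc : Continuous g0) (hY : Continuous Y)
    {z : ℝ × ℝ} (hz : z ∉ range g0) :
    wn g (fun t => Y (g t)) T z = k * wn g0 (fun t => Y (g0 t)) T0 z := by
  set h : ℝ → ℝ := fun t => wedge (g0 t - z) (Y (g0 t)) / H709R2.sq (g0 t - z) with hh
  have hper : Function.Periodic h T0 := by
    intro t
    simp only [hh, hp t]
  have hcont : Continuous h := by
    have hne : ∀ t, H709R2.sq (g0 t - z) ≠ 0 := by
      intro t h0
      apply hz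
      refine ⟨t, ?_⟩
      have h1 : (g0 t - z).1 = 0 := by
        unfold H709R2.sq at h0
        nlinarith [sq_nonneg (g0 t - z).1, sq_nonneg (g0 t - z).2]
      have h2 : (g0 t - z).2 = 0 := by
        unfold H709R2.sq at h0
        nlinarith [sq_nonneg (g0 t - z).1, sq_nonneg (g0 t - z).2]
      exact sub_eq_zero.1 (Prod.ext h1 h2)
    have h1 : Continuous fun t => wedge (g0 t - z) (Y (g0 t)) := by
      unfold wedge
      fun_prop
    have h2 : Continuous fun t => H709R2.sq (g0 t - z) := by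
      unfold H709R2.sq
      fun_prop
    exact h1.div h2 hne
  have h1 : ∫ t in (0:ℝ)..T, wedge (g t - z) (Y (g t)) / H709R2.sq (g t - z) =
      ∫ t in (0:ℝ)..T, h (t + c) := by
    simp only [hh, hg]
  have h2 : ∫ t in (0:ℝ)..T, h (t + c) = ∫ t in c..(c + k • T0), h t := by
    rw [intervalIntegral.integral_comp_add_right]
    congr 1
    · ring
    · rw [hT, zsmul_eq_mul]
      ring
  have h3 : ∫ t in c..(c + k • T0), h t = k • ∫ t in c..(c + T0), h t :=
    hper.intervalIntegral_add_zsmul_eq k c (fun _ _ => hcont.intervalIntegrable _ _)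
  have h4 : ∫ t in c..(c + T0), h t = ∫ t in (0:ℝ)..(0 + T0), h t :=
    hper.intervalIntegral_add_eq c 0
  unfold wn
  rw [h1, h2, h3, h4, zero_add, zsmul_eq_mul]
  ring

open Pool.Agent.H709R2 (ClosedOrbit)
open Pool.Agent.H709U (rf Orb)

/-- two solutions with a common point are translates of each other -/
lemma translate {Y : ℝ × ℝ → ℝ × ℝ} (hY : ContDiff ℝ 2 Y) {γ γ' : ℝ → ℝ × ℝ} {T T' : ℝ}
    (hT : 0 < T) (hT' : 0 < T') (h : ∀ t, HasDerivAt γ (Y (γ t)) t)
    (h' : ∀ t, HasDerivAt γ' (Y (γ' t)) t) (hp : ∀ t, γ (t + T) = γ t)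
    (hp' : ∀ t, γ' (t + T') = γ' t) {s' : ℝ} (hs : γ 0 = γ' s') : ∀ t, γ t = γ' (t + s') := by
  have q : Function.Periodic γ T := hp
  have q' : Function.Periodic γ' T' := hp'
  have c : Continuous γ := continuous_iff_continuousAt.2 fun t => (h t).continuousAt
  have c' : Continuous γ' := continuous_iff_continuousAt.2 fun t => (h' t).continuousAt
  have hcomp : IsCompact (range γ ∪ range γ') :=
    (q.compact_of_continuous hT.ne' c).union (q'.compact_of_continuous hT'.ne' c')
  obtain ⟨R, hR⟩ := hcomp.isBounded.exists_norm_le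
  obtain ⟨Z, hZ, ⟨K, hK⟩, ⟨M, hM⟩, hZF⟩ := H709R2.exists_cutoff (F := Y) hY R
  obtain ⟨φ, hφ⟩ := H709R2.exists_rotFlow hZ hK hM
  have e1 : ∀ t, HasDerivAt γ (rot 0 (Z (γ t))) t := by
    intro t
    rw [W960.HP.rot_zero, (hZF (γ t) (hR _ (Or.inl ⟨t, rfl⟩))).eq_of_nhds]
    exact h t
  have e2 : ∀ t, HasDerivAt (fun t => γ' (t + s')) (rot 0 (Z (γ' (t + s')))) t := by
    intro t
    rw [W960.HP.rot_zero, (hZF (γ' (t + s')) (hR _ (Or.inr ⟨t + s', rfl⟩))).eq_of_nhds]
    exact (h' (t + s')).comp_add_const t s'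
  have u1 := hφ.uniq 0 _ e1
  have u2 := hφ.uniq 0 _ e2
  intro t
  have a := u1 t
  have b := u2 t
  simp only [zero_add] at a b
  rw [a, b, hs]

/-- comparison with a parametrisation with the minimal period -/
lemma fill_eq {Y : ℝ × ℝ → ℝ × ℝ} (hY : ContDiff ℝ 2 Y) {γ γ0 : ℝ → ℝ × ℝ} {T T0 : ℝ}
    (hT : 0 < T) (h : ∀ t, HasDerivAt γ (Y (γ t)) t) (hp : ∀ t, γ (t + T) = γ t)
    (ho : Orb Y γ0 T0) (hr : range γ = range γ0) :
    fill γ (fun t => Y (γ t)) T = fill γ0 (fun t => Y (γ0 t)) T0 := by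
  obtain ⟨c, hc⟩ : γ 0 ∈ range γ0 := hr ▸ mem_range_self 0
  have ht := translate hY hT ho.pos h ho.ode hp ho.per hc.symm
  have h1 : γ0 (c + T) = γ0 c := by
    have h2 := hp 0
    rw [ht, ht 0] at h2
    rw [show c + T = 0 + T + c by ring, h2]
    congr 1
    ring
  obtain ⟨k, hk⟩ := ho.inj _ _ h1
  have hTk : T = k * T0 := by linarith
  have hk0 : (k : ℝ) ≠ 0 := by
    intro h0
    rw [hTk, h0, zero_mul] at hT
    exact lt_irrefl _ hT
  have c0 : Continuous γ0 := continuous_iff_continuousAt.2 fun t => (ho.ode t).continuousAt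
  unfold fill ins
  rw [hr]
  congr 1
  ext z
  refine and_congr_right fun hz => not_congr ?_
  rw [periods (c := c) ht hTk ho.per c0 hY.continuous hz]
  simp [hk0]

end NI

/-- I: the set enclosed by a closed orbit does not depend on the parametrisation -/
theorem i : S_I := by
  intro Y hY γ δ T S hT hγ hγp hγn hS hδ hδp hδn hr
  have hcl : H709R2.ClosedOrbit (H709U.rf Y 0) (range γ) := by
    rw [W960.HP.rf_zero]
    exact ⟨γ, T, hT, hγ, hγp, hγn, rfl⟩
  obtain ⟨γ0, T0, ho, hr0⟩ := H709U.m0 Y hY 0 _ hcl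
  rw [W960.HP.rf_zero] at ho
  rw [NI.fill_eq hY hT hγ hγp ho hr0, NI.fill_eq hY hS hδ hδp ho (hr ▸ hr0)]

end Pool.Agent.N224.Hil
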