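import Pool.Agent.N224.Hil.Defs
import Pool.Agent.H709U.M0
import Pool.Agent.W960.HP.Local

/-! Project HN: along a path of closed orbits all members are enclosed by the first one or all are
enclosed by the last one. -/

open Real Set MeasureTheory Topology Filter

namespace Pool.Agent.N224.Hil.P

/-- a continuous function with integer values is constant on a preconnected set -/
theorem const_of_int {A : Type*} [TopologicalSpace A] {S : Set A} (hS : IsPreconnected S)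
    {f : A → ℝ} (hf : ContinuousOn f S) (hi : ∀ x ∈ S, ∃ k : ℤ, f x = k) {x y : A} (hx : x ∈ S)
    (hy : y ∈ S) : f x = f y := by
  have key : ∀ x ∈ S, ∀ y ∈ S, f x ≤ f y := by
    intro x hx y hy
    by_contra h
    push Not at h
    obtain ⟨k, hk⟩ := hi x hx
    obtain ⟨l, hl⟩ := hi y hy
    rw [hk, hl] at h
    have hlk : l + 1 ≤ k := by
      have : l < k := by exact_mod_cast h
      omega
    have hlk' : (l : ℝ) + 1 ≤ k := by exact_mod_cast hlk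
    have h1 : ((l : ℝ) + 1 / 2) ∈ f '' S := by
      apply (hS.image f hf).Icc_subset ⟨y, hy, rfl⟩ ⟨x, hx, rfl⟩
      rw [hk, hl]
      constructor <;> linarith
    obtain ⟨z, hz, hfz⟩ := h1
    obtain ⟨m, hm⟩ := hi z hz
    rw [hm] at hfz
    have h2 : (2 * m : ℝ) = 2 * l + 1 := by linarith
    have h3 : 2 * m = 2 * l + 1 := by exact_mod_cast h2
    omega
  exact le_antisymm (key x hx y hy) (key y hy x hx)

end Pool.Agent.N224.Hil.P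

namespace Pool.Agent.N224.Hil

noncomputable section

open Pool.Agent.H709R2 (rot wedge field ClosedOrbit)
open Pool.Agent.H709U (rf Orb)
open Pool.Agent.W960.HP (Path Good)

/-- along a path of closed orbits all members are enclosed by the first one or all are enclosed
by the last one -/
theorem p (h1 : S_W1) (h2 : S_W2) (h4 : S_W4) (hJ : S_J) (hI : S_I) (_h0 : S_T0) (hT : S_TT) :
    S_P := by
  intro X η a γ T hX hη F
  have hη0 := hη.le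
  set V : ℝ → ℝ → ℝ × ℝ := fun τ t => X (a τ) (γ τ t) with hV
  have hγc : ∀ τ ∈ Icc (0:ℝ) 1, Continuous (γ τ) := fun τ hτ =>
    continuous_iff_continuousAt.2 fun t => (F.ode τ hτ t).continuousAt
  have hL : ∀ τ ∈ Icc (0:ℝ) 1, Loop (γ τ) (V τ) (T τ) := fun τ hτ =>
    ⟨F.pos τ hτ, F.ode τ hτ, (hX.smooth (a τ)).continuous.comp (hγc τ hτ), F.per τ hτ⟩
  have hVc : ContinuousOn (fun q : ℝ × ℝ => V q.1 q.2) (Icc 0 1 ×ˢ univ) := by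
    have h3 : ContinuousOn (fun q : ℝ × ℝ => ((a q.1, γ q.1 q.2) : ℝ × (ℝ × ℝ)))
        (Icc 0 1 ×ˢ univ) :=
      (F.conta.comp continuousOn_fst fun q hq => hq.1).prodMk F.cont
    exact hX.cont.comp_continuousOn h3
  have hdis : ∀ τ ∈ Icc (0:ℝ) 1, ∀ τ' ∈ Icc (0:ℝ) 1, τ ≠ τ' → ∀ s s', γ τ s ≠ γ τ' s' := by
    intro τ hτ τ' hτ' hne s s' h
    exact hne (F.inj τ hτ τ' hτ' (F.meet hX hη0 F hτ hτ' h).2)
  have hdis' : ∀ τ ∈ Icc (0:ℝ) 1, ∀ τ' ∈ Icc (0:ℝ) 1, τ ≠ τ' → ∀ s', γ τ' s' ∉ range (γ τ) := by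
    rintro τ hτ τ' hτ' hne s' ⟨s, hs⟩
    exact hdis τ hτ τ' hτ' hne s s' hs
  have hW := h4 γ V T hL F.cont hVc F.contT
  have hV' : ∀ τ, V τ = fun t => X (a τ) (γ τ t) := fun τ => rfl
  rw [← hV' 0, ← hV' 1]
  clear_value V
  have hW' : ∀ (S : Set ℝ) (z : ℝ × ℝ), (∀ τ ∈ S, τ ∈ Icc (0:ℝ) 1 ∧ z ∉ range (γ τ)) →
      ContinuousOn (fun τ => wn (γ τ) (V τ) (T τ) z) S := by
    intro S z hS
    have h5 : ContinuousOn (fun τ : ℝ => ((τ, z) : ℝ × (ℝ × ℝ))) S := by fun_prop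
    exact ContinuousOn.comp (f := fun τ : ℝ => ((τ, z) : ℝ × (ℝ × ℝ)))
      (g := fun q : ℝ × (ℝ × ℝ) => wn (γ q.1) (V q.1) (T q.1) q.2) hW h5 hS
  have m0 : (0:ℝ) ∈ Icc (0:ℝ) 1 := ⟨le_rfl, zero_le_one⟩
  have m1 : (1:ℝ) ∈ Icc (0:ℝ) 1 := ⟨zero_le_one, le_rfl⟩
  -- a member is enclosed as soon as one of its points is enclosed
  have key : ∀ σ ∈ Icc (0:ℝ) 1, ∀ τ ∈ Icc (0:ℝ) 1, σ ≠ τ →
      wn (γ σ) (V σ) (T σ) (γ τ 0) ≠ 0 → range (γ τ) ⊆ fill (γ σ) (V σ) (T σ) := by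
    intro σ hσ τ hτ hne hw
    have hsub : range (γ τ) ⊆ (range (γ σ))ᶜ := by
      rintro _ ⟨s, rfl⟩
      exact hdis' σ hσ τ hτ hne s
    intro z hz
    refine Or.inr ⟨hsub hz, ?_⟩
    have h3 : wn (γ σ) (V σ) (T σ) z = wn (γ σ) (V σ) (T σ) (γ τ 0) :=
      P.const_of_int (isPreconnected_range (hγc τ hτ)) ((h2 _ _ _ (hL σ hσ)).mono hsub)
        (fun x hx => h1 _ _ _ (hL σ hσ) x (hsub hx)) hz ⟨0, rfl⟩
    rw [h3]
    exact hw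
  -- the first points of the members
  have hc0 : ContinuousOn (fun τ => γ τ 0) (Icc (0:ℝ) 1) := by
    have h3 : ContinuousOn (fun τ : ℝ => ((τ, 0) : ℝ × ℝ)) (Icc (0:ℝ) 1) := by fun_prop
    exact F.cont.comp h3 fun τ hτ => ⟨hτ, mem_univ _⟩
  have hrow : ∀ σ ∈ Icc (0:ℝ) 1, ∀ S : Set ℝ, IsPreconnected S → S ⊆ Icc (0:ℝ) 1 → σ ∉ S →
      ∀ τ ∈ S, ∀ τ' ∈ S, wn (γ σ) (V σ) (T σ) (γ τ 0) = wn (γ σ) (V σ) (T σ) (γ τ' 0) := by
    intro σ hσ S hS hSI hσS τ hτ τ' hτ'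
    have hout : ∀ τ ∈ S, γ τ 0 ∉ range (γ σ) := fun τ hτ =>
      hdis' σ hσ τ (hSI hτ) (fun h => hσS (h ▸ hτ)) 0
    refine P.const_of_int (f := fun τ => wn (γ σ) (V σ) (T σ) (γ τ 0)) hS ?_ ?_ hτ hτ'
    · exact (h2 _ _ _ (hL σ hσ)).comp (hc0.mono hSI) fun τ hτ => hout τ hτ
    · intro τ hτ
      exact h1 _ _ _ (hL σ hσ) _ (hout τ hτ)
  -- a point which is enclosed by the first member
  obtain ⟨z₀, hz₀⟩ : ∃ z₀, z₀ ∈ ins (γ 0) (V 0) (T 0) := by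
    have hcl : ClosedOrbit (rf (X (a 0)) 0) (range (γ 0)) := by
      rw [Pool.Agent.W960.HP.rf_zero]
      exact F.closed m0
    obtain ⟨δ, S, hO, hr⟩ := Pool.Agent.H709U.m0 (X (a 0)) (hX.smooth (a 0)) 0 _ hcl
    rw [Pool.Agent.W960.HP.rf_zero] at hO
    have hδc : Continuous δ := continuous_iff_continuousAt.2 fun t => (hO.ode t).continuousAt
    have hδL : Loop δ (fun t => X (a 0) (δ t)) S :=
      ⟨hO.pos, hO.ode, (hX.smooth (a 0)).continuous.comp hδc, hO.per⟩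
    obtain ⟨ε, hε, -, z, hz, hwz⟩ := hJ δ _ S hδL hO.ne hO.inj
    have hnc : ∃ s t, δ s ≠ δ t := by
      obtain ⟨s, t, hst⟩ := F.nc 0 m0
      have e1 : γ 0 s ∈ range δ := hr ▸ ⟨s, rfl⟩
      have e2 : γ 0 t ∈ range δ := hr ▸ ⟨t, rfl⟩
      obtain ⟨s', hs'⟩ := e1
      obtain ⟨t', ht'⟩ := e2
      exact ⟨s', t', by rw [hs', ht']; exact hst⟩
    have hfill := hI (X (a 0)) (hX.smooth (a 0)) (γ 0) δ (T 0) S (F.pos 0 m0) (F.ode 0 m0)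
      (F.per 0 m0) (F.nc 0 m0) hO.pos hO.ode hO.per hnc hr
    have hzf : z ∈ fill δ (fun t => X (a 0) (δ t)) S := by
      refine Or.inr ⟨hz, ?_⟩
      rw [hwz]
      rcases hε with h | h <;> rw [h] <;> norm_num
    rw [← hfill] at hzf
    rcases hzf with h | h
    · exact absurd (hr ▸ h) hz
    · refine ⟨z, ?_⟩
      rw [hV' 0]
      exact h
  -- it is enclosed by the next members
  obtain ⟨τ, hτ0, hτ1, hzτ⟩ : ∃ τ : ℝ, 0 < τ ∧ τ ≤ 1 ∧ z₀ ∈ ins (γ τ) (V τ) (T τ) := by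
    obtain ⟨τ₁, hτ₁0, hτ₁1, hout⟩ : ∃ τ₁ : ℝ, 0 < τ₁ ∧ τ₁ ≤ 1 ∧
        ∀ τ ∈ Ico (0:ℝ) τ₁, z₀ ∉ range (γ τ) := by
      by_cases hex : ∃ τ ∈ Icc (0:ℝ) 1, z₀ ∈ range (γ τ)
      · obtain ⟨τ₁, hτ₁, s₁, hs₁⟩ := hex
        refine ⟨τ₁, ?_, hτ₁.2, ?_⟩
        · rcases hτ₁.1.lt_or_eq with h | h
          · exact h
          · exfalso
            rw [← h] at hs₁
            exact hz₀.1 ⟨s₁, hs₁⟩
        · rintro τ hτ ⟨s, hs⟩
          exact hdis τ ⟨hτ.1, hτ.2.le.trans hτ₁.2⟩ τ₁ hτ₁ hτ.2.ne s s₁ (by rw [hs, hs₁])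
      · push Not at hex
        exact ⟨1, one_pos, le_rfl, fun τ hτ => hex τ ⟨hτ.1, hτ.2.le⟩⟩
    have hsub : Ico (0:ℝ) τ₁ ⊆ Icc 0 1 := fun τ hτ => ⟨hτ.1, hτ.2.le.trans hτ₁1⟩
    have h3 : ContinuousOn (fun τ => wn (γ τ) (V τ) (T τ) z₀) (Ico 0 τ₁) :=
      hW' _ _ fun τ hτ => ⟨hsub hτ, hout τ hτ⟩
    have hm : τ₁ / 2 ∈ Ico (0:ℝ) τ₁ := ⟨by linarith, by linarith⟩
    have h5 : wn (γ 0) (V 0) (T 0) z₀ = wn (γ (τ₁ / 2)) (V (τ₁ / 2)) (T (τ₁ / 2)) z₀ :=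
      P.const_of_int (f := fun τ => wn (γ τ) (V τ) (T τ) z₀) isPreconnected_Ico h3
        (fun τ hτ => h1 _ _ _ (hL τ (hsub hτ)) _ (hout τ hτ)) ⟨le_rfl, hτ₁0⟩ hm
    exact ⟨τ₁ / 2, by linarith, by linarith, hout _ hm, fun h => hz₀.2 (h5.trans h)⟩
  have hτI : τ ∈ Icc (0:ℝ) 1 := ⟨hτ0.le, hτ1⟩
  have hdr : Disjoint (range (γ 0)) (range (γ τ)) := by
    rw [Set.disjoint_left]
    rintro _ ⟨s, rfl⟩
    exact hdis' τ hτI 0 m0 hτ0.ne' s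
  rcases hT _ _ _ _ _ _ (hL 0 m0) (hL τ hτI) hdr with h | h | h
  · -- the first member is enclosed by the member `τ`
    right
    have e1 : wn (γ τ) (V τ) (T τ) (γ 0 0) ≠ 0 := (h (Or.inl ⟨0, rfl⟩)).2
    have e2 : wn (γ 1) (V 1) (T 1) (γ 0 0) ≠ 0 := by
      have hout : ∀ τ ∈ Ioc (0:ℝ) 1, γ 0 0 ∉ range (γ τ) := fun τ hτ =>
        hdis' τ ⟨hτ.1.le, hτ.2⟩ 0 m0 hτ.1.ne' 0
      have h3 : ContinuousOn (fun τ => wn (γ τ) (V τ) (T τ) (γ 0 0)) (Ioc 0 1) :=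
        hW' _ _ fun τ hτ => ⟨⟨hτ.1.le, hτ.2⟩, hout τ hτ⟩
      have h5 : wn (γ 1) (V 1) (T 1) (γ 0 0) = wn (γ τ) (V τ) (T τ) (γ 0 0) :=
        P.const_of_int (f := fun τ => wn (γ τ) (V τ) (T τ) (γ 0 0)) isPreconnected_Ioc h3
          (fun τ hτ => h1 _ _ _ (hL τ ⟨hτ.1.le, hτ.2⟩) _ (hout τ hτ)) ⟨one_pos, le_rfl⟩
          ⟨hτ0, hτ1⟩
      rw [h5]
      exact e1
    intro σ hσ
    rcases hσ.2.lt_or_eq with hσ1 | hσ1
    · refine key 1 m1 σ hσ hσ1.ne' ?_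
      rw [hrow 1 m1 (Ico 0 1) isPreconnected_Ico Ico_subset_Icc_self (fun h => lt_irrefl _ h.2)
        σ ⟨hσ.1, hσ1⟩ 0 ⟨le_rfl, one_pos⟩]
      exact e2
    · rw [hσ1]
      exact subset_union_left
  · -- the member `τ` is enclosed by the first member
    left
    have e1 : wn (γ 0) (V 0) (T 0) (γ τ 0) ≠ 0 := (h (Or.inl ⟨0, rfl⟩)).2
    intro σ hσ
    rcases hσ.1.lt_or_eq with hσ0 | hσ0
    · refine key 0 m0 σ hσ hσ0.ne ?_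
      rw [hrow 0 m0 (Ioc 0 1) isPreconnected_Ioc Ioc_subset_Icc_self (fun h => lt_irrefl _ h.1)
        σ ⟨hσ0, hσ.2⟩ τ ⟨hτ0, hτ1⟩]
      exact e1
    · rw [← hσ0]
      exact subset_union_left
  · exact absurd (Or.inr hzτ) (Set.disjoint_left.1 h (Or.inr hz₀))

end

end Pool.Agent.N224.Hil
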