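import Pool.Agent.N224.Hil.Defs0

set_option autoImplicit false

/-! Project HN (helper224), part T (helper327): the set enclosed by a closed curve; disjoint closed curves are
nested or enclose disjoint sets. -/

open Real Set MeasureTheory Topology Filter

namespace Pool.Agent.N224.Hil

noncomputable section

namespace T

theorem continuous_loop {γ V : ℝ → ℝ × ℝ} {T : ℝ} (h : Loop γ V T) : Continuous γ :=
  continuous_iff_continuousAt.2 fun t => (h.der t).continuousAt

theorem compact_range {γ V : ℝ → ℝ × ℝ} {T : ℝ} (h : Loop γ V T) : IsCompact (range γ) := by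
  have hp : Function.Periodic γ T := h.per
  rw [← hp.image_Icc h.pos 0]
  exact isCompact_Icc.image (continuous_loop h)

/-- the winding number is locally constant off the curve -/
theorem lc (h1 : S_W1) (h2 : S_W2) {γ V : ℝ → ℝ × ℝ} {T : ℝ} (h : Loop γ V T) {z : ℝ × ℝ} (hz : z ∉ range γ) :
    ∀ᶠ w in 𝓝 z, w ∉ range γ ∧ wn γ V T w = wn γ V T z := by
  have ho : (range γ)ᶜ ∈ 𝓝 z := (compact_range h).isClosed.isOpen_compl.mem_nhds hz
  have hc : ContinuousAt (wn γ V T) z := (h2 γ V T h).continuousAt ho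
  have he := Metric.tendsto_nhds.1 hc.tendsto 1 one_pos
  filter_upwards [ho, he] with w hw1 hw2
  refine ⟨hw1, ?_⟩
  obtain ⟨k, hk⟩ := h1 γ V T h w hw1
  obtain ⟨l, hl⟩ := h1 γ V T h z hz
  rw [hk, hl, Real.dist_eq] at hw2
  rw [hk, hl]
  have h3 : |k - l| < 1 := by
    have : ((|k - l| : ℤ) : ℝ) < 1 := by
      push_cast
      exact hw2
    exact_mod_cast this
  have h4 : k = l := by
    rw [abs_lt] at h3
    omega
  rw [h4]

theorem bounded (h3 : S_W3) {γ V : ℝ → ℝ × ℝ} {T : ℝ} (h : Loop γ V T) :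
    ∃ R : ℝ, fill γ V T ⊆ Metric.closedBall 0 R := by
  obtain ⟨R, hR⟩ := (compact_range h).isBounded.subset_closedBall 0
  have hR' : ∀ t, ‖γ t‖ ≤ R := by
    intro t
    have := hR (mem_range_self t)
    rwa [mem_closedBall_zero_iff] at this
  have hR0 : 0 ≤ R := (norm_nonneg _).trans (hR' 0)
  refine ⟨2 * R, ?_⟩
  intro z hz
  rw [mem_closedBall_zero_iff]
  rcases hz with ⟨t, rfl⟩ | ⟨hz1, hz2⟩
  · linarith [hR' t]
  · by_contra hlt
    push Not at hlt
    apply hz2
    refine h3 γ V T h z (-z) ?_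
    intro t
    have e1 : |(γ t).1| ≤ R := (norm_fst_le (γ t)).trans (hR' t)
    have e2 : |(γ t).2| ≤ R := (norm_snd_le (γ t)).trans (hR' t)
    have e3 : ‖z‖ = max |z.1| |z.2| := rfl
    have e4 : |z.1| ≤ ‖z‖ := norm_fst_le z
    have e5 : |z.2| ≤ ‖z‖ := norm_snd_le z
    have e6 : ‖z‖ ^ 2 ≤ z.1 ^ 2 + z.2 ^ 2 := by
      rcases max_choice |z.1| |z.2| with hm | hm
      · rw [e3, hm, sq_abs]; nlinarith [sq_nonneg z.2]
      · rw [e3, hm, sq_abs]; nlinarith [sq_nonneg z.1]
    have e7 : z.1 * (γ t).1 ≤ ‖z‖ * R := by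
      calc z.1 * (γ t).1 ≤ |z.1 * (γ t).1| := le_abs_self _
        _ = |z.1| * |(γ t).1| := abs_mul _ _
        _ ≤ ‖z‖ * R := mul_le_mul e4 e1 (abs_nonneg _) (norm_nonneg _)
    have e8 : z.2 * (γ t).2 ≤ ‖z‖ * R := by
      calc z.2 * (γ t).2 ≤ |z.2 * (γ t).2| := le_abs_self _
        _ = |z.2| * |(γ t).2| := abs_mul _ _
        _ ≤ ‖z‖ * R := mul_le_mul e5 e2 (abs_nonneg _) (norm_nonneg _)
    have e9 : 2 * (‖z‖ * R) < ‖z‖ ^ 2 := by nlinarith [norm_nonneg z]
    simp only [Prod.fst_neg, Prod.snd_neg]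
    nlinarith

/-- a bounded open set without boundary points is empty -/
theorem empty_of {O : Set (ℝ × ℝ)} {R : ℝ} (ho : IsOpen O) (hb : O ⊆ Metric.closedBall 0 R)
    (hf : ∀ p ∉ O, Oᶜ ∈ 𝓝 p) : O = ∅ := by
  have hcl : IsClosed O := by
    rw [← isOpen_compl_iff, isOpen_iff_mem_nhds]
    exact fun p hp => hf p hp
  rcases isClopen_iff.1 ⟨hcl, ho⟩ with h | h
  · exact h
  · exfalso
    rw [h] at hb
    exact NormedSpace.unbounded_univ ℝ (ℝ × ℝ) (Metric.isBounded_closedBall.subset hb)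

/-- the winding number about the points of another closed curve -/
theorem alt (h1 : S_W1) (h2 : S_W2) {γ V : ℝ → ℝ × ℝ} {T : ℝ} {δ U : ℝ → ℝ × ℝ} {S : ℝ} (h : Loop γ V T)
    (h' : Loop δ U S) (hd : Disjoint (range γ) (range δ)) :
    (∀ z ∈ range δ, wn γ V T z ≠ 0) ∨ (∀ z ∈ range δ, wn γ V T z = 0) := by
  have hn : ∀ t, δ t ∉ range γ := fun t ht => Set.disjoint_left.1 hd ht (mem_range_self t)
  have hlc : IsLocallyConstant (fun t => wn γ V T (δ t)) := by
    rw [IsLocallyConstant.iff_eventually_eq]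
    intro t
    exact ((continuous_loop h').continuousAt.tendsto.eventually (lc h1 h2 h (hn t))).mono fun s hs => hs.2
  have hc : ∀ t, wn γ V T (δ t) = wn γ V T (δ 0) := fun t => hlc.apply_eq_of_preconnectedSpace t 0
  by_cases h0 : wn γ V T (δ 0) = 0
  · right
    rintro _ ⟨t, rfl⟩
    rw [hc t, h0]
  · left
    rintro _ ⟨t, rfl⟩
    rw [hc t]
    exact h0

/-- the case in which `γ` is inside `δ` -/
theorem case2 (h1 : S_W1) (h2 : S_W2) (h3 : S_W3) (h0 : S_T0) {γ V : ℝ → ℝ × ℝ} {T : ℝ} {δ U : ℝ → ℝ × ℝ} {S : ℝ}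
    (h : Loop γ V T) (h' : Loop δ U S) (hd : Disjoint (range γ) (range δ))
    (ha : ∀ z ∈ range γ, wn δ U S z ≠ 0) (hb : ∀ z ∈ range δ, wn γ V T z = 0) :
    fill γ V T ⊆ ins δ U S := by
  obtain ⟨ho, hc⟩ := h0 γ V T h
  obtain ⟨ho', hc'⟩ := h0 δ U S h'
  obtain ⟨R, hR⟩ := bounded h3 h
  have hdl := Set.disjoint_left.1 hd
  have hCi : range γ ⊆ ins δ U S := fun z hz => ⟨hdl hz, ha z hz⟩
  have hO : ins γ V T \ fill δ U S = ∅ := by
    refine empty_of (R := R) (ho.sdiff hc'.isClosed) (fun z hz => hR (Or.inr hz.1)) ?_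
    intro p hp
    by_cases hp1 : p ∈ range γ
    · filter_upwards [ho'.mem_nhds (hCi hp1)] with w hw hwO
      exact hwO.2 (Or.inr hw)
    by_cases hp2 : p ∈ range δ
    · filter_upwards [lc h1 h2 h hp1] with w hw hwO
      apply hwO.1.2
      rw [hw.2]
      exact hb p hp2
    filter_upwards [lc h1 h2 h hp1, lc h1 h2 h' hp2] with w hw hw' hwO
    apply hp
    refine ⟨⟨hp1, ?_⟩, ?_⟩
    · rw [← hw.2]
      exact hwO.1.2
    · rintro (hpd | hpd)
      · exact hp2 hpd
      · apply hwO.2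
        refine Or.inr ⟨hw'.1, ?_⟩
        rw [hw'.2]
        exact hpd.2
  have hsub : ins γ V T ⊆ fill δ U S := sdiff_eq_empty.1 hO
  intro z hz
  rcases hz with hz | hz
  · exact hCi hz
  · rcases hsub hz with hz' | hz'
    · exact absurd (hb z hz') hz.2
    · exact hz'

end T

theorem t0 (h1 : S_W1) (h2 : S_W2) (h3 : S_W3) : S_T0 := by
  intro γ V P h
  constructor
  · rw [isOpen_iff_mem_nhds]
    rintro z ⟨hz1, hz2⟩
    filter_upwards [T.lc h1 h2 h hz1] with w hw
    exact ⟨hw.1, by rw [hw.2]; exact hz2⟩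
  · obtain ⟨R, hR⟩ := T.bounded h3 h
    refine Metric.isCompact_of_isClosed_isBounded ?_ (Metric.isBounded_closedBall.subset hR)
    rw [← isOpen_compl_iff, isOpen_iff_mem_nhds]
    intro z hz
    have hz1 : z ∉ range γ := fun hmem => hz (Or.inl hmem)
    have hz2 : wn γ V P z = 0 := by
      by_contra hne
      exact hz (Or.inr ⟨hz1, hne⟩)
    filter_upwards [T.lc h1 h2 h hz1] with w hw hwf
    rcases hwf with hwf | hwf
    · exact hw.1 hwf
    · exact hwf.2 (hw.2.trans hz2)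

theorem tt (h1 : S_W1) (h2 : S_W2) (h3 : S_W3) (h0 : S_T0) : S_TT := by
  intro γ V P δ U S h h' hd
  have hdl := Set.disjoint_left.1 hd
  have hdr := Set.disjoint_right.1 hd
  obtain ⟨ho, hc⟩ := h0 γ V P h
  obtain ⟨ho', hc'⟩ := h0 δ U S h'
  rcases T.alt h1 h2 h h' hd with hb | hb <;> rcases T.alt h1 h2 h' h hd.symm with ha | ha
  · -- impossible
    exfalso
    obtain ⟨R, hR⟩ := T.bounded h3 h
    obtain ⟨R', hR'⟩ := T.bounded h3 h'
    have e : fill γ V P ∪ fill δ U S = ins γ V P ∪ ins δ U S := by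
      ext z
      constructor
      · rintro ((hz | hz) | (hz | hz))
        · exact Or.inr ⟨hdl hz, ha z hz⟩
        · exact Or.inl hz
        · exact Or.inl ⟨hdr hz, hb z hz⟩
        · exact Or.inr hz
      · rintro (hz | hz)
        · exact Or.inl (Or.inr hz)
        · exact Or.inr (Or.inr hz)
    have hemp : ins γ V P ∪ ins δ U S = ∅ := by
      refine T.empty_of (R := max R R') (ho.union ho') ?_ ?_
      · rw [← e]
        rintro z (hz | hz)
        · exact Metric.closedBall_subset_closedBall (le_max_left _ _) (hR hz)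
        · exact Metric.closedBall_subset_closedBall (le_max_right _ _) (hR' hz)
      · intro p hp
        rw [← e] at hp ⊢
        exact (hc.union hc').isClosed.isOpen_compl.mem_nhds hp
    rw [← e] at hemp
    have : γ 0 ∈ fill γ V P ∪ fill δ U S := Or.inl (Or.inl (mem_range_self 0))
    rw [hemp] at this
    exact this
  · -- `δ` inside `γ`
    right; left
    exact T.case2 h1 h2 h3 h0 h' h hd.symm hb ha
  · left
    exact T.case2 h1 h2 h3 h0 h h' hd ha hb
  · right; right
    obtain ⟨R, hR⟩ := T.bounded h3 h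
    have hO : ins γ V P ∩ ins δ U S = ∅ := by
      refine T.empty_of (R := R) (ho.inter ho') (fun z hz => hR (Or.inr hz.1)) ?_
      intro p hp
      by_cases hp1 : p ∈ range γ
      · filter_upwards [T.lc h1 h2 h' (hdl hp1)] with w hw hwO
        apply hwO.2.2
        rw [hw.2]
        exact ha p hp1
      by_cases hp2 : p ∈ range δ
      · filter_upwards [T.lc h1 h2 h hp1] with w hw hwO
        apply hwO.1.2
        rw [hw.2]
        exact hb p hp2
      filter_upwards [T.lc h1 h2 h hp1, T.lc h1 h2 h' hp2] with w hw hw' hwO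
      apply hp
      refine ⟨⟨hp1, ?_⟩, ⟨hp2, ?_⟩⟩
      · rw [← hw.2]
        exact hwO.1.2
      · rw [← hw'.2]
        exact hwO.2.2
    rw [Set.disjoint_left]
    rintro z (hz | hz) (hz' | hz')
    · exact hdl hz hz'
    · exact hz'.2 (ha z hz)
    · exact hz.2 (hb z hz')
    · have : z ∈ ins γ V P ∩ ins δ U S := ⟨hz, hz'⟩
      rw [hO] at this
      exact this

end

end Pool.Agent.N224.Hil
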