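import Pool.Agent.N224.Hil.V3

/-! Part V: the variation of the angle of a polynomial vector field of degree `n` inside disjoint
closed orbits of a rotated field is at most quadratic in `n`. -/

open Real Set MeasureTheory Topology Filter
open scoped ENNReal

namespace Pool.Agent.N224.Hil

noncomputable section

open Pool.Agent.H709R2 (rot wedge field ClosedOrbit)
open Pool.Agent.H709U (rf Orb K4_hasFDerivAt K4_fderiv_field K4_mul K4_add K4_sub K4_degree)
open MvPolynomial (pderiv)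

/-- a closed disc lies in the strip of its boundary -/
lemma exists_mid (h3 : S_W3) {γ V : ℝ → ℝ × ℝ} {T : ℝ} (hL : Loop γ V T) (u : ℝ × ℝ) {D : ℝ}
    (hD : ∀ s t, |(u.1 * (γ s).1 + u.2 * (γ s).2) - (u.1 * (γ t).1 + u.2 * (γ t).2)| ≤ D) :
    ∃ l : ℝ, ∀ z ∈ fill γ V T, |u.1 * z.1 + u.2 * z.2 - l| ≤ D / 2 := by
  obtain ⟨f, hf⟩ : ∃ f : ℝ → ℝ, f = fun t => u.1 * (γ t).1 + u.2 * (γ t).2 := ⟨_, rfl⟩
  have hγ : Continuous γ := continuous_iff_continuousAt.2 fun t => (hL.der t).continuousAt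
  have hfc : Continuous f := by
    rw [hf]
    fun_prop
  have hfp : Function.Periodic f T := by
    intro t
    rw [hf]
    simp only
    rw [hL.per]
  have hD' : ∀ s t, |f s - f t| ≤ D := by
    intro s t
    rw [hf]
    exact hD s t
  have hne : (Icc 0 T).Nonempty := ⟨0, le_rfl, hL.pos.le⟩
  obtain ⟨a, -, ha⟩ := isCompact_Icc.exists_isMinOn hne hfc.continuousOn
  obtain ⟨b, -, hb⟩ := isCompact_Icc.exists_isMaxOn hne hfc.continuousOn
  have key : ∀ t, f a ≤ f t ∧ f t ≤ f b := by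
    intro t
    obtain ⟨y, hy, hty⟩ := hfp.exists_mem_Ico₀ hL.pos t
    rw [hty]
    have hy' : y ∈ Icc 0 T := ⟨hy.1, hy.2.le⟩
    exact ⟨ha hy', hb hy'⟩
  have hab := hD' b a
  rw [abs_le] at hab
  refine ⟨(f a + f b) / 2, fun z hz => ?_⟩
  have hz' : f a ≤ u.1 * z.1 + u.2 * z.2 ∧ u.1 * z.1 + u.2 * z.2 ≤ f b := by
    rcases hz with ⟨t, rfl⟩ | hz
    · have := key t
      rw [hf] at this ⊢
      exact this
    · constructor
      · by_contra hcon
        apply hz.2
        refine h3 γ V T hL z u fun t => ?_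
        have h1 := (key t).1
        have h2 : f t = u.1 * (γ t).1 + u.2 * (γ t).2 := by rw [hf]
        rw [not_le] at hcon
        linarith
      · by_contra hcon
        apply hz.2
        refine h3 γ V T hL z (-u) fun t => ?_
        have h1 := (key t).2
        have h2 : f t = u.1 * (γ t).1 + u.2 * (γ t).2 := by rw [hf]
        rw [not_le] at hcon
        simp only [Prod.fst_neg, Prod.snd_neg]
        linarith
  rw [abs_le]
  constructor <;> linarith [hz'.1, hz'.2]

variable {P Q : MvPolynomial (Fin 2) ℝ} {β : ℝ}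

section many

variable (hGr : S_G) (hJ : S_J) (hN : S_N) (h0 : S_T0) (hA1 : S_A1) (hA2 : S_A2')
variable {n : ℕ} (hP : P.totalDegree ≤ n) (hQ : Q.totalDegree ≤ n)
variable {k : ℕ} {γ : Fin k → ℝ → ℝ × ℝ} {T : Fin k → ℝ}
  (hγ : ∀ i, Orb (rf (field P Q) β) (γ i) (T i))
  (hdisj : ∀ i j, i ≠ j → Disjoint (fl P Q β (γ i) (T i)) (fl P Q β (γ j) (T j)))
include hGr hJ hN h0 hA1 hA2 hP hQ hγ hdisj

omit hGr hJ hN hA1 hA2 hP hQ in
lemma sum_fl (f : ℝ × ℝ → ℝ≥0∞) : ∑ i, ∫⁻ z in fl P Q β (γ i) (T i), f z =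
    ∫⁻ z in ⋃ i, fl P Q β (γ i) (T i), f z := by
  rw [lintegral_iUnion (fun i => (fl_compact h0 (hγ i)).measurableSet)
    (fun i j hij => hdisj i j hij), tsum_fintype]

omit hGr hJ hN in
lemma sum_Ph {δ ε : ℝ} (hδ : 0 < δ) (hε : 0 < ε) {A : MvPolynomial (Fin 2) ℝ} {m : ℕ}
    (hA : A.totalDegree ≤ m) :
    ∑ i, ENNReal.ofReal (∫ z in fl P Q β (γ i) (T i), |Ph P Q δ (gg A ε) z|) ≤
      ENNReal.ofReal (2 * π * (n * m) + 2 * π * n ^ 2) := by
  have h1 : ∀ i, ENNReal.ofReal (∫ z in fl P Q β (γ i) (T i), |Ph P Q δ (gg A ε) z|) =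
      ∫⁻ z in fl P Q β (γ i) (T i), ENNReal.ofReal |Ph P Q δ (gg A ε) z| := fun i =>
    ofReal_setIntegral (fl_compact h0 (hγ i)) (Ph_continuous P Q hδ (gg_contDiff _ _)).abs
      fun z => abs_nonneg _
  simp only [h1]
  rw [sum_fl h0 hγ hdisj]
  exact (setLIntegral_le_lintegral _ _).trans (gg_bound hA1 hA2 hP hQ hA hδ hε)

lemma sum_LK {δ : ℝ} (hδ : 0 < δ) : ∑ i, ENNReal.ofReal (LK P Q β δ (γ i) (T i)) ≤
    ENNReal.ofReal (8 * π * n ^ 2) := by
  have hπ := pi_pos
  refine eps_zero (c := ∑ i, 2 / π * T i / δ ^ 2) fun ε hε => ?_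
  calc ∑ i, ENNReal.ofReal (LK P Q β δ (γ i) (T i))
      ≤ ∑ i, (ENNReal.ofReal (∫ z in fl P Q β (γ i) (T i), |Ph P Q δ (gg (KK P Q β) ε) z|) +
        ENNReal.ofReal (ε * (2 / π * T i / δ ^ 2))) := by
        refine Finset.sum_le_sum fun i _ => ?_
        have hT := (hγ i).pos
        rw [← ENNReal.ofReal_add (integral_nonneg fun z => abs_nonneg _) (by positivity)]
        exact ENNReal.ofReal_le_ofReal (LK_le hGr hJ hN h0 hδ hε (hγ i))
    _ ≤ ENNReal.ofReal (8 * π * n ^ 2) + ENNReal.ofReal (ε * ∑ i, 2 / π * T i / δ ^ 2) := by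
        rw [Finset.sum_add_distrib]
        refine add_le_add ?_ ?_
        · refine (sum_Ph h0 hA1 hA2 hP hQ hγ hdisj hδ hε (deg_KK hP hQ β)).trans
            (ENNReal.ofReal_le_ofReal (le_of_eq ?_))
          push_cast
          ring
        · rw [Finset.mul_sum, ENNReal.ofReal_sum_of_nonneg]
          intro i _
          have hT := (hγ i).pos
          positivity
    _ = ENNReal.ofReal (8 * π * n ^ 2 + ε * ∑ i, 2 / π * T i / δ ^ 2) := by
        rw [ENNReal.ofReal_add (by positivity)]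
        refine mul_nonneg hε.le (Finset.sum_nonneg fun i _ => ?_)
        have hT := (hγ i).pos
        positivity

/-- one direction, regularised -/
lemma dir_delta {δ D : ℝ} (hδ : 0 < δ) (hD : 0 < D) (u : ℝ × ℝ) (l : Fin k → ℝ)
    (hl : ∀ i, ∀ z ∈ fl P Q β (γ i) (T i), |u.1 * z.1 + u.2 * z.2 - l i| ≤ D / 2)
    (A : MvPolynomial (Fin 2) ℝ) (hAd : A.totalDegree ≤ 2 * n)
    (hA : ∀ z, ev A z = u.1 * ev (NY P Q) z - u.2 * ev (NX P Q) z) :
    ∫⁻ z in ⋃ i, fl P Q β (γ i) (T i), ENNReal.ofReal (|ev A z| / sd P Q δ z) ≤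
      ENNReal.ofReal (7 * π * n ^ 2 * D) := by
  have hπ := pi_pos
  rw [← sum_fl h0 hγ hdisj]
  have c1 : Continuous fun z => |ev A z| / sd P Q δ z :=
    (ev_continuous A).abs.div (sd_contDiff P Q (m := 0)).continuous
      fun z => (sd_pos P Q hδ z).ne'
  have h1 : ∀ i, ∫⁻ z in fl P Q β (γ i) (T i), ENNReal.ofReal (|ev A z| / sd P Q δ z) =
      ENNReal.ofReal (∫ z in fl P Q β (γ i) (T i), |ev A z| / sd P Q δ z) := fun i =>
    (ofReal_setIntegral (fl_compact h0 (hγ i)) c1 fun z =>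
      div_nonneg (abs_nonneg _) (sd_pos P Q hδ z).le).symm
  simp only [h1]
  refine eps_zero (c := ∑ i, 2 / π / δ ^ 2 * volume.real (fl P Q β (γ i) (T i))) fun ε hε => ?_
  calc ∑ i, ENNReal.ofReal (∫ z in fl P Q β (γ i) (T i), |ev A z| / sd P Q δ z)
      ≤ ∑ i, (ENNReal.ofReal (D / 2) * (ENNReal.ofReal (LK P Q β δ (γ i) (T i)) +
          ENNReal.ofReal (∫ z in fl P Q β (γ i) (T i), |Ph P Q δ (gg A ε) z|)) +
        ENNReal.ofReal (ε * (2 / π / δ ^ 2 * volume.real (fl P Q β (γ i) (T i))))) := by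
        refine Finset.sum_le_sum fun i _ => ?_
        have hLK : 0 ≤ LK P Q β δ (γ i) (T i) :=
          intervalIntegral.integral_nonneg (hγ i).pos.le fun t _ =>
            div_nonneg (abs_nonneg _) (sd_pos P Q hδ _).le
        have hPh : 0 ≤ ∫ z in fl P Q β (γ i) (T i), |Ph P Q δ (gg A ε) z| :=
          integral_nonneg fun z => abs_nonneg _
        have hv : 0 ≤ ε * (2 / π / δ ^ 2 * volume.real (fl P Q β (γ i) (T i))) := by
          have : 0 ≤ volume.real (fl P Q β (γ i) (T i)) := measureReal_nonneg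
          positivity
        rw [← ENNReal.ofReal_add hLK hPh, ← ENNReal.ofReal_mul (by positivity),
          ← ENNReal.ofReal_add (by positivity) hv]
        exact ENNReal.ofReal_le_ofReal (inside_le hGr hJ hN h0 hδ hε hD (hγ i) u (l i) (hl i) A hA)
    _ ≤ ENNReal.ofReal (D / 2) * (ENNReal.ofReal (8 * π * n ^ 2) +
          ENNReal.ofReal (6 * π * n ^ 2)) +
          ENNReal.ofReal (ε * ∑ i, 2 / π / δ ^ 2 * volume.real (fl P Q β (γ i) (T i))) := by
        rw [Finset.sum_add_distrib, ← Finset.mul_sum, Finset.sum_add_distrib]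
        refine add_le_add (mul_le_mul_right (add_le_add
          (sum_LK hGr hJ hN h0 hA1 hA2 hP hQ hγ hdisj hδ) ?_) _) ?_
        · refine (sum_Ph h0 hA1 hA2 hP hQ hγ hdisj hδ hε hAd).trans
            (ENNReal.ofReal_le_ofReal (le_of_eq ?_))
          push_cast
          ring
        · rw [Finset.mul_sum, ENNReal.ofReal_sum_of_nonneg]
          intro i _
          have : 0 ≤ volume.real (fl P Q β (γ i) (T i)) := measureReal_nonneg
          positivity
    _ = ENNReal.ofReal (7 * π * n ^ 2 * D +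
          ε * ∑ i, 2 / π / δ ^ 2 * volume.real (fl P Q β (γ i) (T i))) := by
        rw [← ENNReal.ofReal_add (by positivity) (by positivity),
          ← ENNReal.ofReal_mul (by positivity), ENNReal.ofReal_add (by positivity)]
        · congr 2
          ring
        · refine mul_nonneg hε.le (Finset.sum_nonneg fun i _ => ?_)
          have : 0 ≤ volume.real (fl P Q β (γ i) (T i)) := measureReal_nonneg
          positivity

/-- one direction -/
lemma dir_le {D : ℝ} (hD : 0 < D) (u : ℝ × ℝ) (l : Fin k → ℝ)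
    (hl : ∀ i, ∀ z ∈ fl P Q β (γ i) (T i), |u.1 * z.1 + u.2 * z.2 - l i| ≤ D / 2)
    (A : MvPolynomial (Fin 2) ℝ) (hAd : A.totalDegree ≤ 2 * n)
    (hA : ∀ z, ev A z = u.1 * ev (NY P Q) z - u.2 * ev (NX P Q) z) :
    ∫⁻ z in ⋃ i, fl P Q β (γ i) (T i), ENNReal.ofReal (|ev A z| / ev (SQ P Q) z) ≤
      ENNReal.ofReal (7 * π * n ^ 2 * D) := by
  have hlim : ∀ z, Tendsto (fun j : ℕ => ENNReal.ofReal (|ev A z| / sd P Q (1 / ((j : ℝ) + 1)) z))
      atTop (𝓝 (ENNReal.ofReal (|ev A z| / ev (SQ P Q) z))) := by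
    intro z
    refine ENNReal.tendsto_ofReal ?_
    rcases eq_or_lt_of_le (SQ_nonneg P Q z) with h | h
    · have hPQ : ev P z = 0 ∧ ev Q z = 0 := by
        have : ev P z * ev P z + ev Q z * ev Q z = 0 := by
          rw [h]; simp [SQ]
        constructor <;> nlinarith [mul_self_nonneg (ev P z), mul_self_nonneg (ev Q z)]
      have hx : ev (NX P Q) z = 0 := by simp [NX, hPQ.1, hPQ.2]
      have hy : ev (NY P Q) z = 0 := by simp [NY, hPQ.1, hPQ.2]
      have hAz : ev A z = 0 := by rw [hA, hx, hy]; ring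
      simp only [hAz, abs_zero, zero_div]
      exact tendsto_const_nhds
    · refine Tendsto.div tendsto_const_nhds ?_ h.ne'
      have h1 : Tendsto (fun j : ℕ => ev (SQ P Q) z + (1 / ((j : ℝ) + 1)) ^ 2) atTop
          (𝓝 (ev (SQ P Q) z + 0 ^ 2)) :=
        tendsto_const_nhds.add (tendsto_one_div_add_atTop_nhds_zero_nat.pow 2)
      simpa [sd] using h1
  calc ∫⁻ z in ⋃ i, fl P Q β (γ i) (T i), ENNReal.ofReal (|ev A z| / ev (SQ P Q) z)
      = ∫⁻ z in ⋃ i, fl P Q β (γ i) (T i), liminf (fun j : ℕ =>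
          ENNReal.ofReal (|ev A z| / sd P Q (1 / ((j : ℝ) + 1)) z)) atTop := by
        refine lintegral_congr fun z => ?_
        rw [(hlim z).liminf_eq]
    _ ≤ liminf (fun j : ℕ => ∫⁻ z in ⋃ i, fl P Q β (γ i) (T i),
          ENNReal.ofReal (|ev A z| / sd P Q (1 / ((j : ℝ) + 1)) z)) atTop := by
        refine lintegral_liminf_le fun j => ?_
        have a1 := (ev_continuous A).measurable
        have a2 := (sd_contDiff P Q (δ := 1 / ((j : ℝ) + 1)) (m := 0)).continuous.measurable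
        fun_prop
    _ ≤ ENNReal.ofReal (7 * π * n ^ 2 * D) := by
        have h2 : ∀ j : ℕ, ∫⁻ z in ⋃ i, fl P Q β (γ i) (T i),
          ENNReal.ofReal (|ev A z| / sd P Q (1 / ((j : ℝ) + 1)) z) ≤
            ENNReal.ofReal (7 * π * n ^ 2 * D) := fun j =>
          dir_delta hGr hJ hN h0 hA1 hA2 hP hQ hγ hdisj (by positivity) hD u l hl A hAd hA
        refine (liminf_le_liminf (Eventually.of_forall h2)).trans ?_
        simp

end many

/-- **V** -/
theorem v (hGr : S_G) (h3 : S_W3) (hJ : S_J) (hN : S_N) (h0 : S_T0) (hA1 : S_A1) (hA2 : S_A2') :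
    S_V' := by
  intro n P Q hP hQ β D hD k γ T hγ hdisj hbox
  have hdisj' : ∀ i j, i ≠ j → Disjoint (fl P Q β (γ i) (T i)) (fl P Q β (γ j) (T j)) := hdisj
  have e1 : ∀ z, ker (field P Q) z = ENNReal.ofReal (|ev (NX P Q) z| / ev (SQ P Q) z) +
      ENNReal.ofReal (|ev (NY P Q) z| / ev (SQ P Q) z) := by
    intro z
    rw [ev_NX, ev_NY, ev_SQ]
    rfl
  simp only [e1]
  have hm : Measurable fun z => ENNReal.ofReal (|ev (NX P Q) z| / ev (SQ P Q) z) := by
    have a1 := (ev_continuous (NX P Q)).measurable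
    have a2 := (ev_continuous (SQ P Q)).measurable
    fun_prop
  rw [lintegral_add_left hm]
  have hπ := pi_pos
  have h14 : (14 * π * n ^ 2 * D) = 7 * π * n ^ 2 * D + 7 * π * n ^ 2 * D := by ring
  rw [h14, ENNReal.ofReal_add (by positivity) (by positivity)]
  refine add_le_add ?_ ?_
  · -- the `x` direction
    have hmid : ∀ i, ∃ l : ℝ, ∀ z ∈ fl P Q β (γ i) (T i),
        |((0:ℝ), (-1:ℝ)).1 * z.1 + ((0:ℝ), (-1:ℝ)).2 * z.2 - l| ≤ D / 2 := by
      intro i
      refine exists_mid h3 (orb_loop (hγ i)) _ fun s t => ?_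
      have := (hbox i t s).2
      simp only [zero_mul, zero_add, neg_mul, one_mul]
      rwa [show -(γ i s).2 - -(γ i t).2 = (γ i t).2 - (γ i s).2 by ring]
    choose l hl using hmid
    refine dir_le hGr hJ hN h0 hA1 hA2 hP hQ hγ hdisj' hD _ l hl (NX P Q) (deg_NX hP hQ)
      fun z => ?_
    simp
  · -- the `y` direction
    have hmid : ∀ i, ∃ l : ℝ, ∀ z ∈ fl P Q β (γ i) (T i),
        |((1:ℝ), (0:ℝ)).1 * z.1 + ((1:ℝ), (0:ℝ)).2 * z.2 - l| ≤ D / 2 := by
      intro i
      refine exists_mid h3 (orb_loop (hγ i)) _ fun s t => ?_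
      have := (hbox i s t).1
      simpa using this
    choose l hl using hmid
    refine dir_le hGr hJ hN h0 hA1 hA2 hP hQ hγ hdisj' hD _ l hl (NY P Q) (deg_NY hP hQ)
      fun z => ?_
    simp

end

end Pool.Agent.N224.Hil
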