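import Pool.Agent.N224.Hil.Defs0

/-! Project HN (helper224), part W (helper887): winding numbers of closed curves. -/

open Real Set MeasureTheory Topology Filter
open scoped ENNReal

namespace Pool.Agent.N224.Hil

noncomputable section

open Pool.Agent.H709R2 (rot wedge field)

namespace W

/-- complex coordinates -/
def cx : (ℝ × ℝ) →L[ℝ] ℂ := (Complex.equivRealProdCLM.symm : (ℝ × ℝ) →L[ℝ] ℂ)

theorem cx_re (v : ℝ × ℝ) : (cx v).re = v.1 := by
  simp [cx]

theorem cx_im (v : ℝ × ℝ) : (cx v).im = v.2 := by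
  simp [cx]

theorem cx_ne {v : ℝ × ℝ} (h : v ≠ 0) : cx v ≠ 0 := by
  intro h0
  apply h
  have h1 := congrArg Complex.re h0
  have h2 := congrArg Complex.im h0
  rw [cx_re, Complex.zero_re] at h1
  rw [cx_im, Complex.zero_im] at h2
  exact Prod.ext h1 h2

theorem integrand (a v : ℝ × ℝ) : wedge a v / H709R2.sq a = (cx v / cx a).im := by
  rw [Complex.div_im, cx_re, cx_im, cx_re, cx_im, Complex.normSq_apply, cx_re, cx_im]
  unfold wedge H709R2.sq
  rw [← sub_div]
  congr 1
  · ring
  · ring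

variable {γ V : ℝ → ℝ × ℝ} {T : ℝ}

theorem sub_ne {z : ℝ × ℝ} (hz : z ∉ range γ) (t : ℝ) : γ t - z ≠ 0 := fun h =>
  hz ⟨t, sub_eq_zero.1 h⟩

theorem hasDeriv (hL : Loop γ V T) (z : ℝ × ℝ) (t : ℝ) :
    HasDerivAt (fun t => cx (γ t - z)) (cx (V t)) t :=
  cx.hasFDerivAt.comp_hasDerivAt t ((hL.der t).sub_const z)

theorem gcont (hL : Loop γ V T) : Continuous γ :=
  continuous_iff_continuousAt.2 fun t => (hL.der t).continuousAt

theorem quot_cont (hL : Loop γ V T) {z : ℝ × ℝ} (hz : z ∉ range γ) :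
    Continuous fun t => cx (V t) / cx (γ t - z) :=
  (cx.continuous.comp hL.cont).div (cx.continuous.comp ((gcont hL).sub continuous_const))
    fun t => cx_ne (sub_ne hz t)

theorem wn_eq (hL : Loop γ V T) {z : ℝ × ℝ} (hz : z ∉ range γ) :
    wn γ V T z = (2 * π)⁻¹ * (∫ t in (0 : ℝ)..T, cx (V t) / cx (γ t - z)).im := by
  unfold wn
  congr 1
  have h1 := Complex.imCLM.intervalIntegral_comp_comm
    ((quot_cont hL hz).intervalIntegrable (μ := volume) 0 T)
  rw [Complex.imCLM_apply] at h1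
  rw [← h1]
  refine intervalIntegral.integral_congr fun t _ => ?_
  simp only [Complex.imCLM_apply]
  exact integrand _ _

theorem per0 (hL : Loop γ V T) : γ T = γ 0 := by
  have := hL.per 0
  rwa [zero_add] at this

theorem int1 (hL : Loop γ V T) {z : ℝ × ℝ} (hz : z ∉ range γ) :
    ∃ n : ℤ, ∫ t in (0 : ℝ)..T, cx (V t) / cx (γ t - z) = n * (2 * π * Complex.I) := by
  have hc := quot_cont hL hz
  set G : ℝ → ℂ := fun t => ∫ s in (0 : ℝ)..t, cx (V s) / cx (γ s - z) with hGd
  have hG : ∀ t, HasDerivAt G (cx (V t) / cx (γ t - z)) t := fun t =>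
    (hc.integral_hasStrictDerivAt 0 t).hasDerivAt
  have hH : ∀ t, HasDerivAt (fun t => cx (γ t - z) * Complex.exp (-(G t))) 0 t := by
    intro t
    have h1 := (hasDeriv hL z t).mul ((hG t).neg.cexp)
    refine h1.congr_deriv ?_
    have h2 := cx_ne (sub_ne hz t)
    field_simp
    ring
  have h3 : ∀ t, cx (γ t - z) * Complex.exp (-(G t)) = cx (γ 0 - z) * Complex.exp (-(G 0)) :=
    fun t => is_const_of_deriv_eq_zero (fun t => (hH t).differentiableAt)
      (fun t => (hH t).deriv) t 0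
  have h4 := h3 T
  have h5 : G 0 = 0 := by
    simp only [hGd, intervalIntegral.integral_same]
  rw [per0 hL, h5, neg_zero, Complex.exp_zero] at h4
  have h6 : Complex.exp (-(G T)) = 1 := mul_left_cancel₀ (cx_ne (sub_ne hz 0)) h4
  obtain ⟨n, hn⟩ := Complex.exp_eq_one_iff.1 h6
  refine ⟨-n, ?_⟩
  have h7 : G T = -(n * (2 * π * Complex.I)) := by rw [← hn, neg_neg]
  rw [show (∫ t in (0 : ℝ)..T, cx (V t) / cx (γ t - z)) = G T from rfl, h7]
  push_cast
  ring

theorem range_eq (hL : Loop γ V T) : range γ = γ '' Icc 0 T := by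
  apply Subset.antisymm
  · rintro _ ⟨t, rfl⟩
    have hp : Function.Periodic γ T := hL.per
    obtain ⟨s, hs, he⟩ := hp.exists_mem_Ico₀ hL.pos t
    exact ⟨s, ⟨hs.1, hs.2.le⟩, he.symm⟩
  · rintro _ ⟨t, _, rfl⟩
    exact ⟨t, rfl⟩

theorem range_closed (hL : Loop γ V T) : IsClosed (range γ) := by
  rw [range_eq hL]
  exact (isCompact_Icc.image (gcont hL)).isClosed

end W

open W

/-- **W1.** -/
theorem w1 : S_W1 := by
  intro γ V T hL z hz
  obtain ⟨n, hn⟩ := int1 hL hz
  refine ⟨n, ?_⟩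
  rw [wn_eq hL hz, hn]
  have hpi := Real.pi_pos
  have h1 : ((n : ℂ) * (2 * π * Complex.I)).im = n * (2 * π) := by
    simp
  rw [h1]
  field_simp

/-- **W2.** -/
theorem w2 : S_W2 := by
  intro γ V T hL z₀ hz₀
  apply ContinuousAt.continuousWithinAt
  have hopen : IsOpen (range γ)ᶜ := (range_closed hL).isOpen_compl
  have hc : ContinuousOn (fun p : (ℝ × ℝ) × ℝ => wedge (γ p.2 - p.1) (V p.2) /
      H709R2.sq (γ p.2 - p.1)) ((range γ)ᶜ ×ˢ univ) := by
    have hg := gcont hL
    have hV := hL.cont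
    have e1 : Continuous fun p : (ℝ × ℝ) × ℝ => γ p.2 - p.1 :=
      (hg.comp continuous_snd).sub continuous_fst
    have e2 : Continuous fun p : (ℝ × ℝ) × ℝ => V p.2 := hV.comp continuous_snd
    refine ContinuousOn.div ?_ ?_ ?_
    · apply Continuous.continuousOn
      unfold wedge
      exact ((continuous_fst.comp e1).mul (continuous_snd.comp e2)).sub
        ((continuous_snd.comp e1).mul (continuous_fst.comp e2))
    · apply Continuous.continuousOn
      unfold H709R2.sq
      exact ((continuous_fst.comp e1).pow 2).add ((continuous_snd.comp e1).pow 2)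
    · rintro ⟨z, t⟩ ⟨hz, _⟩ h0
      apply sub_ne (γ := γ) (z := z) hz t
      unfold H709R2.sq at h0
      have h1 : (γ t - z).1 = 0 := by nlinarith [sq_nonneg (γ t - z).1, sq_nonneg (γ t - z).2]
      have h2 : (γ t - z).2 = 0 := by nlinarith [sq_nonneg (γ t - z).1, sq_nonneg (γ t - z).2]
      exact Prod.ext h1 h2
  obtain ⟨ε, hε, hball⟩ := Metric.nhds_basis_closedBall.mem_iff.1 (hopen.mem_nhds hz₀)
  have hK : IsCompact (Metric.closedBall z₀ ε ×ˢ Icc 0 T) :=
    (isCompact_closedBall z₀ ε).prod isCompact_Icc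
  obtain ⟨C, hC⟩ := hK.exists_bound_of_continuousOn
    (hc.mono (Set.prod_mono hball (subset_univ _)))
  unfold wn
  refine ContinuousAt.mul continuousAt_const ?_
  refine intervalIntegral.continuousAt_of_dominated_interval (bound := fun _ => C) ?_ ?_ ?_ ?_
  · filter_upwards [hopen.mem_nhds hz₀] with z hz
    have h1 : Continuous fun t => wedge (γ t - z) (V t) / H709R2.sq (γ t - z) := by
      have h2 : ContinuousOn (fun t : ℝ => wedge (γ t - z) (V t) / H709R2.sq (γ t - z)) univ :=
        hc.comp (f := fun t : ℝ => (z, t)) (by fun_prop) fun t _ => ⟨hz, mem_univ _⟩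
      exact continuousOn_univ.1 h2
    exact h1.aestronglyMeasurable
  · filter_upwards [Metric.closedBall_mem_nhds z₀ hε] with z hz
    refine ae_of_all _ fun t ht => ?_
    rw [uIoc_of_le hL.pos.le] at ht
    exact hC (z, t) ⟨hz, ht.1.le, ht.2⟩
  · exact intervalIntegrable_const
  · refine ae_of_all _ fun t _ => ?_
    have h1 : ContinuousAt (fun p : (ℝ × ℝ) × ℝ => wedge (γ p.2 - p.1) (V p.2) /
        H709R2.sq (γ p.2 - p.1)) (z₀, t) :=
      hc.continuousAt ((hopen.prod isOpen_univ).mem_nhds ⟨hz₀, mem_univ _⟩)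
    exact h1.comp (f := fun z : ℝ × ℝ => (z, t)) (by fun_prop)

/-- **W3.** -/
theorem w3 : S_W3 := by
  intro γ V T hL z u hu
  have hz : z ∉ range γ := by
    rintro ⟨t, rfl⟩
    have := hu t
    simp at this
  rw [wn_eq hL hz]
  set c : ℂ := (starRingEnd ℂ) (cx u) with hcd
  have hre : ∀ t, 0 < (c * cx (γ t - z)).re := by
    intro t
    rw [Complex.mul_re, hcd, Complex.conj_re, Complex.conj_im, cx_re, cx_im, cx_re, cx_im]
    have := hu t
    simp only [Prod.fst_sub, Prod.snd_sub]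
    linarith
  have hc0 : c ≠ 0 := by
    intro h0
    have := hre 0
    rw [h0, zero_mul, Complex.zero_re] at this
    exact lt_irrefl _ this
  have hd : ∀ t, HasDerivAt (fun t => Complex.log (c * cx (γ t - z)))
      (cx (V t) / cx (γ t - z)) t := by
    intro t
    have h1 := ((hasDeriv hL z t).const_mul c).clog_real (Complex.mem_slitPlane_iff.2
      (Or.inl (hre t)))
    refine h1.congr_deriv ?_
    rw [mul_div_mul_left _ _ hc0]
  have h2 := intervalIntegral.integral_eq_sub_of_hasDerivAt (a := (0 : ℝ)) (b := T)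
    (fun t _ => hd t) ((quot_cont hL hz).intervalIntegrable _ _)
  rw [h2, per0 hL, sub_self, Complex.zero_im, mul_zero]

end

end Pool.Agent.N224.Hil
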