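import Pool.Agent.N224.Hil.Defs0

/-! Project HN: the winding number is continuous in families of closed curves. -/

open Real Set MeasureTheory Topology Filter

namespace Pool.Agent.N224.Hil

noncomputable section

open Pool.Agent.H709R2 (rot wedge field)

/-- the winding number is continuous in families -/
theorem w4 : S_W4 := by
  intro γ V T _ hγ hV hT
  unfold wn
  refine ContinuousOn.mul continuousOn_const ?_
  rw [continuousOn_iff_continuous_domRestrict]
  set S : Set (ℝ × (ℝ × ℝ)) := {q | q.1 ∈ Icc 0 1 ∧ q.2 ∉ range (γ q.1)} with hS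
  have c1 : Continuous fun p : ↥S × ℝ => γ p.1.1.1 p.2 := by
    have h : Continuous fun p : ↥S × ℝ => ((p.1.1.1, p.2) : ℝ × ℝ) := by fun_prop
    exact hγ.comp_continuous h fun p => ⟨p.1.2.1, mem_univ _⟩
  have c2 : Continuous fun p : ↥S × ℝ => V p.1.1.1 p.2 := by
    have h : Continuous fun p : ↥S × ℝ => ((p.1.1.1, p.2) : ℝ × ℝ) := by fun_prop
    exact hV.comp_continuous h fun p => ⟨p.1.2.1, mem_univ _⟩
  have c3 : Continuous fun p : ↥S × ℝ => γ p.1.1.1 p.2 - p.1.1.2 :=
    c1.sub (by fun_prop)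
  have c4 : Continuous (Function.uncurry fun (q : ↥S) (t : ℝ) =>
      wedge (γ q.1.1 t - q.1.2) (V q.1.1 t) / H709R2.sq (γ q.1.1 t - q.1.2)) := by
    refine Continuous.div ?_ ?_ ?_
    · unfold H709R2.wedge
      exact (c3.fst.mul c2.snd).sub (c3.snd.mul c2.fst)
    · unfold H709R2.sq
      exact (c3.fst.pow 2).add (c3.snd.pow 2)
    · intro p
      have hne : γ p.1.1.1 p.2 - p.1.1.2 ≠ 0 := by
        rw [sub_ne_zero]
        intro h
        exact p.1.2.2 ⟨p.2, h⟩
      exact (H709R2.sq_pos hne).ne'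
  have c5 : Continuous fun q : ↥S => T q.1.1 := by
    have h : Continuous fun q : ↥S => (q.1.1 : ℝ) := by fun_prop
    exact hT.comp_continuous h fun q => q.2.1
  exact intervalIntegral.continuous_parametric_intervalIntegral_of_continuous
    (f := fun (q : ↥S) (t : ℝ) =>
      wedge (γ q.1.1 t - q.1.2) (V q.1.1 t) / H709R2.sq (γ q.1.1 t - q.1.2)) c4 c5

end

end Pool.Agent.N224.Hil
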