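import Pool.Agent.N224.Hil.M3
import Pool.Agent.N224.Hil.V
import Pool.Agent.N224.Hil.W
import Pool.Agent.N224.Hil.W4
import Pool.Agent.N224.Hil.J
import Pool.Agent.N224.Hil.G
import Pool.Agent.N224.Hil.NI
import Pool.Agent.N224.Hil.T
import Pool.Agent.N224.Hil.P
import Pool.Agent.N224.Hil.A1
import Pool.Agent.N224.Hil.LB

/-! Project HN: the parts put together. -/

open Real Set MeasureTheory Topology Filter
open scoped ENNReal

namespace Pool.Agent.N224.Hil

open Pool.Agent.H709R2 (field)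
open Pool.Agent.W960.HP (PersG)

theorem allT0 : S_T0 := t0 w1 w2 w3

theorem allTT : S_TT := tt w1 w2 w3 allT0

theorem allJ : S_J := j w1 w2 w3

theorem allG : S_G := g w1 w2 w3 n

theorem allP : S_P := p w1 w2 w4 allJ i allT0 allTT

theorem allV : S_V' := v allG w3 allJ n allT0 a1 a2'

theorem scale_bound {m : ℕ} {P Q : MvPolynomial (Fin 2) ℝ} (hP : P.totalDegree ≤ m)
    (hQ : Q.totalDegree ≤ m) {η : ℝ} (hη : 0 < η) (hη' : η < π) {l d : ℝ} (hl : 0 < l)
    (hd : 0 < d) :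
    ({C | d ≤ diam C ∧ diam C ≤ 2 * d ∧
      (PersG (field P Q) (fun _ D => diam C / l ≤ diam D ∧ diam D ≤ l * diam C) η C ∨
      PersG (field P Q) (fun _ D => diam C / l ≤ diam D ∧ diam D ≤ l * diam C) (-η) C)}.encard :
        ℝ≥0∞) ≤ ENNReal.ofReal (28 * π * l * (1 + l) * m ^ 2 / η) :=
  card_scale allV allT0 allTT i allP hP hQ hη hη' hl hd

theorem main_bound {m : ℕ} {P Q : MvPolynomial (Fin 2) ℝ} (hP : P.totalDegree ≤ m)
    (hQ : Q.totalDegree ≤ m) {η : ℝ} (hη : 0 < η) (hη' : η < π) {l r R : ℝ} (hl : 0 < l)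
    (hr : 0 < r) (hR : r ≤ R) :
    ({C | r ≤ diam C ∧ diam C ≤ R ∧
      (PersG (field P Q) (fun _ D => diam C / l ≤ diam D ∧ diam D ≤ l * diam C) η C ∨
      PersG (field P Q) (fun _ D => diam C / l ≤ diam D ∧ diam D ≤ l * diam C) (-η) C)}.encard :
        ℝ≥0∞) ≤ ENNReal.ofReal (28 * π * l * (1 + l) * m ^ 2 * (1 + Real.logb 2 (R / r)) / η) :=
  card_main allV allT0 allTT i allP hP hQ hη hη' hl hr hR

end Pool.Agent.N224.Hil
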