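import Pool.Agent.N224.Hil.Defs0
import Pool.Agent.W960.HP.Pos
import Pool.Agent.H709U.TopR

/-! Project HN (helper224), definitions and statements of the parts, second file: closed orbits. -/

open Real Set MeasureTheory Topology Filter
open scoped ENNReal

namespace Pool.Agent.N224.Hil

noncomputable section

open Pool.Agent.H709R2 (rot wedge field ClosedOrbit)
open Pool.Agent.H709U (rf Orb)
open Pool.Agent.H709Q (Maj)
open Pool.Agent.W960.HP (Path Good)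

/-- I: the set enclosed by a closed orbit does not depend on the parametrisation -/
def S_I : Prop := ∀ Y : ℝ × ℝ → ℝ × ℝ, ContDiff ℝ 2 Y → ∀ (γ δ : ℝ → ℝ × ℝ) (T S : ℝ),
  0 < T → (∀ t, HasDerivAt γ (Y (γ t)) t) → (∀ t, γ (t + T) = γ t) → (∃ s t, γ s ≠ γ t) →
  0 < S → (∀ t, HasDerivAt δ (Y (δ t)) t) → (∀ t, δ (t + S) = δ t) → (∃ s t, δ s ≠ δ t) →
  range γ = range δ → fill γ (fun t => Y (γ t)) T = fill δ (fun t => Y (δ t)) S

/-- P: along a path of closed orbits all members are enclosed by the first one or all are enclosed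
by the last one -/
def S_P : Prop := ∀ (X : ℝ → ℝ × ℝ → ℝ × ℝ) (η : ℝ) (a : ℝ → ℝ) (γ : ℝ → ℝ → ℝ × ℝ) (T : ℝ → ℝ),
  Good X η → 0 < η → Path X η a γ T →
  (∀ τ ∈ Icc (0:ℝ) 1, range (γ τ) ⊆ fill (γ 0) (fun t => X (a 0) (γ 0 t)) (T 0)) ∨
  (∀ τ ∈ Icc (0:ℝ) 1, range (γ τ) ⊆ fill (γ 1) (fun t => X (a 1) (γ 1 t)) (T 1))

/-! ### V: the variation of the angle inside closed orbits -/

/-- the density `|∂ₓ θ| + |∂_y θ|` of the variation of the angle of the field -/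
def ker (F : ℝ × ℝ → ℝ × ℝ) (z : ℝ × ℝ) : ℝ≥0∞ :=
  ENNReal.ofReal (|wedge (F z) (fderiv ℝ F z (1, 0))| / H709R2.sq (F z)) +
    ENNReal.ofReal (|wedge (F z) (fderiv ℝ F z (0, 1))| / H709R2.sq (F z))

/-- V -/
def S_V : Prop := ∀ (n : ℕ) (P Q : MvPolynomial (Fin 2) ℝ), P.totalDegree ≤ n →
  Q.totalDegree ≤ n → IsRelPrime P Q → ∀ (β D : ℝ), 0 < D → ∀ (k : ℕ) (γ : Fin k → ℝ → ℝ × ℝ)
  (T : Fin k → ℝ), (∀ i, Orb (rf (field P Q) β) (γ i) (T i)) →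
  (∀ i j, i ≠ j → Disjoint (fill (γ i) (fun t => rf (field P Q) β (γ i t)) (T i))
    (fill (γ j) (fun t => rf (field P Q) β (γ j t)) (T j))) →
  (∀ i s t, |(γ i s).1 - (γ i t).1| ≤ D ∧ |(γ i s).2 - (γ i t).2| ≤ D) →
  ∫⁻ z in ⋃ i, fill (γ i) (fun t => rf (field P Q) β (γ i t)) (T i), ker (field P Q) z ≤
    ENNReal.ofReal (14 * π * n ^ 2 * D)

/-! ### LB: the lower bound -/

/-- the Euclidean diameter of a subset of the plane -/
def diam (C : Set (ℝ × ℝ)) : ℝ :=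
  sSup {d | ∃ x ∈ C, ∃ y ∈ C, d = √((x.1 - y.1) ^ 2 + (x.2 - y.2) ^ 2)}

/-- `C` is isolated among the closed orbits -/
def Isolated (F : ℝ × ℝ → ℝ × ℝ) (C : Set (ℝ × ℝ)) : Prop :=
  ∃ U : Set (ℝ × ℝ), IsOpen U ∧ C ⊆ U ∧ ∀ D, ClosedOrbit F D → D ⊆ U → D = C

/-- LB: fields of degree `n = 16 k - 1` with `4 k²` limit cycles of comparable diameters which all survive
the rotations by angles up to `π / 4` -/
def S_LB : Prop := ∀ k : ℕ, 1 ≤ k → ∃ P Q : MvPolynomial (Fin 2) ℝ, P.totalDegree ≤ 16 * k - 1 ∧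
  Q.totalDegree ≤ 16 * k - 1 ∧ ∃ r : ℝ, 0 < r ∧
  (4 * k ^ 2 : ℕ∞) ≤ {C | ClosedOrbit (field P Q) C ∧ Isolated (field P Q) C ∧ r ≤ diam C ∧
    diam C ≤ 4 * r ∧ ∀ η : ℝ, 0 < |η| → |η| < π / 4 → W960.HP.PersG (field P Q)
      (fun _ D => diam C / 2 ≤ diam D ∧ diam D ≤ 2 * diam C) η C}.encard

end

end Pool.Agent.N224.Hil
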