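import Pool.Agent.H709R2.Torus
import Pool.Agent.H709R2.PolyLine

/-! Project HN (helper224): the number of closed orbits of a polynomial vector field of degree `n`
which survive a rotation of the field by `η` is at most a constant times `n²/η` in every dyadic
range of diameters. Definitions and statements of the parts, first file: winding numbers of closed
curves, Green's formula, area formulas. -/

open Real Set MeasureTheory Topology Filter
open scoped ENNReal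

namespace Pool.Agent.N224.Hil

noncomputable section

open Pool.Agent.H709R2 (rot wedge field)

/-- a closed `C¹` curve with period `T` and velocity `V`, not necessarily simple -/
structure Loop (γ V : ℝ → ℝ × ℝ) (T : ℝ) : Prop where
  pos : 0 < T
  der : ∀ t, HasDerivAt γ (V t) t
  cont : Continuous V
  per : ∀ t, γ (t + T) = γ t

/-- the winding number of the closed curve `γ` with velocity `V` about the point `z` -/
def wn (γ V : ℝ → ℝ × ℝ) (T : ℝ) (z : ℝ × ℝ) : ℝ :=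
  (2 * π)⁻¹ * ∫ t in (0:ℝ)..T, wedge (γ t - z) (V t) / H709R2.sq (γ t - z)

/-- the points enclosed by a closed curve -/
def ins (γ V : ℝ → ℝ × ℝ) (T : ℝ) : Set (ℝ × ℝ) := {z | z ∉ range γ ∧ wn γ V T z ≠ 0}

/-- the curve together with the points which it encloses -/
def fill (γ V : ℝ → ℝ × ℝ) (T : ℝ) : Set (ℝ × ℝ) := range γ ∪ ins γ V T

/-! ### W: winding numbers -/

/-- W1: the winding number is an integer -/
def S_W1 : Prop := ∀ (γ V : ℝ → ℝ × ℝ) (T : ℝ), Loop γ V T → ∀ z ∉ range γ, ∃ k : ℤ, wn γ V T z = k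

/-- W2: the winding number is continuous off the curve -/
def S_W2 : Prop := ∀ (γ V : ℝ → ℝ × ℝ) (T : ℝ), Loop γ V T → ContinuousOn (wn γ V T) (range γ)ᶜ

/-- W3: the winding number about a point which is separated from the curve by a line is zero -/
def S_W3 : Prop := ∀ (γ V : ℝ → ℝ × ℝ) (T : ℝ), Loop γ V T → ∀ z u : ℝ × ℝ,
  (∀ t, 0 < u.1 * ((γ t).1 - z.1) + u.2 * ((γ t).2 - z.2)) → wn γ V T z = 0

/-- W4: the winding number is continuous in families -/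
def S_W4 : Prop := ∀ (γ V : ℝ → ℝ → ℝ × ℝ) (T : ℝ → ℝ),
  (∀ τ ∈ Icc (0:ℝ) 1, Loop (γ τ) (V τ) (T τ)) →
  ContinuousOn (fun q : ℝ × ℝ => γ q.1 q.2) (Icc 0 1 ×ˢ univ) →
  ContinuousOn (fun q : ℝ × ℝ => V q.1 q.2) (Icc 0 1 ×ˢ univ) →
  ContinuousOn T (Icc 0 1) →
  ContinuousOn (fun q : ℝ × (ℝ × ℝ) => wn (γ q.1) (V q.1) (T q.1) q.2)
    {q | q.1 ∈ Icc 0 1 ∧ q.2 ∉ range (γ q.1)}

/-- J: a simple closed curve winds around every point at most once, in the same direction -/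
def S_J : Prop := ∀ (γ V : ℝ → ℝ × ℝ) (T : ℝ), Loop γ V T → (∀ t, V t ≠ 0) →
  (∀ s t, γ s = γ t → ∃ k : ℤ, s = t + k * T) →
  ∃ ε : ℝ, (ε = 1 ∨ ε = -1) ∧ (∀ z ∉ range γ, wn γ V T z = 0 ∨ wn γ V T z = ε) ∧
    ∃ z ∉ range γ, wn γ V T z = ε

/-- G: Green's formula with winding numbers -/
def S_G : Prop := ∀ (γ V : ℝ → ℝ × ℝ) (T : ℝ), Loop γ V T → ∀ f g : ℝ × ℝ → ℝ,
  ContDiff ℝ 1 f → ContDiff ℝ 1 g →
  Integrable (fun z => wn γ V T z * (fderiv ℝ g z (1, 0) - fderiv ℝ f z (0, 1))) ∧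
  ∫ t in (0:ℝ)..T, (f (γ t) * (V t).1 + g (γ t) * (V t).2) =
    ∫ z, wn γ V T z * (fderiv ℝ g z (1, 0) - fderiv ℝ f z (0, 1))

/-- N: a closed curve is a null set -/
def S_N : Prop := ∀ (γ V : ℝ → ℝ × ℝ) (T : ℝ), Loop γ V T → volume (range γ) = 0

/-- T0: the enclosed set is open, and compact together with the curve -/
def S_T0 : Prop := ∀ (γ V : ℝ → ℝ × ℝ) (T : ℝ), Loop γ V T →
  IsOpen (ins γ V T) ∧ IsCompact (fill γ V T)

/-- TT: disjoint closed curves are nested or enclose disjoint sets -/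
def S_TT : Prop := ∀ (γ V : ℝ → ℝ × ℝ) (T : ℝ) (δ U : ℝ → ℝ × ℝ) (S : ℝ), Loop γ V T → Loop δ U S →
  Disjoint (range γ) (range δ) →
  fill γ V T ⊆ ins δ U S ∨ fill δ U S ⊆ ins γ V T ∨ Disjoint (fill γ V T) (fill δ U S)

/-! ### A: area formulas and Bezout -/

/-- A1 -/
def S_A1 : Prop := ∀ (n : ℕ) (P Q : MvPolynomial (Fin 2) ℝ), P.totalDegree ≤ n →
  Q.totalDegree ≤ n → ∀ δ : ℝ, 0 < δ →
  ∫⁻ z, ENNReal.ofReal (2 * δ ^ 2 *
    |wedge (fderiv ℝ (field P Q) z (1, 0)) (fderiv ℝ (field P Q) z (0, 1))| /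
    (H709R2.sq (field P Q z) + δ ^ 2) ^ 2) ≤ ENNReal.ofReal (2 * π * n ^ 2)

/-- A2 -/
def S_A2 : Prop := ∀ (n m : ℕ) (P Q A : MvPolynomial (Fin 2) ℝ), P.totalDegree ≤ n →
  Q.totalDegree ≤ n → A.totalDegree ≤ m → IsRelPrime P Q → ∀ ε : ℝ, 0 < ε →
  ∫⁻ z : ℝ × ℝ, ENNReal.ofReal (ε⁻¹ *
    |fderiv ℝ (fun w : ℝ × ℝ => MvPolynomial.eval ![w.1, w.2] A) z (1, 0) *
        wedge (field P Q z) (fderiv ℝ (field P Q) z (0, 1)) -
      fderiv ℝ (fun w : ℝ × ℝ => MvPolynomial.eval ![w.1, w.2] A) z (0, 1) *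
        wedge (field P Q z) (fderiv ℝ (field P Q) z (1, 0))| /
    ((1 + (MvPolynomial.eval ![z.1, z.2] A / ε) ^ 2) * H709R2.sq (field P Q z))) ≤
    ENNReal.ofReal (π ^ 2 * (n * m))

end

end Pool.Agent.N224.Hil
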