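import Pool.Agent.N224.Hil.Defs
import Pool.Agent.N224.Hil.A2

/-! Project HN (helper224): the forms of `S_A2` and `S_V` without the assumption that the two
components of the field are coprime. -/

set_option autoImplicit false

open Real Set MeasureTheory Topology Filter
open scoped ENNReal

namespace Pool.Agent.N224.Hil

noncomputable section

open Pool.Agent.H709R2 (rot wedge field ClosedOrbit)
open Pool.Agent.H709U (rf Orb)

/-- A2 without coprimality -/
def S_A2' : Prop := ∀ (n m : ℕ) (P Q A : MvPolynomial (Fin 2) ℝ), P.totalDegree ≤ n →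
  Q.totalDegree ≤ n → A.totalDegree ≤ m → ∀ ε : ℝ, 0 < ε →
  ∫⁻ z : ℝ × ℝ, ENNReal.ofReal (ε⁻¹ *
    |fderiv ℝ (fun w : ℝ × ℝ => MvPolynomial.eval ![w.1, w.2] A) z (1, 0) *
        wedge (field P Q z) (fderiv ℝ (field P Q) z (0, 1)) -
      fderiv ℝ (fun w : ℝ × ℝ => MvPolynomial.eval ![w.1, w.2] A) z (0, 1) *
        wedge (field P Q z) (fderiv ℝ (field P Q) z (1, 0))| /
    ((1 + (MvPolynomial.eval ![z.1, z.2] A / ε) ^ 2) * H709R2.sq (field P Q z))) ≤
    ENNReal.ofReal (π ^ 2 * (n * m))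

/-- V without coprimality -/
def S_V' : Prop := ∀ (n : ℕ) (P Q : MvPolynomial (Fin 2) ℝ), P.totalDegree ≤ n →
  Q.totalDegree ≤ n → ∀ (β D : ℝ), 0 < D → ∀ (k : ℕ) (γ : Fin k → ℝ → ℝ × ℝ)
  (T : Fin k → ℝ), (∀ i, Orb (rf (field P Q) β) (γ i) (T i)) →
  (∀ i j, i ≠ j → Disjoint (fill (γ i) (fun t => rf (field P Q) β (γ i t)) (T i))
    (fill (γ j) (fun t => rf (field P Q) β (γ j t)) (T j))) →
  (∀ i s t, |(γ i s).1 - (γ i t).1| ≤ D ∧ |(γ i s).2 - (γ i t).2| ≤ D) →
  ∫⁻ z in ⋃ i, fill (γ i) (fun t => rf (field P Q) β (γ i t)) (T i), ker (field P Q) z ≤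
    ENNReal.ofReal (14 * π * n ^ 2 * D)

end

open A2 in
theorem a2' : S_A2' := by
  intro n m P Q A hP hQ hA ε hε
  simp only [wd_eq]
  by_cases hP0 : P = 0
  · have h1 : ∀ z v : ℝ × ℝ, wd P Q z v = 0 := by
      intro z v
      have h2 : ev P = fun _ => (0:ℝ) := by
        ext w
        rw [hP0]
        exact map_zero _
      unfold wd
      rw [h2]
      simp
    simp [h1]
  have hnull : ∀ᵐ z : ℝ × ℝ, ev P z ≠ 0 := by
    rw [ae_iff]
    simp only [ne_eq, not_not]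
    exact null_zero hP0
  have hae : ∀ᵐ z : ℝ × ℝ, ENNReal.ofReal (ε⁻¹ *
      |fderiv ℝ (fun w : ℝ × ℝ => MvPolynomial.eval ![w.1, w.2] A) z (1, 0) * wd P Q z (0, 1) -
        fderiv ℝ (fun w : ℝ × ℝ => MvPolynomial.eval ![w.1, w.2] A) z (0, 1) * wd P Q z (1, 0)| /
      ((1 + (MvPolynomial.eval ![z.1, z.2] A / ε) ^ 2) * H709R2.sq (H709R2.field P Q z))) =
      (rg P Q A ε).indicator (fun z => ENNReal.ofReal |(fderiv ℝ (phi P Q A ε) z).det| *
        hw (phi P Q A ε z)) z := by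
    filter_upwards [hnull] with z hz
    have hdet := phi_det (Q := Q) (A := A) (ε := ε) hz
    have h3 : (fun w : ℝ × ℝ => MvPolynomial.eval ![w.1, w.2] A) = ev A := rfl
    have h4 : MvPolynomial.eval ![z.1, z.2] A = ev A z := rfl
    have h5 : H709R2.sq (H709R2.field P Q z) = ev P z ^ 2 + ev Q z ^ 2 := rfl
    rw [h3, h4, h5]
    have hp2 : 0 < ev P z ^ 2 := by positivity
    by_cases hd : (fderiv ℝ (phi P Q A ε) z).det = 0
    · rw [indicator_of_notMem (fun h => h.2 hd)]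
      rw [hd] at hdet
      have h6 : fderiv ℝ (ev A) z (1, 0) * wd P Q z (0, 1) -
          fderiv ℝ (ev A) z (0, 1) * wd P Q z (1, 0) = 0 := by
        have h7 := (div_eq_zero_iff.1 hdet.symm).resolve_right hp2.ne'
        exact (mul_eq_zero.1 h7).resolve_left (inv_ne_zero hε.ne')
      rw [h6]
      simp
    · have hmem : z ∈ rg P Q A ε := ⟨hz, hd⟩
      rw [indicator_of_mem hmem]
      unfold hw
      rw [← ENNReal.ofReal_mul (by positivity), ← ENNReal.ofReal_mul (abs_nonneg _), hdet]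
      congr 1
      rw [abs_div, abs_mul, abs_of_pos (inv_pos.2 hε), abs_of_pos hp2]
      show _ = _ * ((1 + (ev A z / ε) ^ 2)⁻¹ * (1 + (ev Q z / ev P z) ^ 2)⁻¹)
      have h8 : (1 + (ev Q z / ev P z) ^ 2)⁻¹ = ev P z ^ 2 / (ev P z ^ 2 + ev Q z ^ 2) := by
        rw [div_pow]
        field_simp
      rw [h8]
      have h9 : 0 < 1 + (ev A z / ε) ^ 2 := by positivity
      have h10 : 0 < ev P z ^ 2 + ev Q z ^ 2 := by positivity
      field_simp
  rw [lintegral_congr_ae hae, lintegral_indicator meas_rg]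
  refine (main_ineq hP hQ hA hε).trans (le_of_eq ?_)
  rw [← ENNReal.ofReal_mul Real.pi_pos.le, ← ENNReal.ofReal_natCast, ← ENNReal.ofReal_mul (by positivity)]
  congr 1
  push_cast
  ring

end Pool.Agent.N224.Hil
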