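import Mathlib

/-! Project HN, part LB, first file (Mathlib only): a time change depending on a parameter, and the
branches of the inverse of a Chebyshev polynomial. -/

open Real Set MeasureTheory Topology Filter

namespace Pool.Agent.N224.Hil

noncomputable section

namespace LB

/-- the inverse of the primitive of a positive periodic function, with a parameter -/
lemma tc (K : ℝ → ℝ → ℝ) (hK : Continuous (Function.uncurry K)) (hpos : ∀ τ t, 0 < K τ t)
    (T : ℝ) (hT : 0 < T) (hper : ∀ τ t, K τ (t + T) = K τ t) :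
    ∃ (W : ℝ → ℝ → ℝ) (S : ℝ → ℝ), Continuous S ∧ (∀ τ, 0 < S τ) ∧
      Continuous (Function.uncurry W) ∧ (∀ τ, Function.Surjective (W τ)) ∧
      (∀ τ v, HasDerivAt (W τ) (K τ (W τ v))⁻¹ v) ∧ ∀ τ v, W τ (v + S τ) = W τ v + T := by
  set sg : ℝ → ℝ → ℝ := fun τ t => ∫ x in (0:ℝ)..t, K τ x with hsg
  have hKc : ∀ τ, Continuous (K τ) := fun τ => hK.comp (Continuous.prodMk_right τ)
  have hint : ∀ τ a b, IntervalIntegrable (K τ) volume a b :=
    fun τ a b => (hKc τ).intervalIntegrable a b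
  have hd : ∀ τ t, HasDerivAt (sg τ) (K τ t) t := fun τ t =>
    intervalIntegral.integral_hasDerivAt_right (hint τ 0 t)
      (hKc τ).aestronglyMeasurable.stronglyMeasurableAtFilter (hKc τ).continuousAt
  have hcont : ∀ τ, Continuous (sg τ) :=
    fun τ => continuous_iff_continuousAt.2 fun t => (hd τ t).continuousAt
  have hjoint : Continuous (fun q : ℝ × ℝ => sg q.1 q.2) := by
    have h1 : Continuous (fun q : ℝ × ℝ => ∫ x in (0:ℝ)..q.2, K q.1 x) := by
      refine intervalIntegral.continuous_parametric_intervalIntegral_of_continuous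
        (f := fun (q : ℝ × ℝ) x => K q.1 x) ?_ continuous_snd
      exact hK.comp ((continuous_fst.comp continuous_fst).prodMk continuous_snd)
    exact h1
  have hmono : ∀ τ, StrictMono (sg τ) := fun τ => strictMono_of_deriv_pos fun t => by
    rw [(hd τ t).deriv]
    exact hpos τ t
  have hper' : ∀ τ, Function.Periodic (K τ) T := hper
  have hsurj : ∀ τ, Function.Surjective (sg τ) := fun τ => (hcont τ).surjective
    ((hper' τ).tendsto_atTop_intervalIntegral_of_pos' (hint τ 0 T) (hpos τ) hT)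
    ((hper' τ).tendsto_atBot_intervalIntegral_of_pos' (hint τ 0 T) (hpos τ) hT)
  have h0 : ∀ τ, sg τ 0 = 0 := fun τ => by simp [hsg]
  have hS : ∀ τ, 0 < sg τ T := by
    intro τ
    rw [← h0 τ]
    exact hmono τ hT
  have hadd : ∀ τ t, sg τ (t + T) = sg τ t + sg τ T := by
    intro τ t
    have h1 := (hper' τ).intervalIntegral_add_eq_add 0 t (hint τ)
    simp only [zero_add] at h1
    exact h1
  let e : ℝ → (ℝ ≃o ℝ) := fun τ => StrictMono.orderIsoOfSurjective (sg τ) (hmono τ) (hsurj τ)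
  have he : ∀ τ v, sg τ ((e τ).symm v) = v := fun τ v => (e τ).apply_symm_apply v
  refine ⟨fun τ => (e τ).symm, fun τ => sg τ T, ?_, hS, ?_, fun τ => (e τ).symm.surjective, ?_, ?_⟩
  · exact hjoint.comp (continuous_id.prodMk continuous_const)
  · rw [continuous_iff_continuousAt]
    rintro ⟨τ₀, v₀⟩
    rw [Metric.continuousAt_iff']
    intro ε hε
    set t₀ := (e τ₀).symm v₀ with ht₀
    have h1 : sg τ₀ (t₀ - ε / 2) < v₀ := by
      calc sg τ₀ (t₀ - ε / 2) < sg τ₀ t₀ := hmono τ₀ (by linarith)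
        _ = v₀ := he τ₀ v₀
    have h2 : v₀ < sg τ₀ (t₀ + ε / 2) := by
      calc v₀ = sg τ₀ t₀ := (he τ₀ v₀).symm
        _ < sg τ₀ (t₀ + ε / 2) := hmono τ₀ (by linarith)
    have h3 : ∀ᶠ q : ℝ × ℝ in 𝓝 (τ₀, v₀), sg q.1 (t₀ - ε / 2) < q.2 := by
      have hc : Continuous (fun q : ℝ × ℝ => sg q.1 (t₀ - ε / 2)) :=
        hjoint.comp (continuous_fst.prodMk continuous_const)
      exact hc.continuousAt.eventually_lt continuous_snd.continuousAt h1
    have h4 : ∀ᶠ q : ℝ × ℝ in 𝓝 (τ₀, v₀), q.2 < sg q.1 (t₀ + ε / 2) := by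
      have hc : Continuous (fun q : ℝ × ℝ => sg q.1 (t₀ + ε / 2)) :=
        hjoint.comp (continuous_fst.prodMk continuous_const)
      exact continuous_snd.continuousAt.eventually_lt hc.continuousAt h2
    filter_upwards [h3, h4] with q hq3 hq4
    have h5 : t₀ - ε / 2 < (e q.1).symm q.2 := by
      rw [← (hmono q.1).lt_iff_lt, he]
      exact hq3
    have h6 : (e q.1).symm q.2 < t₀ + ε / 2 := by
      rw [← (hmono q.1).lt_iff_lt, he]
      exact hq4
    show dist ((e q.1).symm q.2) ((e τ₀).symm v₀) < ε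
    rw [Real.dist_eq, abs_lt]
    constructor <;> linarith
  · intro τ v
    exact HasDerivAt.of_local_left_inverse (e τ).symm.continuous.continuousAt (hd τ ((e τ).symm v))
      (hpos _ _).ne' (Filter.Eventually.of_forall (he τ))
  · intro τ v
    apply (hmono τ).injective
    rw [he, hadd, he]

/-! ### branches -/

/-- the Chebyshev polynomial -/
def p (m : ℕ) : Polynomial ℝ := Polynomial.Chebyshev.T ℝ m

def ang (m i : ℕ) (ξ : ℝ) : ℝ := (arccos ξ + i * π) / m

/-- the branches of the inverse of the Chebyshev polynomial up to sign -/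
def g (m i : ℕ) (ξ : ℝ) : ℝ := cos (ang m i ξ)

/-- the derivative of the branch -/
def gd (m i : ℕ) (ξ : ℝ) : ℝ := sin (ang m i ξ) / (m * √(1 - ξ ^ 2))

lemma natDegree_p (m : ℕ) : (p m).natDegree = m := by
  unfold p
  rw [Polynomial.Chebyshev.natDegree_T]
  simp

lemma p_g {m i : ℕ} (hm : 0 < m) {ξ : ℝ} (h : |ξ| ≤ 1) :
    (p m).eval (g m i ξ) = (-1) ^ i * ξ := by
  unfold p g ang
  rw [Polynomial.Chebyshev.T_real_cos]
  have hm' : (m : ℝ) ≠ 0 := by positivity
  have h1 : ((m : ℤ) : ℝ) * ((arccos ξ + i * π) / m) = arccos ξ + i * π := by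
    push_cast
    field_simp
  rw [h1, Real.cos_add_nat_mul_pi, Real.cos_arccos (by linarith [neg_abs_le ξ])
    (by linarith [le_abs_self ξ])]

lemma continuous_g (m i : ℕ) : Continuous (g m i) := by
  unfold g ang
  exact Real.continuous_cos.comp ((Real.continuous_arccos.add continuous_const).div_const _)

lemma continuous_ang (m i : ℕ) : Continuous (ang m i) := by
  unfold ang
  exact ((Real.continuous_arccos.add continuous_const).div_const _)

lemma sqrt_pos {ξ : ℝ} (h : |ξ| < 1) : 0 < √(1 - ξ ^ 2) := by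
  apply Real.sqrt_pos.2
  have := sq_lt_one_iff_abs_lt_one ξ |>.2 h
  linarith

lemma hasDerivAt_g {m i : ℕ} (hm : 0 < m) {ξ : ℝ} (h : |ξ| < 1) :
    HasDerivAt (g m i) (gd m i ξ) ξ := by
  have hm' : (m : ℝ) ≠ 0 := by positivity
  have h1 : ξ ≠ -1 := by
    rintro rfl
    norm_num at h
  have h2 : ξ ≠ 1 := by
    rintro rfl
    norm_num at h
  have h3 := (((Real.hasDerivAt_arccos h1 h2).add_const (i * π)).div_const (m : ℝ)).cos
  have h4 : -sin ((arccos ξ + i * π) / m) * (-(1 / √(1 - ξ ^ 2)) / m) = gd m i ξ := by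
    unfold gd ang
    have := (sqrt_pos h).ne'
    field_simp
  rw [h4] at h3
  exact h3

lemma dp_g {m i : ℕ} (hm : 0 < m) {ξ : ℝ} (h : |ξ| < 1) :
    (p m).derivative.eval (g m i ξ) * gd m i ξ = (-1) ^ i := by
  have h1 := (Polynomial.hasDerivAt (p m) (g m i ξ)).comp ξ (hasDerivAt_g hm h)
  have h2 : HasDerivAt (fun x : ℝ => (-1 : ℝ) ^ i * x) ((-1 : ℝ) ^ i) ξ := by
    simpa using (hasDerivAt_id ξ).const_mul ((-1 : ℝ) ^ i)
  have h3 : (fun x => (p m).eval (g m i x)) =ᶠ[𝓝 ξ] fun x : ℝ => (-1 : ℝ) ^ i * x := by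
    have h4 : ∀ᶠ x in 𝓝 ξ, |x| < 1 := (isOpen_lt continuous_abs continuous_const).mem_nhds h
    filter_upwards [h4] with x hx
    exact p_g hm hx.le
  exact (h2.congr_of_eventuallyEq h3 |>.unique h1).symm

/-- admissible indices -/
def Ix (m i : ℕ) : Prop := m ≤ 4 * i ∧ 4 * (i + 1) ≤ 3 * m

lemma ang_mem {m i : ℕ} (hm : 0 < m) {ξ : ℝ} (h : |ξ| < 1) :
    i * π / m < ang m i ξ ∧ ang m i ξ < (i + 1) * π / m := by
  have hm' : (0 : ℝ) < m := by positivity
  have h1 : 0 < arccos ξ := Real.arccos_pos.2 (by linarith [le_abs_self ξ])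
  have h2 : arccos ξ < π := by
    refine lt_of_le_of_ne (Real.arccos_le_pi ξ) ?_
    intro h3
    rw [Real.arccos_eq_pi] at h3
    linarith [neg_abs_le ξ]
  unfold ang
  constructor
  · apply div_lt_div_of_pos_right _ hm'
    linarith
  · apply div_lt_div_of_pos_right _ hm'
    linarith

lemma ang_Ix {m i : ℕ} (hm : 0 < m) (hi : Ix m i) {ξ : ℝ} (h : |ξ| < 1) :
    π / 4 < ang m i ξ ∧ ang m i ξ < 3 * π / 4 := by
  have hm' : (0 : ℝ) < m := by positivity
  obtain ⟨h1, h2⟩ := ang_mem (i := i) hm h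
  obtain ⟨h3, h4⟩ := hi
  have h3' : (m : ℝ) ≤ 4 * i := by exact_mod_cast h3
  have h4' : 4 * ((i : ℝ) + 1) ≤ 3 * m := by exact_mod_cast h4
  constructor
  · refine lt_of_le_of_lt ?_ h1
    rw [div_le_div_iff₀ (by norm_num) hm']
    nlinarith [Real.pi_pos]
  · refine lt_of_lt_of_le h2 ?_
    rw [div_le_div_iff₀ hm' (by norm_num)]
    nlinarith [Real.pi_pos]

lemma sin_ang {m i : ℕ} (hm : 0 < m) (hi : Ix m i) {ξ : ℝ} (h : |ξ| < 1) :
    √2 / 2 ≤ sin (ang m i ξ) := by
  obtain ⟨h1, h2⟩ := ang_Ix hm hi h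
  have hp := Real.pi_pos
  rw [← Real.cos_pi_div_four, ← Real.cos_pi_div_two_sub]
  rw [← Real.cos_abs (π / 2 - ang m i ξ)]
  apply Real.cos_le_cos_of_nonneg_of_le_pi (abs_nonneg _) (by linarith)
  rw [abs_le]
  constructor <;> linarith

lemma gd_low {m i : ℕ} (hm : 0 < m) (hi : Ix m i) {ξ : ℝ} (h : |ξ| < 1) :
    √2 / 2 / m ≤ gd m i ξ := by
  have hm' : (0 : ℝ) < m := by positivity
  have h1 := sqrt_pos h
  have h2 : √(1 - ξ ^ 2) ≤ 1 := by
    rw [Real.sqrt_le_one]
    nlinarith [sq_nonneg ξ]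
  unfold gd
  have h3 := sin_ang hm hi h
  have h4 : 0 < √2 := by positivity
  apply div_le_div₀ (by linarith) h3 (by positivity)
  nlinarith

lemma gd_pos {m i : ℕ} (hm : 0 < m) (hi : Ix m i) {ξ : ℝ} (h : |ξ| < 1) :
    0 < gd m i ξ := by
  have hm' : (0 : ℝ) < m := by positivity
  refine lt_of_lt_of_le ?_ (gd_low hm hi h)
  positivity

lemma gd_up {m i : ℕ} (hm : 0 < m) {ξ : ℝ} (h : |ξ| ≤ 3 / 4) :
    gd m i ξ ≤ 2 / m := by
  have hm' : (0 : ℝ) < m := by positivity
  have h1 : (1 : ℝ) / 2 ≤ √(1 - ξ ^ 2) := by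
    apply Real.le_sqrt_of_sq_le
    have : ξ ^ 2 ≤ (3 / 4) ^ 2 := by
      rw [← sq_abs ξ]
      exact pow_le_pow_left₀ (abs_nonneg _) h 2
    nlinarith
  unfold gd
  rw [div_le_div_iff₀ (by positivity) hm']
  have h2 := Real.sin_le_one (ang m i ξ)
  nlinarith

/-- bounds for the increments of a branch -/
lemma g_incr {m i : ℕ} (hm : 0 < m) {ξ ζ : ℝ} (h : |ξ| ≤ 3 / 4)
    (h' : |ζ| ≤ 3 / 4) (hi : Ix m i) : (g m i ξ - g m i ζ) ^ 2 ≤ (2 / m) ^ 2 * (ξ - ζ) ^ 2 := by
  have hm' : (0 : ℝ) < m := by positivity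
  have h1 : |g m i ξ - g m i ζ| ≤ 2 / m * |ξ - ζ| := by
    have := Convex.norm_image_sub_le_of_norm_hasDerivWithin_le (f := g m i) (f' := gd m i)
      (s := Icc (-(3/4 : ℝ)) (3 / 4)) (x := ζ) (y := ξ) (C := 2 / m) ?_ ?_ (convex_Icc _ _) ?_ ?_
    · simpa [Real.norm_eq_abs] using this
    · intro x hx
      have hx' : |x| ≤ 3 / 4 := abs_le.2 hx
      exact (hasDerivAt_g hm (by linarith)).hasDerivWithinAt
    · intro x hx
      have hx' : |x| ≤ 3 / 4 := abs_le.2 hx
      rw [Real.norm_eq_abs, abs_of_pos (gd_pos hm hi (by linarith))]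
      exact gd_up hm hx'
    · exact abs_le.1 h'
    · exact abs_le.1 h
  calc (g m i ξ - g m i ζ) ^ 2 = |g m i ξ - g m i ζ| ^ 2 := (sq_abs _).symm
    _ ≤ (2 / m * |ξ - ζ|) ^ 2 := pow_le_pow_left₀ (abs_nonneg _) h1 2
    _ = (2 / m) ^ 2 * (ξ - ζ) ^ 2 := by rw [mul_pow, sq_abs]

lemma g_low {m i : ℕ} (hm : 0 < m) {r : ℝ} (h0 : 0 ≤ r) (h : r ≤ 3 / 4)
    (hi : Ix m i) : √2 * r / m ≤ g m i r - g m i (-r) := by
  have hm' : (0 : ℝ) < m := by positivity
  have hd : ∀ x ∈ Icc (-(3/4 : ℝ)) (3 / 4), HasDerivAt (g m i) (gd m i x) x := fun x hx => by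
    have hx' : |x| ≤ 3 / 4 := abs_le.2 hx
    exact hasDerivAt_g hm (by linarith)
  have := Convex.mul_sub_le_image_sub_of_le_deriv (f := g m i) (convex_Icc (-(3/4 : ℝ)) (3 / 4))
    (fun x hx => (hd x hx).continuousAt.continuousWithinAt)
    (fun x hx => (hd x (interior_subset hx)).differentiableAt.differentiableWithinAt)
    (C := √2 / 2 / m) (fun x hx => by
      rw [(hd x (interior_subset hx)).deriv]
      have hx2 : x ∈ Icc (-(3/4 : ℝ)) (3 / 4) := interior_subset hx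
      have hx' : |x| ≤ 3 / 4 := abs_le.2 hx2
      exact gd_low hm hi (by linarith)) (-r) (by constructor <;> linarith) r
      (by constructor <;> linarith) (by linarith)
  refine le_trans (le_of_eq ?_) this
  ring

lemma g_inj {m i i' : ℕ} (hm : 0 < m) {ξ ξ' : ℝ} (h : |ξ| < 1) (h' : |ξ'| < 1) (hi : i < m)
    (hi' : i' < m) (he : g m i ξ = g m i' ξ') : i = i' := by
  have hm' : (0 : ℝ) < m := by positivity
  have hp := Real.pi_pos
  obtain ⟨h1, h2⟩ := ang_mem (i := i) hm h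
  obtain ⟨h3, h4⟩ := ang_mem (i := i') hm h'
  have hb : ∀ i : ℕ, i < m → ((i : ℝ) + 1) * π / m ≤ π := by
    intro i hi
    have : ((i : ℝ) + 1) ≤ m := by exact_mod_cast hi
    rw [div_le_iff₀ hm']
    nlinarith
  have h5 : ang m i ξ = ang m i' ξ' := by
    apply Real.injOn_cos
    · exact ⟨le_trans (by positivity) h1.le, h2.le.trans (hb i hi)⟩
    · exact ⟨le_trans (by positivity) h3.le, h4.le.trans (hb i' hi')⟩
    · exact he
  rw [h5] at h1 h2
  have h6 : (i : ℝ) * π / m < (i' + 1) * π / m := h1.trans h4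
  have h7 : (i' : ℝ) * π / m < (i + 1) * π / m := h3.trans h2
  rw [div_lt_div_iff_of_pos_right hm', mul_lt_mul_iff_left₀ hp] at h6 h7
  have h8 : i < i' + 1 := by exact_mod_cast h6
  have h9 : i' < i + 1 := by exact_mod_cast h7
  omega

/-- the open interval covered by the branch -/
def J (m i : ℕ) : Set ℝ := Ioo (cos ((i + 1) * π / m)) (cos (i * π / m))

lemma g_mem {m i : ℕ} (hm : 0 < m) (hi : i < m) {ξ : ℝ} (h : |ξ| < 1) : g m i ξ ∈ J m i := by
  have hm' : (0 : ℝ) < m := by positivity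
  have hp := Real.pi_pos
  obtain ⟨h1, h2⟩ := ang_mem (i := i) hm h
  have hb : ((i : ℝ) + 1) * π / m ≤ π := by
    have : ((i : ℝ) + 1) ≤ m := by exact_mod_cast hi
    rw [div_le_iff₀ hm']
    nlinarith
  constructor
  · exact Real.cos_lt_cos_of_nonneg_of_le_pi (le_trans (by positivity) h1.le) hb h2
  · exact Real.cos_lt_cos_of_nonneg_of_le_pi (by positivity) (h2.le.trans hb) h1

lemma exists_of_mem {m i : ℕ} (hm : 0 < m) (hi : i < m) {x : ℝ} (h : x ∈ J m i) :
    ∃ ξ, |ξ| < 1 ∧ g m i ξ = x := by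
  have hm' : (0 : ℝ) < m := by positivity
  have hp := Real.pi_pos
  have hb : ((i : ℝ) + 1) * π / m ≤ π := by
    have : ((i : ℝ) + 1) ≤ m := by exact_mod_cast hi
    rw [div_le_iff₀ hm']
    nlinarith
  have hx1 : -1 ≤ x := le_trans (Real.neg_one_le_cos _) h.1.le
  have hx2 : x ≤ 1 := h.2.le.trans (Real.cos_le_one _)
  set θ := arccos x with hθ
  have hc : cos θ = x := Real.cos_arccos hx1 hx2
  have h0 : 0 ≤ θ := Real.arccos_nonneg x
  have hπ : θ ≤ π := Real.arccos_le_pi x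
  have h1 : i * π / m < θ := by
    by_contra hcon
    push Not at hcon
    have h3 : ((i : ℝ)) * π / m ≤ (i + 1) * π / m := by
      apply div_le_div_of_nonneg_right _ hm'.le
      nlinarith
    have := Real.cos_le_cos_of_nonneg_of_le_pi h0 (h3.trans hb) hcon
    rw [hc] at this
    exact absurd h.2 (not_lt.2 this)
  have h2 : θ < (i + 1) * π / m := by
    by_contra hcon
    push Not at hcon
    have := Real.cos_le_cos_of_nonneg_of_le_pi (by positivity) hπ hcon
    rw [hc] at this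
    exact absurd h.1 (not_lt.2 this)
  rw [div_lt_iff₀ hm'] at h1
  rw [lt_div_iff₀ hm'] at h2
  set φ := m * θ - i * π with hφ
  have h3 : 0 < φ := by nlinarith
  have h4 : φ < π := by nlinarith
  refine ⟨cos φ, ?_, ?_⟩
  · rw [abs_lt]
    constructor
    · rw [← Real.cos_pi]
      exact Real.cos_lt_cos_of_nonneg_of_le_pi h3.le le_rfl h4
    · rw [← Real.cos_zero]
      exact Real.cos_lt_cos_of_nonneg_of_le_pi le_rfl h4.le h3
  · unfold g ang
    rw [Real.arccos_cos h3.le h4.le, ← hc]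
    congr 1
    rw [hφ]
    field_simp
    ring

end LB

end

end Pool.Agent.N224.Hil
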