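import Pool.Agent.N224.Hil.Defs
import Pool.Agent.N224.Hil.LB1

/-! Project HN, part LB, second file: the field, its ovals and their diameters. -/

open Real Set MeasureTheory Topology Filter
open scoped ENNReal

namespace Pool.Agent.N224.Hil

noncomputable section

open Pool.Agent.H709R2 (rot wedge field ClosedOrbit)
open Pool.Agent.H709U (rf Orb)

namespace LB

/-! ### the field -/

def hx (m : ℕ) (x : ℝ) : ℝ := (p m).eval x * (p m).derivative.eval x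

def H (m : ℕ) (z : ℝ × ℝ) : ℝ := ((p m).eval z.1 ^ 2 + (p m).eval z.2 ^ 2) / 2

def Fm (m : ℕ) (z : ℝ × ℝ) : ℝ × ℝ :=
  (-hx m z.2 - 64 * (H m z - 1 / 4) * hx m z.1, hx m z.1 - 64 * (H m z - 1 / 4) * hx m z.2)

def pol (q : Polynomial ℝ) (i : Fin 2) : MvPolynomial (Fin 2) ℝ :=
  Polynomial.aeval (MvPolynomial.X i) q

lemma eval_pol (q : Polynomial ℝ) (i : Fin 2) (f : Fin 2 → ℝ) :
    MvPolynomial.eval f (pol q i) = q.eval (f i) := by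
  unfold pol
  rw [Polynomial.aeval_eq_sum_range, Polynomial.eval_eq_sum_range, map_sum]
  apply Finset.sum_congr rfl
  intro k _
  simp [MvPolynomial.smul_eval]

lemma degree_pol (q : Polynomial ℝ) (i : Fin 2) {n : ℕ} (h : q.natDegree ≤ n) :
    (pol q i).totalDegree ≤ n := by
  unfold pol
  rw [Polynomial.aeval_eq_sum_range]
  apply MvPolynomial.totalDegree_finsetSum_le
  intro k hk
  refine (MvPolynomial.totalDegree_smul_le _ _).trans ?_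
  rw [MvPolynomial.totalDegree_X_pow]
  have := Finset.mem_range.1 hk
  omega

def Hxp (m : ℕ) (i : Fin 2) : MvPolynomial (Fin 2) ℝ := pol (p m) i * pol (p m).derivative i

def Hp (m : ℕ) : MvPolynomial (Fin 2) ℝ :=
  MvPolynomial.C 32 * (pol (p m) 0 * pol (p m) 0 + pol (p m) 1 * pol (p m) 1) - MvPolynomial.C 16

def PP (m : ℕ) : MvPolynomial (Fin 2) ℝ := -Hxp m 1 - Hp m * Hxp m 0

def QQ (m : ℕ) : MvPolynomial (Fin 2) ℝ := Hxp m 0 - Hp m * Hxp m 1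

lemma field_PP (m : ℕ) : field (PP m) (QQ m) = Fm m := by
  funext z
  unfold field Fm PP QQ Hp Hxp H hx
  simp only [map_sub, map_neg, map_mul, map_add, eval_pol, MvPolynomial.eval_C]
  have h0 : (![z.1, z.2] : Fin 2 → ℝ) 0 = z.1 := rfl
  have h1 : (![z.1, z.2] : Fin 2 → ℝ) 1 = z.2 := rfl
  rw [h0, h1]
  ext
  · simp only
    ring
  · simp only
    ring

lemma degree_Hxp {m : ℕ} (hm : 0 < m) (i : Fin 2) : (Hxp m i).totalDegree ≤ 2 * m - 1 := by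
  unfold Hxp
  refine (MvPolynomial.totalDegree_mul _ _).trans ?_
  have h1 := degree_pol (p m) i (natDegree_p m).le
  have h2 : (pol (p m).derivative i).totalDegree ≤ m - 1 := by
    apply degree_pol
    have := Polynomial.natDegree_derivative_le (p m)
    rwa [natDegree_p] at this
  omega

lemma degree_Hp (m : ℕ) : (Hp m).totalDegree ≤ 2 * m := by
  unfold Hp
  have h1 : ∀ i, (pol (p m) i * pol (p m) i).totalDegree ≤ 2 * m := fun i => by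
    refine (MvPolynomial.totalDegree_mul _ _).trans ?_
    have h1 := degree_pol (p m) i (natDegree_p m).le
    omega
  refine (MvPolynomial.totalDegree_sub _ _).trans (max_le ?_ ?_)
  · refine (MvPolynomial.totalDegree_mul _ _).trans ?_
    rw [MvPolynomial.totalDegree_C, zero_add]
    exact (MvPolynomial.totalDegree_add _ _).trans (max_le (h1 0) (h1 1))
  · rw [MvPolynomial.totalDegree_C]
    exact Nat.zero_le _

lemma degree_PP {m : ℕ} (hm : 0 < m) : (PP m).totalDegree ≤ 4 * m - 1 := by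
  unfold PP
  refine (MvPolynomial.totalDegree_sub _ _).trans (max_le ?_ ?_)
  · rw [MvPolynomial.totalDegree_neg]
    have := degree_Hxp hm 1
    omega
  · refine (MvPolynomial.totalDegree_mul _ _).trans ?_
    have h1 := degree_Hxp hm 0
    have h2 := degree_Hp m
    omega

lemma degree_QQ {m : ℕ} (hm : 0 < m) : (QQ m).totalDegree ≤ 4 * m - 1 := by
  unfold QQ
  refine (MvPolynomial.totalDegree_sub _ _).trans (max_le ?_ ?_)
  · have := degree_Hxp hm 0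
    omega
  · refine (MvPolynomial.totalDegree_mul _ _).trans ?_
    have h1 := degree_Hxp hm 1
    have h2 := degree_Hp m
    omega

/-! ### the ovals -/

def ov (m i j : ℕ) (ρ ω : ℝ) : ℝ × ℝ := (g m i (ρ * cos ω), g m j (ρ * sin ω))

lemma hx_g {m i : ℕ} (hm : 0 < m) (hi : Ix m i) {ξ : ℝ} (h : |ξ| < 1) :
    hx m (g m i ξ) = ξ / gd m i ξ := by
  have h1 := dp_g (i := i) hm h
  have h2 := gd_pos hm hi h
  have h3 : (p m).derivative.eval (g m i ξ) = (-1) ^ i / gd m i ξ := by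
    rw [eq_div_iff h2.ne', h1]
  unfold hx
  rw [p_g hm h.le, h3]
  have h4 : ((-1 : ℝ) ^ i) * (-1) ^ i = 1 := by
    rw [← mul_pow]
    norm_num
  calc (-1 : ℝ) ^ i * ξ * ((-1) ^ i / gd m i ξ) = ((-1 : ℝ) ^ i * (-1) ^ i) * ξ / gd m i ξ := by ring
    _ = ξ / gd m i ξ := by rw [h4, one_mul]

lemma H_g {m i j : ℕ} (hm : 0 < m) {ξ ζ : ℝ} (h : |ξ| ≤ 1) (h' : |ζ| ≤ 1) :
    H m (g m i ξ, g m j ζ) = (ξ ^ 2 + ζ ^ 2) / 2 := by
  unfold H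
  simp only
  rw [p_g hm h, p_g hm h', mul_pow, mul_pow, ← pow_mul, ← pow_mul, mul_comm i, mul_comm j, pow_mul,
    pow_mul]
  norm_num

lemma abs_cos {ρ c : ℝ} (hρ : |ρ| ≤ c) (ω : ℝ) : |ρ * cos ω| ≤ c := by
  rw [abs_mul]
  calc |ρ| * |cos ω| ≤ |ρ| * 1 := mul_le_mul_of_nonneg_left (Real.abs_cos_le_one ω) (abs_nonneg _)
    _ ≤ c := by rwa [mul_one]

lemma abs_sin {ρ c : ℝ} (hρ : |ρ| ≤ c) (ω : ℝ) : |ρ * sin ω| ≤ c := by
  rw [abs_mul]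
  calc |ρ| * |sin ω| ≤ |ρ| * 1 := mul_le_mul_of_nonneg_left (Real.abs_sin_le_one ω) (abs_nonneg _)
    _ ≤ c := by rwa [mul_one]

lemma H_ov {m i j : ℕ} (hm : 0 < m) {ρ : ℝ} (hρ : |ρ| ≤ 3 / 4) (ω : ℝ) :
    H m (ov m i j ρ ω) = ρ ^ 2 / 2 := by
  unfold ov
  rw [H_g hm ((abs_cos hρ ω).trans (by norm_num)) ((abs_sin hρ ω).trans (by norm_num))]
  have := Real.sin_sq_add_cos_sq ω
  have h2 : (ρ * cos ω) ^ 2 + (ρ * sin ω) ^ 2 = ρ ^ 2 * (sin ω ^ 2 + cos ω ^ 2) := by ring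
  rw [h2, this, mul_one]

lemma hasDerivAt_ov {m i j : ℕ} (hm : 0 < m) {ρ : ℝ} (hρ : |ρ| ≤ 3 / 4) (ω : ℝ) :
    HasDerivAt (ov m i j ρ) (-(ρ * sin ω) * gd m i (ρ * cos ω), ρ * cos ω * gd m j (ρ * sin ω)) ω := by
  have h1 : HasDerivAt (fun ω => ρ * cos ω) (-(ρ * sin ω)) ω := by
    simpa using (Real.hasDerivAt_cos ω).const_mul ρ
  have h2 : HasDerivAt (fun ω => ρ * sin ω) (ρ * cos ω) ω := by
    simpa using (Real.hasDerivAt_sin ω).const_mul ρ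
  have h3 := (hasDerivAt_g (i := i) hm (lt_of_le_of_lt (abs_cos hρ ω) (by norm_num))).comp ω h1
  have h4 := (hasDerivAt_g (i := j) hm (lt_of_le_of_lt (abs_sin hρ ω) (by norm_num))).comp ω h2
  rw [mul_comm] at h3 h4
  exact h3.prodMk h4

lemma rot_Fm {m i j : ℕ} (hm : 0 < m) (hi : Ix m i) (hj : Ix m j) {ρ α : ℝ} (hρ : |ρ| ≤ 3 / 4)
    (hα : 0 < cos α) (h : 64 * (ρ ^ 2 / 2 - 1 / 4) = -tan α) (ω : ℝ) :
    rot α (Fm m (ov m i j ρ ω)) = (cos α * gd m i (ρ * cos ω) * gd m j (ρ * sin ω))⁻¹ •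
      (-(ρ * sin ω) * gd m i (ρ * cos ω), ρ * cos ω * gd m j (ρ * sin ω)) := by
  have h1 : |ρ * cos ω| < 1 := lt_of_le_of_lt (abs_cos hρ ω) (by norm_num)
  have h2 : |ρ * sin ω| < 1 := lt_of_le_of_lt (abs_sin hρ ω) (by norm_num)
  have h3 := (gd_pos hm hi h1).ne'
  have h4 := (gd_pos hm hj h2).ne'
  have h5 : Fm m (ov m i j ρ ω) = (-(ρ * sin ω / gd m j (ρ * sin ω)) +
      tan α * (ρ * cos ω / gd m i (ρ * cos ω)), ρ * cos ω / gd m i (ρ * cos ω) +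
      tan α * (ρ * sin ω / gd m j (ρ * sin ω))) := by
    unfold Fm
    rw [H_ov hm hρ, h]
    have h6 : hx m (ov m i j ρ ω).1 = ρ * cos ω / gd m i (ρ * cos ω) := hx_g hm hi h1
    have h7 : hx m (ov m i j ρ ω).2 = ρ * sin ω / gd m j (ρ * sin ω) := hx_g hm hj h2
    rw [h6, h7]
    ext
    · simp only
      ring
    · simp only
      ring
  rw [h5, Real.tan_eq_sin_div_cos]
  have h8 := hα.ne'
  have h9 := Real.sin_sq_add_cos_sq α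
  unfold rot
  ext
  · simp only [Prod.smul_fst, smul_eq_mul]
    field_simp
    linear_combination (-(ρ * sin ω * gd m i (ρ * cos ω))) * h9
  · simp only [Prod.smul_snd, smul_eq_mul]
    field_simp
    linear_combination ((ρ * cos ω * gd m j (ρ * sin ω))) * h9

/-! ### diameters -/

/-- the Euclidean distance -/
def dd (x y : ℝ × ℝ) : ℝ := √((x.1 - y.1) ^ 2 + (x.2 - y.2) ^ 2)

lemma dd_eq (x y : ℝ × ℝ) :
    dd x y = ‖((x.1 : ℂ) + x.2 * Complex.I) - ((y.1 : ℂ) + y.2 * Complex.I)‖ := by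
  have h : ((x.1 : ℂ) + x.2 * Complex.I) - ((y.1 : ℂ) + y.2 * Complex.I) =
      ((x.1 - y.1 : ℝ) : ℂ) + ((x.2 - y.2 : ℝ) : ℂ) * Complex.I := by
    push_cast
    ring
  rw [h, Complex.norm_add_mul_I]
  rfl

lemma dd_tri (x y z w : ℝ × ℝ) : dd x w ≤ dd x y + dd y z + dd z w := by
  rw [dd_eq, dd_eq, dd_eq, dd_eq]
  have h1 := norm_sub_le_norm_sub_add_norm_sub ((x.1 : ℂ) + x.2 * Complex.I)
    ((z.1 : ℂ) + z.2 * Complex.I) ((w.1 : ℂ) + w.2 * Complex.I)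
  have h2 := norm_sub_le_norm_sub_add_norm_sub ((x.1 : ℂ) + x.2 * Complex.I)
    ((y.1 : ℂ) + y.2 * Complex.I) ((z.1 : ℂ) + z.2 * Complex.I)
  linarith

lemma dd_ov {m i j : ℕ} (hm : 0 < m) (hi : Ix m i) (hj : Ix m j) {ρ ρ' : ℝ} (hρ : |ρ| ≤ 3 / 4)
    (hρ' : |ρ'| ≤ 3 / 4) (ω : ℝ) : dd (ov m i j ρ ω) (ov m i j ρ' ω) ≤ 2 / m * |ρ - ρ'| := by
  have hm' : (0 : ℝ) < m := by positivity
  unfold dd ov
  rw [Real.sqrt_le_left (by positivity)]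
  have h1 := g_incr hm (abs_cos hρ ω) (abs_cos hρ' ω) hi
  have h2 := g_incr hm (abs_sin hρ ω) (abs_sin hρ' ω) hj
  refine (add_le_add h1 h2).trans (le_of_eq ?_)
  rw [mul_pow, sq_abs]
  have := Real.sin_sq_add_cos_sq ω
  linear_combination ((2 / m : ℝ) ^ 2 * (ρ - ρ') ^ 2) * this

lemma dd_le {m i j : ℕ} (hm : 0 < m) (hi : Ix m i) (hj : Ix m j) {ρ : ℝ} (h0 : 0 ≤ ρ)
    (hρ : ρ ≤ 3 / 4) (ω ω' : ℝ) : dd (ov m i j ρ ω) (ov m i j ρ ω') ≤ 4 / m * ρ := by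
  have hm' : (0 : ℝ) < m := by positivity
  have hρa : |ρ| ≤ 3 / 4 := by rwa [abs_of_nonneg h0]
  unfold dd ov
  rw [Real.sqrt_le_left (by positivity)]
  have h1 := g_incr hm (abs_cos hρa ω) (abs_cos hρa ω') hi
  have h2 := g_incr hm (abs_sin hρa ω) (abs_sin hρa ω') hj
  refine (add_le_add h1 h2).trans ?_
  have h3 := Real.sin_sq_add_cos_sq ω
  have h4 := Real.sin_sq_add_cos_sq ω'
  have h5 : (ρ * cos ω - ρ * cos ω') ^ 2 + (ρ * sin ω - ρ * sin ω') ^ 2 ≤ 4 * ρ ^ 2 := by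
    have h6 : 4 * ρ ^ 2 - ((ρ * cos ω - ρ * cos ω') ^ 2 + (ρ * sin ω - ρ * sin ω') ^ 2) =
        ρ ^ 2 * ((cos ω + cos ω') ^ 2 + (sin ω + sin ω') ^ 2) := by
      linear_combination (-2 * ρ ^ 2) * h3 + (-2 * ρ ^ 2) * h4
    nlinarith [sq_nonneg ρ, sq_nonneg (cos ω + cos ω'), sq_nonneg (sin ω + sin ω'),
      mul_nonneg (sq_nonneg ρ) (add_nonneg (sq_nonneg (cos ω + cos ω'))
        (sq_nonneg (sin ω + sin ω')))]
  calc (2 / m : ℝ) ^ 2 * (ρ * cos ω - ρ * cos ω') ^ 2 +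
        (2 / m) ^ 2 * (ρ * sin ω - ρ * sin ω') ^ 2
      = (2 / m : ℝ) ^ 2 * ((ρ * cos ω - ρ * cos ω') ^ 2 + (ρ * sin ω - ρ * sin ω') ^ 2) := by ring
    _ ≤ (2 / m : ℝ) ^ 2 * (4 * ρ ^ 2) := mul_le_mul_of_nonneg_left h5 (sq_nonneg _)
    _ = (4 / m * ρ) ^ 2 := by ring

lemma bdd {m i j : ℕ} (hm : 0 < m) (hi : Ix m i) (hj : Ix m j) {ρ : ℝ} (h0 : 0 ≤ ρ)
    (hρ : ρ ≤ 3 / 4) : 4 / m * ρ ∈ upperBounds {d | ∃ x ∈ range (ov m i j ρ),
      ∃ y ∈ range (ov m i j ρ), d = √((x.1 - y.1) ^ 2 + (x.2 - y.2) ^ 2)} := by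
  rintro d ⟨x, ⟨ω, rfl⟩, y, ⟨ω', rfl⟩, rfl⟩
  exact dd_le hm hi hj h0 hρ ω ω'

lemma le_diam {m i j : ℕ} (hm : 0 < m) (hi : Ix m i) (hj : Ix m j) {ρ : ℝ} (h0 : 0 ≤ ρ)
    (hρ : ρ ≤ 3 / 4) (ω ω' : ℝ) :
    dd (ov m i j ρ ω) (ov m i j ρ ω') ≤ diam (range (ov m i j ρ)) :=
  le_csSup ⟨_, bdd hm hi hj h0 hρ⟩ ⟨_, mem_range_self ω, _, mem_range_self ω', rfl⟩

lemma diam_le {m i j : ℕ} {ρ B : ℝ}
    (h : ∀ ω ω', dd (ov m i j ρ ω) (ov m i j ρ ω') ≤ B) : diam (range (ov m i j ρ)) ≤ B := by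
  apply csSup_le
  · exact ⟨_, _, mem_range_self 0, _, mem_range_self 0, rfl⟩
  · rintro d ⟨x, ⟨ω, rfl⟩, y, ⟨ω', rfl⟩, rfl⟩
    exact h ω ω'

lemma diam_comp {m i j : ℕ} (hm : 0 < m) (hi : Ix m i) (hj : Ix m j) {ρ ρ' : ℝ} (h0 : 0 ≤ ρ)
    (h0' : 0 ≤ ρ') (hρ : ρ ≤ 3 / 4) (hρ' : ρ' ≤ 3 / 4) :
    diam (range (ov m i j ρ)) ≤ diam (range (ov m i j ρ')) + 4 / m * |ρ - ρ'| := by
  apply diam_le
  intro ω ω'
  have hρa : |ρ| ≤ 3 / 4 := by rwa [abs_of_nonneg h0]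
  have hρa' : |ρ'| ≤ 3 / 4 := by rwa [abs_of_nonneg h0']
  have h1 := dd_tri (ov m i j ρ ω) (ov m i j ρ' ω) (ov m i j ρ' ω') (ov m i j ρ ω')
  have h2 := dd_ov hm hi hj hρa hρa' ω
  have h3 := dd_ov hm hi hj hρa' hρa ω'
  rw [abs_sub_comm ρ' ρ] at h3
  have h4 := le_diam hm hi hj h0' hρ' ω ω'
  have h5 : (4 : ℝ) / m * |ρ - ρ'| = 2 / m * |ρ - ρ'| + 2 / m * |ρ - ρ'| := by ring
  rw [h5]
  linarith

lemma diam_low {m i j : ℕ} (hm : 0 < m) (hi : Ix m i) (hj : Ix m j) {ρ : ℝ} (h0 : 0 ≤ ρ)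
    (hρ : ρ ≤ 3 / 4) : √2 * ρ / m ≤ diam (range (ov m i j ρ)) := by
  refine le_trans ?_ (le_diam hm hi hj h0 hρ 0 π)
  have h1 := g_low hm h0 hρ hi
  have h2 : dd (ov m i j ρ 0) (ov m i j ρ π) = √((g m i ρ - g m i (-ρ)) ^ 2) := by
    unfold dd ov
    simp
  rw [h2, Real.sqrt_sq_eq_abs]
  exact h1.trans (le_abs_self _)

end LB

end

end Pool.Agent.N224.Hil
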