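import Pool.Agent.N224.Hil.Defs2
import Pool.Agent.H709U.MB
import Pool.Agent.H709U.M0

/-! Part M: counting the closed orbits inside closed orbits. -/

open Real Set MeasureTheory Topology Filter
open scoped ENNReal

namespace Pool.Agent.N224.Hil

noncomputable section

open Pool.Agent.H709R2 (rot wedge field ClosedOrbit winv)
open Pool.Agent.H709U (rf Orb mb m0)
open Pool.Agent.H709Q (Maj)

/-- the length of a closed orbit is at least twice the distance of two of its points -/
lemma orb_len {X : ℝ × ℝ → ℝ × ℝ} (hX : Continuous X) {α : ℝ} {γ : ℝ → ℝ × ℝ} {T : ℝ}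
    (h : Orb (rf X α) γ T) {q q' : ℝ × ℝ} (hq : q ∈ range γ) (hq' : q' ∈ range γ) :
    2 * √(H709R2.sq (q - q')) ≤ ∫ t in (0:ℝ)..T, winv X (γ t) * H709R2.sq (X (γ t)) := by
  obtain ⟨s, rfl⟩ := hq
  obtain ⟨s', rfl⟩ := hq'
  have hγ : Continuous γ := continuous_iff_continuousAt.2 fun t => (h.ode t).continuousAt
  have hV : Continuous fun t => rf X α (γ t) := by
    unfold rf
    exact (H709R2.continuous_rot α).comp (hX.comp hγ)
  have e1 : (fun t => winv X (γ t) * H709R2.sq (X (γ t))) = fun t => √(H709R2.sq (rf X α (γ t))) := by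
    funext t
    unfold winv rf
    rw [H709R2.sq_rot]
    have hne : X (γ t) ≠ 0 := by
      intro h0
      apply h.ne t
      unfold rf
      rw [h0]
      unfold rot
      ext <;> simp
    have h1 := H709R2.sq_pos hne
    have h2 := Real.sqrt_pos.2 h1
    rw [inv_mul_eq_div, div_eq_iff h2.ne', Real.mul_self_sqrt h1.le]
  rw [e1]
  have hS : Continuous fun t => √(H709R2.sq (rf X α (γ t))) := (H709R2.continuous_sq.comp hV).sqrt
  have hper : Function.Periodic (fun t => √(H709R2.sq (rf X α (γ t)))) T := by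
    intro t
    simp only
    rw [h.per]
  have e2 : ∫ t in (0:ℝ)..T, √(H709R2.sq (rf X α (γ t))) =
      ∫ t in s..(s + T), √(H709R2.sq (rf X α (γ t))) := by
    have := hper.intervalIntegral_add_eq 0 s
    rw [zero_add] at this
    exact this
  rw [e2]
  -- the second point on the same period
  have hperγ : Function.Periodic γ T := h.per
  obtain ⟨u, hu, hu2⟩ := hperγ.exists_mem_Ico h.pos s' s
  rw [hu2]
  have h1 := H709R2.dist_le_len h.ode hV hu.1
  have h2 := H709R2.dist_le_len h.ode hV hu.2.le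
  rw [h.per] at h2
  rw [← intervalIntegral.integral_add_adjacent_intervals (hS.intervalIntegrable s u)
    (hS.intervalIntegrable u (s + T))]
  have h3 : H709R2.sq (γ u - γ s) = H709R2.sq (γ s - γ u) := by
    unfold H709R2.sq
    simp only [Prod.fst_sub, Prod.snd_sub]
    ring
  rw [h3] at h1
  linarith

/-- counting the closed orbits of all rotated fields inside disjoint closed orbits of one of them -/
theorem count_inside (hV : S_V') (h0 : S_T0) {n : ℕ} {P Q : MvPolynomial (Fin 2) ℝ}
    (hP : P.totalDegree ≤ n) (hQ : Q.totalDegree ≤ n) {β D d : ℝ}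
    (hD : 0 < D) (hd : 0 < d) {k : ℕ} {γ : Fin k → ℝ → ℝ × ℝ} {T : Fin k → ℝ}
    (hγ : ∀ i, Orb (rf (field P Q) β) (γ i) (T i))
    (hdisj : ∀ i j, i ≠ j → Disjoint (fill (γ i) (fun t => rf (field P Q) β (γ i t)) (T i))
      (fill (γ j) (fun t => rf (field P Q) β (γ j t)) (T j)))
    (hbox : ∀ i s t, |(γ i s).1 - (γ i t).1| ≤ D ∧ |(γ i s).2 - (γ i t).2| ≤ D) :
    Maj (fun α => ({C | ClosedOrbit (rf (field P Q) α) C ∧
      C ⊆ ⋃ i, fill (γ i) (fun t => rf (field P Q) β (γ i t)) (T i) ∧
      ∃ x ∈ C, ∃ y ∈ C, d ≤ √(H709R2.sq (x - y))}.encard : ℝ≥0∞)) (7 * π * n ^ 2 * D / d) := by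
  have hπ := pi_pos
  have hF : ContDiff ℝ 2 (field P Q) := H709R2.contDiff_field P Q
  have hloop : ∀ i, Loop (γ i) (fun t => rf (field P Q) β (γ i t)) (T i) := by
    intro i
    refine ⟨(hγ i).pos, (hγ i).ode, ?_, (hγ i).per⟩
    have h1 : Continuous (γ i) := continuous_iff_continuousAt.2 fun t => ((hγ i).ode t).continuousAt
    unfold rf
    exact (H709R2.continuous_rot β).comp (hF.continuous.comp h1)
  have hK : IsCompact (⋃ i, fill (γ i) (fun t => rf (field P Q) β (γ i t)) (T i)) :=
    isCompact_iUnion fun i => (h0 _ _ _ (hloop i)).2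
  obtain ⟨g, hg1, hg2, hg3⟩ := mb (field P Q) hF (winv (field P Q))
    (fun z hz => H709R2.contDiffAt_winv hF hz) _ hK (ker (field P Q))
    ((H709R2.measurable_kernel hF _).add (H709R2.measurable_kernel hF _)) (2 * d) (by positivity) (by
      intro α _ z _ hz
      unfold ker
      rw [← ENNReal.ofReal_add (by unfold H709R2.sq; positivity) (by unfold H709R2.sq; positivity)]
      exact ENNReal.ofReal_le_ofReal (H709R2.abs_divW_winv_le hF hz α))
  refine ⟨g, hg1, fun α hα => ?_, ?_⟩
  · refine le_trans (ENat.toENNReal_le.2 (encard_le_encard ?_)) (hg2 α hα)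
    rintro C ⟨hC, hCΩ, x, hx, y, hy, hxy⟩
    obtain ⟨δ, S, hδ, rfl⟩ := m0 (field P Q) hF α C hC
    exact ⟨δ, S, hδ, rfl, hCΩ, (by linarith : 2 * d ≤ 2 * √(H709R2.sq (x - y))).trans
      (orb_len hF.continuous hδ hx hy)⟩
  · refine (setLIntegral_le_lintegral _ _).trans (hg3.trans ?_)
    refine (mul_le_mul_right (hV n P Q hP hQ β D hD k γ T hγ hdisj hbox) _).trans ?_
    rw [← ENNReal.ofReal_mul (by positivity)]
    apply ENNReal.ofReal_le_ofReal
    apply le_of_eq
    field_simp
    ring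

end

end Pool.Agent.N224.Hil
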