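import Pool.Agent.N224.Hil.M

/-! Part M, second file: counting the closed orbits inside finitely many closed orbits. -/

open Real Set MeasureTheory Topology Filter
open scoped ENNReal

namespace Pool.Agent.N224.Hil

noncomputable section

open Pool.Agent.H709R2 (rot wedge field ClosedOrbit winv)
open Pool.Agent.H709U (rf Orb mb m0)
open Pool.Agent.H709Q (Maj)

/-- parametrisation of a closed orbit -/
def Par (Y : ℝ × ℝ → ℝ × ℝ) (γ : ℝ → ℝ × ℝ) (T : ℝ) : Prop :=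
  0 < T ∧ (∀ t, HasDerivAt γ (Y (γ t)) t) ∧ (∀ t, γ (t + T) = γ t) ∧ ∃ s t, γ s ≠ γ t

lemma orb_par {Y : ℝ × ℝ → ℝ × ℝ} {γ : ℝ → ℝ × ℝ} {T : ℝ} (h : Orb Y γ T) : Par Y γ T := by
  refine ⟨h.pos, h.ode, h.per, T / 2, 0, fun hc => ?_⟩
  obtain ⟨k, hk⟩ := h.inj _ _ hc
  have hT := h.pos
  have h1 : (k : ℝ) = 1 / 2 := by
    have h4 : T * ((k : ℝ) - 1 / 2) = 0 := by linarith
    rcases mul_eq_zero.1 h4 with h5 | h5
    · exact absurd h5 hT.ne'
    · linarith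
  have h2 : ((2 * k : ℤ) : ℝ) = ((1 : ℤ) : ℝ) := by
    push_cast
    linarith
  have h3 : 2 * k = 1 := by exact_mod_cast h2
  omega

/-- counting the closed orbits of all rotated fields inside finitely many closed orbits of one of
them -/
theorem count_fin (hV : S_V') (h0 : S_T0) (hT : S_TT) (hI : S_I) {n : ℕ}
    {P Q : MvPolynomial (Fin 2) ℝ} (hP : P.totalDegree ≤ n) (hQ : Q.totalDegree ≤ n)
    {β D d : ℝ} (hD : 0 < D) (hd : 0 < d) (s : Finset (Set (ℝ × ℝ)))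
    (hs : ∀ C ∈ s, ClosedOrbit (rf (field P Q) β) C)
    (hbox : ∀ C ∈ s, ∀ x ∈ C, ∀ y ∈ C, |x.1 - y.1| ≤ D ∧ |x.2 - y.2| ≤ D) :
    ∃ Ω : Set (ℝ × ℝ), (∀ C ∈ s, ∀ γ T, Par (rf (field P Q) β) γ T → range γ = C →
      fill γ (fun t => rf (field P Q) β (γ t)) T ⊆ Ω) ∧
    Maj (fun α => ({C | ClosedOrbit (rf (field P Q) α) C ∧ C ⊆ Ω ∧
      ∃ x ∈ C, ∃ y ∈ C, d ≤ √(H709R2.sq (x - y))}.encard : ℝ≥0∞)) (7 * π * n ^ 2 * D / d) := by
  classical
  have hF : ContDiff ℝ 2 (field P Q) := H709R2.contDiff_field P Q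
  have hY : ContDiff ℝ 2 (rf (field P Q) β) := W960.HP.rf_smooth hF β
  have hch : ∀ C : Set (ℝ × ℝ), ∃ (γ : ℝ → ℝ × ℝ) (T : ℝ), C ∈ s →
      Orb (rf (field P Q) β) γ T ∧ C = range γ := by
    intro C
    by_cases h : C ∈ s
    · obtain ⟨γ, T, h1, h2⟩ := m0 (field P Q) hF β C (hs C h)
      exact ⟨γ, T, fun _ => ⟨h1, h2⟩⟩
    · exact ⟨fun _ => 0, 0, fun h' => absurd h' h⟩
  choose γ T hγ using hch
  set f : Set (ℝ × ℝ) → Set (ℝ × ℝ) := fun C =>
    fill (γ C) (fun t => rf (field P Q) β (γ C t)) (T C) with hf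
  have hloop : ∀ C ∈ s, Loop (γ C) (fun t => rf (field P Q) β (γ C t)) (T C) := by
    intro C hC
    obtain ⟨h1, -⟩ := hγ C hC
    refine ⟨h1.pos, h1.ode, ?_, h1.per⟩
    have h2 : Continuous (γ C) := continuous_iff_continuousAt.2 fun t => (h1.ode t).continuousAt
    exact hY.continuous.comp h2
  -- the maximal discs
  set s' : Finset (Set (ℝ × ℝ)) := s.filter fun C => MaximalFor (· ∈ s) f C with hs'
  have hmax : ∀ C ∈ s, ∃ C' ∈ s', f C ⊆ f C' := by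
    intro C hC
    obtain ⟨C', h1, h2⟩ := (s.filter fun C' => f C ⊆ f C').exists_maximalFor f
      ⟨C, Finset.mem_filter.2 ⟨hC, subset_rfl⟩⟩
    rw [Finset.mem_filter] at h1
    refine ⟨C', Finset.mem_filter.2 ⟨h1.1, h1.1, fun y hy hy' => ?_⟩, h1.2⟩
    exact h2 (Finset.mem_filter.2 ⟨hy, h1.2.trans hy'⟩) hy'
  have hdisj : ∀ C ∈ s', ∀ C' ∈ s', C ≠ C' → Disjoint (f C) (f C') := by
    intro C hC C' hC' hne
    rw [hs', Finset.mem_filter] at hC hC'
    obtain ⟨o1, e1⟩ := hγ C hC.1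
    obtain ⟨o2, e2⟩ := hγ C' hC'.1
    have hr : Disjoint (range (γ C)) (range (γ C')) := by
      rw [Set.disjoint_left]
      rintro _ ⟨u, rfl⟩ ⟨v, hv⟩
      apply hne
      rw [e1, e2]
      exact W960.HP.orbits_eq hY o1.pos o2.pos o1.ode o2.ode o1.per o2.per hv.symm
    have key : ∀ A ∈ s, ∀ B ∈ s, MaximalFor (· ∈ s) f A →
        ¬ f A ⊆ ins (γ B) (fun t => rf (field P Q) β (γ B t)) (T B) := by
      intro A _ B hB hmA hsub
      have h1 : f B ⊆ f A := hmA.2 hB (hsub.trans subset_union_right)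
      have h2 : γ B 0 ∈ f B := Or.inl ⟨0, rfl⟩
      exact (hsub (h1 h2)).1 ⟨0, rfl⟩
    rcases hT _ _ _ _ _ _ (hloop C hC.1) (hloop C' hC'.1) hr with h | h | h
    · exact absurd h (key C hC.1 C' hC'.1 hC.2)
    · exact absurd h (key C' hC'.1 C hC.1 hC'.2)
    · exact h
  -- enumeration
  set e := s'.equivFin with he
  set δ : Fin s'.card → ℝ → ℝ × ℝ := fun i => γ (e.symm i) with hδ
  set S : Fin s'.card → ℝ := fun i => T (e.symm i) with hS
  have hmem : ∀ i, ((e.symm i : s') : Set (ℝ × ℝ)) ∈ s' := fun i => (e.symm i).2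
  have hmem' : ∀ i, ((e.symm i : s') : Set (ℝ × ℝ)) ∈ s := fun i =>
    (Finset.mem_filter.1 (hmem i)).1
  refine ⟨⋃ i, fill (δ i) (fun t => rf (field P Q) β (δ i t)) (S i), ?_, ?_⟩
  · intro C hC η R hη hrange
    obtain ⟨C', hC', hsub⟩ := hmax C hC
    obtain ⟨o1, e1⟩ := hγ C hC
    have p1 := orb_par o1
    have h1 : fill η (fun t => rf (field P Q) β (η t)) R = f C :=
      hI _ hY η (γ C) R (T C) hη.1 hη.2.1 hη.2.2.1 hη.2.2.2 p1.1 p1.2.1 p1.2.2.1 p1.2.2.2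
        (by rw [hrange, ← e1])
    rw [h1]
    refine hsub.trans ?_
    refine subset_trans ?_ (subset_iUnion _ (e ⟨C', hC'⟩))
    rw [hδ, hS]
    simp only [Equiv.symm_apply_apply]
    exact subset_rfl
  · refine count_inside hV h0 hP hQ hD hd (fun i => (hγ _ (hmem' i)).1) ?_ ?_
    · intro i j hij
      refine hdisj _ (hmem i) _ (hmem j) ?_
      intro h
      exact hij (e.symm.injective (Subtype.ext h))
    · intro i u v
      have h1 := (hγ _ (hmem' i)).2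
      exact hbox _ (hmem' i) _ (by rw [h1]; exact ⟨u, rfl⟩) _ (by rw [h1]; exact ⟨v, rfl⟩)

end

end Pool.Agent.N224.Hil
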