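import Pool.Agent.N224.Hil.M2
import Pool.Agent.H709U.R1

/-! Part M, third file: closed orbits of one size which survive a rotation. -/

open Real Set MeasureTheory Topology Filter
open scoped ENNReal

namespace Pool.Agent.N224.Hil

noncomputable section

open Pool.Agent.H709R2 (rot wedge field ClosedOrbit)
open Pool.Agent.H709U (rf Orb)
open Pool.Agent.H709Q (Maj)
open Pool.Agent.W960.HP (Path Good PersG PersP)

/-- surviving orbits with a property which holds along the path are few -/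
lemma side_card {F : ℝ × ℝ → ℝ × ℝ} (hF : ContDiff ℝ 2 F) {G : ℝ → Set (ℝ × ℝ) → Prop}
    (hG : ∀ α D, G α D → G (α + π) D) {K : ℝ} (hK : 0 ≤ K)
    (hM : Maj (fun α => (({D | ClosedOrbit (rf F α) D ∧ G α D}.encard : ℕ∞) : ℝ≥0∞)) K)
    {σ : ℝ} (hσ : σ = 1 ∨ σ = -1) {η : ℝ} (hη' : η < π) (s : Finset (Set (ℝ × ℝ)))
    (hs : ∀ C ∈ s, PersG F G (σ * η) C) : (s.card : ℝ) * η ≤ K := by
  have h1 := W960.HP.sideG_total hF hG hM hσ s
  have h2 : ∀ C ∈ s, ENNReal.ofReal η ≤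
      volume {ζ | ζ ∈ Ioo 0 π ∧ PersG F G (σ * ζ) C} := by
    intro C hC
    have h3 : Ioo 0 η ⊆ {ζ | ζ ∈ Ioo 0 π ∧ PersG F G (σ * ζ) C} := by
      intro ζ hζ
      exact ⟨⟨hζ.1, hζ.2.trans hη'⟩, W960.HP.persG_mono hσ hζ.1 hζ.2.le (hs C hC)⟩
    have h4 := measure_mono (μ := (volume : Measure ℝ)) h3
    rwa [Real.volume_Ioo, sub_zero] at h4
  have h3 := (Finset.sum_le_sum h2).trans h1
  rw [Finset.sum_const, nsmul_eq_mul, ← ENNReal.ofReal_natCast,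
    ← ENNReal.ofReal_mul (by positivity)] at h3
  rcases le_or_gt ((s.card : ℝ) * η) 0 with h | h
  · exact h.trans hK
  · exact (ENNReal.ofReal_le_ofReal_iff hK).1 h3

/-! ### diameters -/

/-- the Euclidean distance -/
def e2 (x y : ℝ × ℝ) : ℝ := √((x.1 - y.1) ^ 2 + (x.2 - y.2) ^ 2)

lemma e2_sq (x y : ℝ × ℝ) : e2 x y = √(H709R2.sq (x - y)) := rfl

lemma e2_cont : Continuous fun q : (ℝ × ℝ) × (ℝ × ℝ) => e2 q.1 q.2 := by
  unfold e2
  fun_prop

/-- the diameter of a compact set is attained -/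
lemma diam_mem {D : Set (ℝ × ℝ)} (hD : IsCompact D) (hne : D.Nonempty) :
    (∃ x ∈ D, ∃ y ∈ D, e2 x y = diam D) ∧ ∀ x ∈ D, ∀ y ∈ D, e2 x y ≤ diam D := by
  obtain ⟨q, hq, hmax⟩ := (hD.prod hD).exists_isMaxOn (hne.prod hne) e2_cont.continuousOn
  have hub : ∀ x ∈ D, ∀ y ∈ D, e2 x y ≤ e2 q.1 q.2 := fun x hx y hy =>
    hmax (show (x, y) ∈ D ×ˢ D from ⟨hx, hy⟩)
  have hd : diam D = e2 q.1 q.2 := by
    unfold diam
    apply le_antisymm
    · refine csSup_le ⟨_, q.1, hq.1, q.2, hq.2, rfl⟩ ?_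
      rintro _ ⟨x, hx, y, hy, rfl⟩
      exact hub x hx y hy
    · refine le_csSup ⟨e2 q.1 q.2, ?_⟩ ⟨q.1, hq.1, q.2, hq.2, rfl⟩
      rintro _ ⟨x, hx, y, hy, rfl⟩
      exact hub x hx y hy
  rw [hd]
  exact ⟨⟨q.1, hq.1, q.2, hq.2, rfl⟩, hub⟩

lemma orbit_compact {γ : ℝ → ℝ × ℝ} {T : ℝ} (hT : 0 < T) (hc : Continuous γ)
    (hp : ∀ t, γ (t + T) = γ t) : IsCompact (range γ) := by
  have h1 : range γ = γ '' Icc 0 T := by
    apply Subset.antisymm
    · rintro _ ⟨t, rfl⟩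
      have hper : Function.Periodic γ T := hp
      obtain ⟨y, hy, hty⟩ := hper.exists_mem_Ico₀ hT t
      exact ⟨y, ⟨hy.1, hy.2.le⟩, hty.symm⟩
    · rintro _ ⟨t, -, rfl⟩
      exact ⟨t, rfl⟩
  rw [h1]
  exact isCompact_Icc.image hc

lemma path_compact {X : ℝ → ℝ × ℝ → ℝ × ℝ} {η : ℝ} {a : ℝ → ℝ} {γ : ℝ → ℝ → ℝ × ℝ} {T : ℝ → ℝ}
    (h : Path X η a γ T) {τ : ℝ} (hτ : τ ∈ Icc (0:ℝ) 1) : IsCompact (range (γ τ)) :=
  orbit_compact (h.pos τ hτ) (continuous_iff_continuousAt.2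
    fun t => (h.ode τ hτ t).continuousAt) (h.per τ hτ)

lemma box_le {D : Set (ℝ × ℝ)} (hD : IsCompact D) {x y : ℝ × ℝ} (hx : x ∈ D) (hy : y ∈ D) :
    |x.1 - y.1| ≤ diam D ∧ |x.2 - y.2| ≤ diam D := by
  have h := (diam_mem hD ⟨x, hx⟩).2 x hx y hy
  unfold e2 at h
  exact ⟨(Real.abs_le_sqrt (by nlinarith [sq_nonneg (x.2 - y.2)])).trans h,
    (Real.abs_le_sqrt (by nlinarith [sq_nonneg (x.1 - y.1)])).trans h⟩

variable {n : ℕ} {P Q : MvPolynomial (Fin 2) ℝ}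

/-- the surviving orbits whose paths stay inside the first or the last member -/
lemma half (hV : S_V') (h0 : S_T0) (hT : S_TT) (hI : S_I) (hP : P.totalDegree ≤ n)
    (hQ : Q.totalDegree ≤ n) {σ : ℝ} (hσ : σ = 1 ∨ σ = -1) {η : ℝ} (hη : 0 < η) (hη' : η < π)
    {e b D d : ℝ} (he : e ∈ Icc (0:ℝ) 1) (hD : 0 < D) (hd : 0 < d) (s : Finset (Set (ℝ × ℝ)))
    (hs : ∀ C ∈ s, ∃ (a : ℝ → ℝ) (γ : ℝ → ℝ → ℝ × ℝ) (T : ℝ → ℝ),
      Path (fun a => rf (field P Q) (σ * a)) η a γ T ∧ a e = b ∧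
      (∀ τ ∈ Icc (0:ℝ) 1, range (γ τ) ⊆
        fill (γ e) (fun t => rf (field P Q) (σ * a e) (γ e t)) (T e)) ∧
      (∀ τ ∈ Icc (0:ℝ) 1, d ≤ diam (range (γ τ))) ∧ diam (range (γ e)) ≤ D ∧
      C = range (γ 0)) :
    (s.card : ℝ) * η ≤ 7 * π * n ^ 2 * D / d := by
  classical
  have hπ := pi_pos
  have hF : ContDiff ℝ 2 (field P Q) := H709R2.contDiff_field P Q
  have hch : ∀ C : Set (ℝ × ℝ), ∃ (a : ℝ → ℝ) (γ : ℝ → ℝ → ℝ × ℝ) (T : ℝ → ℝ), C ∈ s →
      Path (fun a => rf (field P Q) (σ * a)) η a γ T ∧ a e = b ∧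
      (∀ τ ∈ Icc (0:ℝ) 1, range (γ τ) ⊆
        fill (γ e) (fun t => rf (field P Q) (σ * a e) (γ e t)) (T e)) ∧
      (∀ τ ∈ Icc (0:ℝ) 1, d ≤ diam (range (γ τ))) ∧ diam (range (γ e)) ≤ D ∧
      C = range (γ 0) := by
    intro C
    by_cases h : C ∈ s
    · obtain ⟨a, γ, T, h1⟩ := hs C h
      exact ⟨a, γ, T, fun _ => h1⟩
    · exact ⟨fun _ => 0, fun _ _ => 0, fun _ => 0, fun h' => absurd h' h⟩
  choose a γ T hγ using hch
  obtain ⟨Ω, hΩ1, hΩ2⟩ := count_fin hV h0 hT hI hP hQ (β := σ * b) (D := D) (d := d) hD hd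
    (s.image fun C => range (γ C e)) (by
      intro E hE
      obtain ⟨C, hC, rfl⟩ := Finset.mem_image.1 hE
      obtain ⟨h1, h2, -⟩ := hγ C hC
      have h3 := h1.closed he
      rwa [h2] at h3) (by
      intro E hE x hx y hy
      obtain ⟨C, hC, rfl⟩ := Finset.mem_image.1 hE
      obtain ⟨h1, -, -, -, h5, -⟩ := hγ C hC
      have h6 := box_le (path_compact h1 he) hx hy
      exact ⟨h6.1.trans h5, h6.2.trans h5⟩)
  refine side_card hF (G := fun _ D' => D' ⊆ Ω ∧ ∃ x ∈ D', ∃ y ∈ D', d ≤ √(H709R2.sq (x - y)))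
    (fun _ _ h => h) (by positivity) hΩ2 hσ hη' s ?_
  intro C hC
  obtain ⟨h1, h2, h3, h4, h5, h6⟩ := hγ C hC
  rw [W960.HP.persG_iff hσ hη]
  refine ⟨a C, γ C, T C, h1, fun τ hτ => ⟨?_, ?_⟩, h6⟩
  · refine (h3 τ hτ).trans ?_
    rw [h2]
    refine hΩ1 _ (Finset.mem_image_of_mem _ hC) (γ C e) (T C e) ⟨h1.pos e he, ?_, h1.per e he,
      h1.nc e he⟩ rfl
    have h7 := h1.ode e he
    rwa [h2] at h7
  · obtain ⟨⟨x, hx, y, hy, hxy⟩, -⟩ := diam_mem (path_compact h1 hτ) (range_nonempty _)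
    refine ⟨x, hx, y, hy, ?_⟩
    rw [← e2_sq, hxy]
    exact h4 τ hτ

/-- one dyadic range of sizes and one direction of rotation -/
theorem one_scale (hV : S_V') (h0 : S_T0) (hT : S_TT) (hI : S_I) (hPP : S_P)
    (hP : P.totalDegree ≤ n) (hQ : Q.totalDegree ≤ n) {σ : ℝ} (hσ : σ = 1 ∨ σ = -1) {η : ℝ}
    (hη : 0 < η) (hη' : η < π) {l d : ℝ} (hl : 0 < l) (hd : 0 < d) (s : Finset (Set (ℝ × ℝ)))
    (hs : ∀ C ∈ s, d ≤ diam C ∧ diam C ≤ 2 * d ∧ PersG (field P Q)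
      (fun _ D => diam C / l ≤ diam D ∧ diam D ≤ l * diam C) (σ * η) C) :
    (s.card : ℝ) * η ≤ 14 * π * l * (1 + l) * n ^ 2 := by
  classical
  have hπ := pi_pos
  have hF : ContDiff ℝ 2 (field P Q) := H709R2.contDiff_field P Q
  set A : ℝ → ℝ → ℝ → Set (ℝ × ℝ) → Prop := fun e b D C =>
    ∃ (a : ℝ → ℝ) (γ : ℝ → ℝ → ℝ × ℝ) (T : ℝ → ℝ),
      Path (fun a => rf (field P Q) (σ * a)) η a γ T ∧ a e = b ∧
      (∀ τ ∈ Icc (0:ℝ) 1, range (γ τ) ⊆
        fill (γ e) (fun t => rf (field P Q) (σ * a e) (γ e t)) (T e)) ∧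
      (∀ τ ∈ Icc (0:ℝ) 1, d / l ≤ diam (range (γ τ))) ∧ diam (range (γ e)) ≤ D ∧
      C = range (γ 0) with hA
  have hsplit : ∀ C ∈ s, A 0 0 (2 * d) C ∨ A 1 η (l * (2 * d)) C := by
    intro C hC
    obtain ⟨h1, h2, h3⟩ := hs C hC
    rw [W960.HP.persG_iff hσ hη] at h3
    obtain ⟨a, γ, T, h4, h5, h6⟩ := h3
    have h7 : ∀ τ ∈ Icc (0:ℝ) 1, d / l ≤ diam (range (γ τ)) := fun τ hτ =>
      le_trans (by gcongr) (h5 τ hτ).1
    rcases hPP _ η a γ T (W960.HP.good_rf hF hσ hη') hη h4 with h8 | h8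
    · exact Or.inl ⟨a, γ, T, h4, h4.a0, h8, h7, by rw [← h6]; exact h2, h6⟩
    · refine Or.inr ⟨a, γ, T, h4, h4.a1, h8, h7, ?_, h6⟩
      exact ((h5 1 ⟨zero_le_one, le_rfl⟩).2).trans (by gcongr)
  have h1 := half hV h0 hT hI hP hQ hσ hη hη' (e := 0) (b := 0) (D := 2 * d) (d := d / l)
    ⟨le_rfl, zero_le_one⟩ (by positivity) (by positivity) (s.filter (A 0 0 (2 * d)))
    (fun C hC => (Finset.mem_filter.1 hC).2)
  have h2 := half hV h0 hT hI hP hQ hσ hη hη' (e := 1) (b := η) (D := l * (2 * d)) (d := d / l)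
    ⟨zero_le_one, le_rfl⟩ (by positivity) (by positivity) (s.filter (A 1 η (l * (2 * d))))
    (fun C hC => (Finset.mem_filter.1 hC).2)
  have h3 : s.card ≤ (s.filter (A 0 0 (2 * d))).card + (s.filter (A 1 η (l * (2 * d)))).card := by
    refine (Finset.card_le_card ?_).trans (Finset.card_union_le _ _)
    intro C hC
    rw [Finset.mem_union, Finset.mem_filter, Finset.mem_filter]
    rcases hsplit C hC with h | h
    · exact Or.inl ⟨hC, h⟩
    · exact Or.inr ⟨hC, h⟩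
  have h4 : (s.card : ℝ) ≤ (s.filter (A 0 0 (2 * d))).card +
      (s.filter (A 1 η (l * (2 * d)))).card := by
    exact_mod_cast h3
  have e1 : 7 * π * n ^ 2 * (2 * d) / (d / l) = 14 * π * l * n ^ 2 := by field_simp; ring
  have e2 : 7 * π * n ^ 2 * (l * (2 * d)) / (d / l) = 14 * π * l ^ 2 * n ^ 2 := by
    field_simp; ring
  rw [e1] at h1
  rw [e2] at h2
  have h5 := mul_le_mul_of_nonneg_right h4 hη.le
  nlinarith

/-- a set all of whose finite subsets are small -/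
lemma encard_of_fin {α : Type*} {A : Set α} {η K : ℝ} (hη : 0 < η)
    (h : ∀ s : Finset α, (s : Set α) ⊆ A → (s.card : ℝ) * η ≤ K) :
    (A.encard : ℝ≥0∞) ≤ ENNReal.ofReal (K / η) := by
  have hfin : A.Finite := by
    by_contra hinf
    obtain ⟨m, hm⟩ := exists_nat_gt (K / η)
    obtain ⟨s, hs, hc⟩ := Set.Infinite.exists_subset_card_eq hinf m
    have h1 := h s hs
    rw [hc] at h1
    rw [div_lt_iff₀ hη] at hm
    linarith
  have h1 := h hfin.toFinset (by simp)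
  rw [hfin.encard_eq_coe_toFinset_card]
  rw [← le_div_iff₀ hη] at h1
  have h2 : ((hfin.toFinset.card : ℕ∞) : ℝ≥0∞) = ENNReal.ofReal (hfin.toFinset.card : ℝ) := by
    rw [ENNReal.ofReal_natCast]
    simp
  rw [h2]
  exact ENNReal.ofReal_le_ofReal h1

/-- the number of the surviving closed orbits of one size -/
theorem card_scale (hV : S_V') (h0 : S_T0) (hT : S_TT) (hI : S_I) (hPP : S_P)
    (hP : P.totalDegree ≤ n) (hQ : Q.totalDegree ≤ n) {η : ℝ}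
    (hη : 0 < η) (hη' : η < π) {l d : ℝ} (hl : 0 < l) (hd : 0 < d) :
    ({C | d ≤ diam C ∧ diam C ≤ 2 * d ∧
      (PersG (field P Q) (fun _ D => diam C / l ≤ diam D ∧ diam D ≤ l * diam C) η C ∨
      PersG (field P Q) (fun _ D => diam C / l ≤ diam D ∧ diam D ≤ l * diam C) (-η) C)}.encard :
        ℝ≥0∞) ≤ ENNReal.ofReal (28 * π * l * (1 + l) * n ^ 2 / η) := by
  classical
  have hπ := pi_pos
  set B : ℝ → Set (Set (ℝ × ℝ)) := fun σ =>
    {C | d ≤ diam C ∧ diam C ≤ 2 * d ∧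
      PersG (field P Q) (fun _ D => diam C / l ≤ diam D ∧ diam D ≤ l * diam C) (σ * η) C} with hB
  have h2 : ∀ σ : ℝ, (σ = 1 ∨ σ = -1) → ((B σ).encard : ℝ≥0∞) ≤
      ENNReal.ofReal (14 * π * l * (1 + l) * n ^ 2 / η) := fun σ hσ =>
    encard_of_fin hη fun s hs => one_scale hV h0 hT hI hPP hP hQ hσ hη hη' hl hd s
      (fun C hC => hs hC)
  have h1 : {C | d ≤ diam C ∧ diam C ≤ 2 * d ∧
      (PersG (field P Q) (fun _ D => diam C / l ≤ diam D ∧ diam D ≤ l * diam C) η C ∨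
      PersG (field P Q) (fun _ D => diam C / l ≤ diam D ∧ diam D ≤ l * diam C) (-η) C)} ⊆
      B 1 ∪ B (-1) := by
    rintro C ⟨hC1, hC2, hC3 | hC3⟩
    · left
      exact ⟨hC1, hC2, by rw [one_mul]; exact hC3⟩
    · right
      exact ⟨hC1, hC2, by rw [neg_one_mul]; exact hC3⟩
  refine (ENat.toENNReal_le.2 ((encard_le_encard h1).trans (encard_union_le _ _))).trans ?_
  rw [ENat.toENNReal_add]
  refine (add_le_add (h2 1 (Or.inl rfl)) (h2 (-1) (Or.inr rfl))).trans (le_of_eq ?_)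
  rw [← ENNReal.ofReal_add (by positivity) (by positivity)]
  congr 1
  ring

/-- the number of the surviving closed orbits with diameters between `r` and `R` -/
theorem card_main (hV : S_V') (h0 : S_T0) (hT : S_TT) (hI : S_I) (hPP : S_P)
    (hP : P.totalDegree ≤ n) (hQ : Q.totalDegree ≤ n) {η : ℝ}
    (hη : 0 < η) (hη' : η < π) {l r R : ℝ} (hl : 0 < l) (hr : 0 < r) (hR : r ≤ R) :
    ({C | r ≤ diam C ∧ diam C ≤ R ∧
      (PersG (field P Q) (fun _ D => diam C / l ≤ diam D ∧ diam D ≤ l * diam C) η C ∨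
      PersG (field P Q) (fun _ D => diam C / l ≤ diam D ∧ diam D ≤ l * diam C) (-η) C)}.encard :
        ℝ≥0∞) ≤ ENNReal.ofReal (28 * π * l * (1 + l) * n ^ 2 * (1 + Real.logb 2 (R / r)) / η) := by
  classical
  have hπ := pi_pos
  set m : ℕ := ⌊Real.logb 2 (R / r)⌋₊ + 1 with hm
  have hRp : 0 < R := hr.trans_le hR
  have hlog : 0 ≤ Real.logb 2 (R / r) := Real.logb_nonneg (by norm_num) (by
    rw [le_div_iff₀ hr, one_mul]
    exact hR)
  have hmR : R ≤ 2 ^ m * r := by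
    have h1 : Real.logb 2 (R / r) ≤ m := by
      rw [hm]
      push_cast
      exact (Nat.lt_floor_add_one _).le
    have h2 : R / r ≤ 2 ^ m := by
      have h3 : R / r = (2:ℝ) ^ Real.logb 2 (R / r) :=
        (Real.rpow_logb (by norm_num) (by norm_num) (by positivity)).symm
      rw [h3, ← Real.rpow_natCast]
      exact Real.rpow_le_rpow_of_exponent_le (by norm_num) h1
    rwa [div_le_iff₀ hr] at h2
  set B : ℕ → Set (Set (ℝ × ℝ)) := fun i =>
    {C | 2 ^ i * r ≤ diam C ∧ diam C ≤ 2 * (2 ^ i * r) ∧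
      (PersG (field P Q) (fun _ D => diam C / l ≤ diam D ∧ diam D ≤ l * diam C) η C ∨
      PersG (field P Q) (fun _ D => diam C / l ≤ diam D ∧ diam D ≤ l * diam C) (-η) C)} with hB
  have h1 : {C | r ≤ diam C ∧ diam C ≤ R ∧
      (PersG (field P Q) (fun _ D => diam C / l ≤ diam D ∧ diam D ≤ l * diam C) η C ∨
      PersG (field P Q) (fun _ D => diam C / l ≤ diam D ∧ diam D ≤ l * diam C) (-η) C)} ⊆
      ⋃ i ∈ Finset.range m, B i := by
    rintro C ⟨hC1, hC2, hC3⟩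
    -- the dyadic scale
    have hC2' := hC2.trans hmR
    have hm1 : 1 ≤ m := by omega
    have hex : ∃ k, k < m ∧ 2 ^ k * r ≤ diam C ∧ diam C ≤ 2 * (2 ^ k * r) := by
      have h0 : ∃ k, diam C ≤ 2 * (2 ^ k * r) := ⟨m - 1, by
        have h5 : (2:ℝ) * (2 ^ (m - 1) * r) = 2 ^ m * r := by
          rw [← mul_assoc, ← pow_succ', Nat.sub_add_cancel hm1]
        rw [h5]
        exact hC2'⟩
      refine ⟨Nat.find h0, ?_, ?_, Nat.find_spec h0⟩
      · have h5 : Nat.find h0 ≤ m - 1 := Nat.find_min' h0 (by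
          have h5 : (2:ℝ) * (2 ^ (m - 1) * r) = 2 ^ m * r := by
            rw [← mul_assoc, ← pow_succ', Nat.sub_add_cancel hm1]
          rw [h5]
          exact hC2')
        omega
      · rcases Nat.eq_zero_or_pos (Nat.find h0) with h5 | h5
        · rw [h5, pow_zero, one_mul]
          exact hC1
        · have h6 := Nat.find_min h0 (show Nat.find h0 - 1 < Nat.find h0 by omega)
          rw [not_le, ← mul_assoc, ← pow_succ', Nat.sub_add_cancel h5] at h6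
          exact h6.le
    obtain ⟨k, hkm, hk1, hk2⟩ := hex
    simp only [mem_iUnion]
    exact ⟨k, Finset.mem_range.2 hkm, hk1, hk2, hC3⟩
  refine (H709U.encard_biUnion_le' _ _ _ h1).trans ?_
  refine (Finset.sum_le_sum fun i _ => card_scale hV h0 hT hI hPP hP hQ hη hη' hl
    (d := 2 ^ i * r) (by positivity)).trans ?_
  rw [Finset.sum_const, nsmul_eq_mul, ← ENNReal.ofReal_natCast,
    ← ENNReal.ofReal_mul (by positivity)]
  apply ENNReal.ofReal_le_ofReal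
  have h4 : (m : ℝ) ≤ 1 + Real.logb 2 (R / r) := by
    rw [hm]
    push_cast
    have := Nat.floor_le hlog
    linarith
  rw [Finset.card_range]
  calc (m : ℝ) * (28 * π * l * (1 + l) * n ^ 2 / η)
      ≤ (1 + Real.logb 2 (R / r)) * (28 * π * l * (1 + l) * n ^ 2 / η) :=
        mul_le_mul_of_nonneg_right h4 (by positivity)
    _ = _ := by ring

end

end Pool.Agent.N224.Hil
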