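import Pool.Agent.N224.Hil.Defs2
import Pool.Agent.H709U.K4

/-! Part V, first file: the regularised angle form of a polynomial vector field. -/

open Real Set MeasureTheory Topology Filter
open scoped ENNReal

namespace Pool.Agent.N224.Hil

noncomputable section

open Pool.Agent.H709R2 (rot wedge field ClosedOrbit)
open Pool.Agent.H709U (rf Orb K4_hasFDerivAt K4_fderiv_field K4_mul K4_add K4_sub)
open MvPolynomial (pderiv)

/-- evaluation of a polynomial in two variables at a point of the plane -/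
def ev (A : MvPolynomial (Fin 2) ℝ) (z : ℝ × ℝ) : ℝ := MvPolynomial.eval ![z.1, z.2] A

lemma ev_hasFDerivAt (A : MvPolynomial (Fin 2) ℝ) (z : ℝ × ℝ) :
    HasFDerivAt (ev A) (ev (pderiv 0 A) z • ContinuousLinearMap.fst ℝ ℝ ℝ +
      ev (pderiv 1 A) z • ContinuousLinearMap.snd ℝ ℝ ℝ) z := K4_hasFDerivAt A z

lemma ev_contDiff (A : MvPolynomial (Fin 2) ℝ) {m : WithTop ℕ∞} : ContDiff ℝ m (ev A) :=
  H709R2.contDiff_evalPoly A

lemma ev_continuous (A : MvPolynomial (Fin 2) ℝ) : Continuous (ev A) :=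
  (ev_contDiff A (m := 0)).continuous

@[simp] lemma ev_mul (A B : MvPolynomial (Fin 2) ℝ) (z : ℝ × ℝ) : ev (A * B) z = ev A z * ev B z := by
  simp [ev]
@[simp] lemma ev_add (A B : MvPolynomial (Fin 2) ℝ) (z : ℝ × ℝ) : ev (A + B) z = ev A z + ev B z := by
  simp [ev]
@[simp] lemma ev_sub (A B : MvPolynomial (Fin 2) ℝ) (z : ℝ × ℝ) : ev (A - B) z = ev A z - ev B z := by
  simp [ev]
@[simp] lemma ev_neg (A : MvPolynomial (Fin 2) ℝ) (z : ℝ × ℝ) : ev (-A) z = -ev A z := by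
  simp [ev]
@[simp] lemma ev_C (c : ℝ) (z : ℝ × ℝ) : ev (MvPolynomial.C c) z = c := by
  simp [ev]

lemma pderiv_comm (A : MvPolynomial (Fin 2) ℝ) :
    pderiv 0 (pderiv 1 A) = pderiv 1 (pderiv 0 A) := by
  have h : ⁅(pderiv 0 : Derivation ℝ (MvPolynomial (Fin 2) ℝ) (MvPolynomial (Fin 2) ℝ)),
      (pderiv 1 : Derivation ℝ (MvPolynomial (Fin 2) ℝ) (MvPolynomial (Fin 2) ℝ))⁆ = 0 := by
    apply MvPolynomial.derivation_ext
    intro k
    rw [Derivation.commutator_apply, MvPolynomial.pderiv_X, MvPolynomial.pderiv_X]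
    fin_cases k <;> simp
  have := congrArg (fun D => D A) h
  simp only [Derivation.commutator_apply, Derivation.zero_apply] at this
  exact sub_eq_zero.1 this

variable (P Q : MvPolynomial (Fin 2) ℝ)

/-- `P dQ - Q dP` has the coefficients `NX`, `NY` -/
def NX : MvPolynomial (Fin 2) ℝ := P * pderiv 0 Q - Q * pderiv 0 P
/-- `P dQ - Q dP` has the coefficients `NX`, `NY` -/
def NY : MvPolynomial (Fin 2) ℝ := P * pderiv 1 Q - Q * pderiv 1 P
/-- the Jacobian -/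
def WW : MvPolynomial (Fin 2) ℝ := pderiv 0 P * pderiv 1 Q - pderiv 0 Q * pderiv 1 P
/-- `P² + Q²` -/
def SQ : MvPolynomial (Fin 2) ℝ := P * P + Q * Q

lemma ev_NX (z : ℝ × ℝ) : ev (NX P Q) z = wedge (field P Q z) (fderiv ℝ (field P Q) z (1, 0)) := by
  rw [K4_fderiv_field]
  simp [NX, ev, wedge, field]

lemma ev_NY (z : ℝ × ℝ) : ev (NY P Q) z = wedge (field P Q z) (fderiv ℝ (field P Q) z (0, 1)) := by
  rw [K4_fderiv_field]
  simp [NY, ev, wedge, field]

lemma ev_WW (z : ℝ × ℝ) : ev (WW P Q) z =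
    wedge (fderiv ℝ (field P Q) z (1, 0)) (fderiv ℝ (field P Q) z (0, 1)) := by
  rw [K4_fderiv_field, K4_fderiv_field]
  simp [WW, ev, wedge]

lemma ev_SQ (z : ℝ × ℝ) : ev (SQ P Q) z = H709R2.sq (field P Q z) := by
  simp [SQ, ev, H709R2.sq, field]
  ring

lemma SQ_nonneg (z : ℝ × ℝ) : 0 ≤ ev (SQ P Q) z := by
  simp only [SQ, ev_add, ev_mul]
  exact add_nonneg (mul_self_nonneg _) (mul_self_nonneg _)

/-- the derivative of a quotient -/
lemma div_fderiv {f g : ℝ × ℝ → ℝ} {f' g' : ℝ × ℝ →L[ℝ] ℝ} {x : ℝ × ℝ} (hf : HasFDerivAt f f' x)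
    (hg : HasFDerivAt g g' x) (hx : g x ≠ 0) :
    HasFDerivAt (fun z => f z / g z) ((g x)⁻¹ • f' - (f x / g x ^ 2) • g') x := by
  have h1 : HasFDerivAt (fun z => (g z)⁻¹) ((-(g x ^ 2)⁻¹) • g') x :=
    (hasDerivAt_inv hx).comp_hasFDerivAt x hg
  have h2 := hf.mul h1
  have h3 : (fun z => f z / g z) = f * fun z => (g z)⁻¹ := by
    funext y; simp [div_eq_mul_inv]
  rw [h3]
  refine (h2.congr_fderiv ?_)
  ext <;> simp <;> field_simp <;> ring

variable (δ : ℝ)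

/-- the denominator -/
def sd (z : ℝ × ℝ) : ℝ := ev (SQ P Q) z + δ ^ 2
/-- coefficient of `dx` of the regularised angle form -/
def aa (z : ℝ × ℝ) : ℝ := ev (NX P Q) z / sd P Q δ z
/-- coefficient of `dy` of the regularised angle form -/
def bb (z : ℝ × ℝ) : ℝ := ev (NY P Q) z / sd P Q δ z
/-- its exterior derivative -/
def cc (z : ℝ × ℝ) : ℝ := 2 * δ ^ 2 * ev (WW P Q) z / sd P Q δ z ^ 2

variable {δ}

lemma sd_pos (hδ : 0 < δ) (z : ℝ × ℝ) : 0 < sd P Q δ z := by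
  have := SQ_nonneg P Q z
  unfold sd
  positivity

lemma sd_ge (z : ℝ × ℝ) : δ ^ 2 ≤ sd P Q δ z := by
  have := SQ_nonneg P Q z
  unfold sd
  linarith

lemma sd_contDiff {m : WithTop ℕ∞} : ContDiff ℝ m (sd P Q δ) := (ev_contDiff _).add contDiff_const

lemma aa_contDiff (hδ : 0 < δ) {m : WithTop ℕ∞} : ContDiff ℝ m (aa P Q δ) :=
  (ev_contDiff _).div (sd_contDiff P Q) fun z => (sd_pos P Q hδ z).ne'

lemma bb_contDiff (hδ : 0 < δ) {m : WithTop ℕ∞} : ContDiff ℝ m (bb P Q δ) :=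
  (ev_contDiff _).div (sd_contDiff P Q) fun z => (sd_pos P Q hδ z).ne'

lemma cc_continuous (hδ : 0 < δ) : Continuous (cc P Q δ) := by
  unfold cc
  refine (continuous_const.mul (ev_continuous _)).div
    ((sd_contDiff P Q (m := 0)).continuous.pow 2) fun z => ?_
  exact pow_ne_zero _ (sd_pos P Q hδ z).ne'

/-- the exterior derivative of the angle form times a function -/
lemma curl (hδ : 0 < δ) {G : ℝ × ℝ → ℝ} {z : ℝ × ℝ} (hG : DifferentiableAt ℝ G z) :
    fderiv ℝ (fun z => G z * bb P Q δ z) z (1, 0) - fderiv ℝ (fun z => G z * aa P Q δ z) z (0, 1) =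
      fderiv ℝ G z (1, 0) * bb P Q δ z - fderiv ℝ G z (0, 1) * aa P Q δ z + G z * cc P Q δ z := by
  have hs := (sd_pos P Q hδ z).ne'
  have h1 := ev_hasFDerivAt (NX P Q) z
  have h2 := ev_hasFDerivAt (NY P Q) z
  have h3 : HasFDerivAt (sd P Q δ) _ z := (ev_hasFDerivAt (SQ P Q) z).add_const (δ ^ 2)
  have e1 : fderiv ℝ (fun z => G z * aa P Q δ z) z (0, 1) =
      fderiv ℝ G z (0, 1) * aa P Q δ z + G z *
        ((ev (pderiv 1 (NX P Q)) z * sd P Q δ z - ev (NX P Q) z * ev (pderiv 1 (SQ P Q)) z) /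
          sd P Q δ z ^ 2) := by
    have h4 : HasFDerivAt (aa P Q δ) _ z := div_fderiv h1 h3 hs
    have h5 : HasFDerivAt (fun z => G z * aa P Q δ z) _ z := hG.hasFDerivAt.mul h4
    rw [h5.fderiv]
    simp
    field_simp
    ring
  have e2 : fderiv ℝ (fun z => G z * bb P Q δ z) z (1, 0) =
      fderiv ℝ G z (1, 0) * bb P Q δ z + G z *
        ((ev (pderiv 0 (NY P Q)) z * sd P Q δ z - ev (NY P Q) z * ev (pderiv 0 (SQ P Q)) z) /
          sd P Q δ z ^ 2) := by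
    have h4 : HasFDerivAt (bb P Q δ) _ z := div_fderiv h2 h3 hs
    have h5 : HasFDerivAt (fun z => G z * bb P Q δ z) _ z := hG.hasFDerivAt.mul h4
    rw [h5.fderiv]
    simp
    field_simp
    ring
  have e3 : (ev (pderiv 0 (NY P Q)) z * sd P Q δ z - ev (NY P Q) z * ev (pderiv 0 (SQ P Q)) z) -
      (ev (pderiv 1 (NX P Q)) z * sd P Q δ z - ev (NX P Q) z * ev (pderiv 1 (SQ P Q)) z) =
      2 * δ ^ 2 * ev (WW P Q) z := by
    unfold sd NX NY SQ WW
    simp only [map_sub, map_add, MvPolynomial.pderiv_mul, ev_sub, ev_add, ev_mul, pderiv_comm]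
    ring
  rw [e1, e2]
  unfold cc
  rw [← e3]
  ring

/-- Green's formula for the angle form times a function -/
lemma green (hGr : S_G) (hδ : 0 < δ) {γ V : ℝ → ℝ × ℝ} {T : ℝ} (hL : Loop γ V T) {G : ℝ × ℝ → ℝ}
    (hG : ContDiff ℝ 1 G) :
    Integrable (fun z => wn γ V T z * (fderiv ℝ G z (1, 0) * bb P Q δ z -
      fderiv ℝ G z (0, 1) * aa P Q δ z + G z * cc P Q δ z)) ∧
    ∫ t in (0:ℝ)..T, G (γ t) * (aa P Q δ (γ t) * (V t).1 + bb P Q δ (γ t) * (V t).2) =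
      ∫ z, wn γ V T z * (fderiv ℝ G z (1, 0) * bb P Q δ z - fderiv ℝ G z (0, 1) * aa P Q δ z +
        G z * cc P Q δ z) := by
  have h := hGr γ V T hL (fun z => G z * aa P Q δ z) (fun z => G z * bb P Q δ z)
    (hG.mul (aa_contDiff P Q hδ)) (hG.mul (bb_contDiff P Q hδ))
  have h1 : ∀ z, fderiv ℝ (fun z => G z * bb P Q δ z) z (1, 0) -
      fderiv ℝ (fun z => G z * aa P Q δ z) z (0, 1) = _ := fun z =>
    curl P Q hδ (hG.differentiable (by norm_num) z)
  simp only [h1] at h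
  refine ⟨h.1, ?_⟩
  rw [← h.2]
  congr 1
  ext1 t
  ring

end

end Pool.Agent.N224.Hil
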