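import Pool.Agent.N224.Hil.V1

/-! Part V, second file: integration of the regularised angle form over closed orbits. -/

open Real Set MeasureTheory Topology Filter
open scoped ENNReal

namespace Pool.Agent.N224.Hil

noncomputable section

open Pool.Agent.H709R2 (rot wedge field ClosedOrbit)
open Pool.Agent.H709U (rf Orb K4_hasFDerivAt K4_fderiv_field K4_mul K4_add K4_sub K4_degree)
open MvPolynomial (pderiv)

lemma arctan_le_self' {x : ℝ} (hx : 0 ≤ x) : arctan x ≤ x := by
  rcases eq_or_lt_of_le hx with h | h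
  · rw [← h, arctan_zero]
  · have h1 : 0 < arctan x := arctan_pos.2 h
    have h2 : arctan x < π / 2 := arctan_lt_pi_div_two x
    have := Real.lt_tan h1 h2
    rw [tan_arctan] at this
    exact this.le

/-- approximation of the absolute value -/
lemma abs_le_arctan {ε : ℝ} (hε : 0 < ε) (x : ℝ) :
    |x| ≤ 2 / π * arctan (x / ε) * x + 2 / π * ε := by
  have hπ := pi_pos
  have key : ∀ y : ℝ, 0 ≤ y → y ≤ 2 / π * arctan (y / ε) * y + 2 / π * ε := by
    intro y hy
    rcases eq_or_lt_of_le hy with h | h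
    · rw [← h]
      simp only [mul_zero, zero_add]
      positivity
    · have h1 : 0 < y / ε := by positivity
      have h2 := Real.arctan_inv_of_pos h1
      have h3 := arctan_le_self' (x := (y / ε)⁻¹) (by positivity)
      rw [h2] at h3
      have h4 : (π / 2 - arctan (y / ε)) * y ≤ ε := by
        calc (π / 2 - arctan (y / ε)) * y ≤ (y / ε)⁻¹ * y := by gcongr
          _ = ε := by field_simp
      have h5 : y = 2 / π * ((π / 2 - arctan (y / ε)) * y) + 2 / π * arctan (y / ε) * y := by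
        field_simp
        ring
      have h6 : 2 / π * ((π / 2 - arctan (y / ε)) * y) ≤ 2 / π * ε := by gcongr
      linarith
  rcases le_total 0 x with h | h
  · rw [abs_of_nonneg h]
    exact key x h
  · rw [abs_of_nonpos h]
    have := key (-x) (by linarith)
    rw [neg_div, arctan_neg] at this
    linarith

lemma abs_arctan_le (x : ℝ) : |2 / π * arctan x| ≤ 1 := by
  have hπ := pi_pos
  rw [abs_mul, abs_of_pos (by positivity : 0 < 2 / π)]
  have h1 : |arctan x| ≤ π / 2 := abs_le.2 ⟨(neg_pi_div_two_lt_arctan x).le, (arctan_lt_pi_div_two x).le⟩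
  calc 2 / π * |arctan x| ≤ 2 / π * (π / 2) := by gcongr
    _ = 1 := by field_simp

variable (P Q : MvPolynomial (Fin 2) ℝ)

lemma orb_loop {P Q : MvPolynomial (Fin 2) ℝ} {β : ℝ} {γ : ℝ → ℝ × ℝ} {T : ℝ}
    (h : Orb (rf (field P Q) β) γ T) : Loop γ (fun t => rf (field P Q) β (γ t)) T where
  pos := h.pos
  der := h.ode
  cont := by
    have h1 : Continuous γ := continuous_iff_continuousAt.2 fun t => (h.ode t).continuousAt
    have h2 : Continuous (field P Q) := (H709R2.contDiff_field P Q (m := 0)).continuous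
    unfold rf
    exact (H709R2.continuous_rot β).comp (h2.comp h1)
  per := h.per

/-- almost everywhere the winding number is a multiple of an indicator function -/
lemma wn_ae (hJ : S_J) (hN : S_N) {β : ℝ} {γ : ℝ → ℝ × ℝ} {T : ℝ}
    (h : Orb (rf (field P Q) β) γ T) : ∃ e : ℝ, (e = 1 ∨ e = -1) ∧
      ∀ᵐ z : ℝ × ℝ, wn γ (fun t => rf (field P Q) β (γ t)) T z =
        (fill γ (fun t => rf (field P Q) β (γ t)) T).indicator (fun _ => e) z := by
  obtain ⟨e, he, h1, -⟩ := hJ _ _ _ (orb_loop h) h.ne h.inj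
  refine ⟨e, he, ?_⟩
  have h2 : ∀ᵐ z : ℝ × ℝ, z ∉ range γ := by
    rw [ae_iff]
    have h3 : {z : ℝ × ℝ | ¬ z ∉ range γ} = range γ := by
      ext z
      exact not_not
    rw [h3]
    exact hN _ _ _ (orb_loop h)
  filter_upwards [h2] with z hz
  by_cases hzf : z ∈ fill γ (fun t => rf (field P Q) β (γ t)) T
  · rw [indicator_of_mem hzf]
    rcases hzf with h3 | h3
    · exact absurd h3 hz
    · rcases h1 z hz with h4 | h4
      · exact absurd h4 h3.2
      · exact h4
  · rw [indicator_of_notMem hzf]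
    by_contra h3
    exact hzf (Or.inr ⟨hz, h3⟩)

/-- the exterior derivative of `G` times the regularised angle form -/
def Ph (δ : ℝ) (G : ℝ × ℝ → ℝ) (z : ℝ × ℝ) : ℝ :=
  fderiv ℝ G z (1, 0) * bb P Q δ z - fderiv ℝ G z (0, 1) * aa P Q δ z + G z * cc P Q δ z

lemma Ph_continuous {δ : ℝ} (hδ : 0 < δ) {G : ℝ × ℝ → ℝ} (hG : ContDiff ℝ 1 G) :
    Continuous (Ph P Q δ G) := by
  have h1 : Continuous fun z => fderiv ℝ G z (1, 0) :=
    (hG.continuous_fderiv (by norm_num)).clm_apply continuous_const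
  have h2 : Continuous fun z => fderiv ℝ G z (0, 1) :=
    (hG.continuous_fderiv (by norm_num)).clm_apply continuous_const
  exact ((h1.mul (bb_contDiff P Q hδ (m := 0)).continuous).sub
    (h2.mul (aa_contDiff P Q hδ (m := 0)).continuous)).add
    (hG.continuous.mul (cc_continuous P Q hδ))

/-- the tangential component of the angle form on closed orbits -/
def KK (β : ℝ) : MvPolynomial (Fin 2) ℝ :=
  NX P Q * (MvPolynomial.C (cos β) * P - MvPolynomial.C (sin β) * Q) +
    NY P Q * (MvPolynomial.C (sin β) * P + MvPolynomial.C (cos β) * Q)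

lemma ev_KK (β δ : ℝ) (z : ℝ × ℝ) : ev (KK P Q β) z / sd P Q δ z =
    aa P Q δ z * (rf (field P Q) β z).1 + bb P Q δ z * (rf (field P Q) β z).2 := by
  have e1 : (rf (field P Q) β z).1 = cos β * ev P z - sin β * ev Q z := rfl
  have e2 : (rf (field P Q) β z).2 = sin β * ev P z + cos β * ev Q z := rfl
  rw [e1, e2]
  unfold KK aa bb
  simp only [ev_add, ev_mul, ev_sub, ev_C]
  ring

/-- Green's formula on the closed disc bounded by a closed orbit -/
lemma green_fill (hGr : S_G) (hJ : S_J) (hN : S_N) (h0 : S_T0) {δ : ℝ} (hδ : 0 < δ) {β : ℝ}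
    {γ : ℝ → ℝ × ℝ} {T : ℝ} (h : Orb (rf (field P Q) β) γ T) :
    ∃ e : ℝ, (e = 1 ∨ e = -1) ∧ ∀ G : ℝ × ℝ → ℝ, ContDiff ℝ 1 G →
      ∫ t in (0:ℝ)..T, G (γ t) * (ev (KK P Q β) (γ t) / sd P Q δ (γ t)) =
        e * ∫ z in fill γ (fun t => rf (field P Q) β (γ t)) T, Ph P Q δ G z := by
  obtain ⟨e, he, h1⟩ := wn_ae P Q hJ hN h
  refine ⟨e, he, fun G hG => ?_⟩
  have hm : MeasurableSet (fill γ (fun t => rf (field P Q) β (γ t)) T) :=
    ((h0 _ _ _ (orb_loop h)).2).measurableSet
  have h2 := (green P Q hGr hδ (orb_loop h) hG).2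
  have h3 : ∫ t in (0:ℝ)..T, G (γ t) * (ev (KK P Q β) (γ t) / sd P Q δ (γ t)) =
      ∫ t in (0:ℝ)..T, G (γ t) * (aa P Q δ (γ t) * (rf (field P Q) β (γ t)).1 +
        bb P Q δ (γ t) * (rf (field P Q) β (γ t)).2) := by
    congr 1
    ext1 t
    rw [ev_KK]
  rw [h3, h2, ← integral_const_mul, ← integral_indicator hm]
  refine integral_congr_ae ?_
  filter_upwards [h1] with z hz
  rw [hz]
  by_cases hzf : z ∈ fill γ (fun t => rf (field P Q) β (γ t)) T
  · rw [indicator_of_mem hzf, indicator_of_mem hzf]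
    rfl
  · rw [indicator_of_notMem hzf, indicator_of_notMem hzf, zero_mul]

/-- the multiplier -/
def gg (A : MvPolynomial (Fin 2) ℝ) (ε : ℝ) (z : ℝ × ℝ) : ℝ := 2 / π * arctan (ev A z / ε)

lemma gg_contDiff (A : MvPolynomial (Fin 2) ℝ) (ε : ℝ) {m : WithTop ℕ∞} : ContDiff ℝ m (gg A ε) :=
  contDiff_const.mul ((contDiff_arctan).comp ((ev_contDiff A).div_const ε))

lemma gg_fderiv (A : MvPolynomial (Fin 2) ℝ) (ε : ℝ) (z v : ℝ × ℝ) :
    fderiv ℝ (gg A ε) z v = 2 / π * (1 / (1 + (ev A z / ε) ^ 2) * (ε⁻¹ * fderiv ℝ (ev A) z v)) := by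
  have h1 : HasFDerivAt (fun z => ev A z / ε) (ε⁻¹ • fderiv ℝ (ev A) z) z := by
    have := ((ev_hasFDerivAt A z).differentiableAt.hasFDerivAt).const_mul ε⁻¹
    refine this.congr_of_eventuallyEq (Eventually.of_forall fun w => ?_)
    simp only
    ring
  have h2 : HasFDerivAt (gg A ε) _ z :=
    ((hasDerivAt_arctan (ev A z / ε)).comp_hasFDerivAt z h1).const_mul (2 / π)
  rw [h2.fderiv]
  simp

/-- the integral bound for the multiplier -/
lemma gg_bound (hA1 : S_A1) (hA2 : S_A2') {n m : ℕ} {P Q : MvPolynomial (Fin 2) ℝ}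
    (hP : P.totalDegree ≤ n) (hQ : Q.totalDegree ≤ n)
    {A : MvPolynomial (Fin 2) ℝ} (hA : A.totalDegree ≤ m) {δ ε : ℝ} (hδ : 0 < δ) (hε : 0 < ε) :
    ∫⁻ z, ENNReal.ofReal |Ph P Q δ (gg A ε) z| ≤ ENNReal.ofReal (2 * π * (n * m) + 2 * π * n ^ 2) := by
  have hπ := pi_pos
  have h1 := hA1 n P Q hP hQ δ hδ
  have h2 := hA2 n m P Q A hP hQ hA ε hε
  have h3 : ∀ z, ENNReal.ofReal |Ph P Q δ (gg A ε) z| ≤
      ENNReal.ofReal (2 / π) * ENNReal.ofReal (ε⁻¹ *
    |fderiv ℝ (fun w : ℝ × ℝ => MvPolynomial.eval ![w.1, w.2] A) z (1, 0) *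
        wedge (field P Q z) (fderiv ℝ (field P Q) z (0, 1)) -
      fderiv ℝ (fun w : ℝ × ℝ => MvPolynomial.eval ![w.1, w.2] A) z (0, 1) *
        wedge (field P Q z) (fderiv ℝ (field P Q) z (1, 0))| /
    ((1 + (MvPolynomial.eval ![z.1, z.2] A / ε) ^ 2) * H709R2.sq (field P Q z))) +
      ENNReal.ofReal (2 * δ ^ 2 *
    |wedge (fderiv ℝ (field P Q) z (1, 0)) (fderiv ℝ (field P Q) z (0, 1))| /
    (H709R2.sq (field P Q z) + δ ^ 2) ^ 2) := by
    intro z
    rw [← ev_NX, ← ev_NY, ← ev_WW, ← ev_SQ]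
    have e1 : (fun w : ℝ × ℝ => MvPolynomial.eval ![w.1, w.2] A) = ev A := rfl
    have e2 : MvPolynomial.eval ![z.1, z.2] A = ev A z := rfl
    rw [e1, e2]
    have hs := sd_pos P Q hδ z
    have hS := SQ_nonneg P Q z
    rw [← ENNReal.ofReal_mul (by positivity), ← ENNReal.ofReal_add (by positivity) (by positivity)]
    apply ENNReal.ofReal_le_ofReal
    unfold Ph
    refine (abs_add_le _ _).trans (add_le_add ?_ ?_)
    · rw [gg_fderiv, gg_fderiv]
      unfold aa bb
      have e3 : 2 / π * (1 / (1 + (ev A z / ε) ^ 2) * (ε⁻¹ * fderiv ℝ (ev A) z (1, 0))) *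
          (ev (NY P Q) z / sd P Q δ z) -
          2 / π * (1 / (1 + (ev A z / ε) ^ 2) * (ε⁻¹ * fderiv ℝ (ev A) z (0, 1))) *
          (ev (NX P Q) z / sd P Q δ z) =
          2 / π * (ε⁻¹ * (fderiv ℝ (ev A) z (1, 0) * ev (NY P Q) z -
            fderiv ℝ (ev A) z (0, 1) * ev (NX P Q) z) / ((1 + (ev A z / ε) ^ 2) * sd P Q δ z)) := by
        field_simp
      rw [e3, abs_mul, abs_of_pos (by positivity : 0 < 2 / π), abs_div, abs_mul,
        abs_of_pos (by positivity : 0 < ε⁻¹),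
        abs_of_pos (by positivity : 0 < (1 + (ev A z / ε) ^ 2) * sd P Q δ z)]
      refine mul_le_mul_of_nonneg_left ?_ (by positivity)
      rcases eq_or_lt_of_le hS with h0 | h0
      · have hPQ : ev P z = 0 ∧ ev Q z = 0 := by
          have : ev P z * ev P z + ev Q z * ev Q z = 0 := by
            rw [h0]; simp [SQ]
          constructor <;> nlinarith [mul_self_nonneg (ev P z), mul_self_nonneg (ev Q z)]
        have hx : ev (NX P Q) z = 0 := by simp [NX, hPQ.1, hPQ.2]
        have hy : ev (NY P Q) z = 0 := by simp [NY, hPQ.1, hPQ.2]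
        rw [hx, hy]
        simp
      · have h4 : ev (SQ P Q) z ≤ sd P Q δ z := by
          unfold sd
          nlinarith
        gcongr
    · rw [abs_mul]
      have h5 : |gg A ε z| ≤ 1 := abs_arctan_le _
      have h6 : |cc P Q δ z| = 2 * δ ^ 2 * |ev (WW P Q) z| / (ev (SQ P Q) z + δ ^ 2) ^ 2 := by
        unfold cc
        rw [abs_div, abs_mul, abs_of_pos (by positivity : 0 < 2 * δ ^ 2),
          abs_of_pos (by positivity : 0 < sd P Q δ z ^ 2)]
        rfl
      rw [← h6]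
      calc |gg A ε z| * |cc P Q δ z| ≤ 1 * |cc P Q δ z| := by gcongr
        _ = _ := one_mul _
  refine (lintegral_mono h3).trans ?_
  have hmeas : Measurable fun z : ℝ × ℝ => ENNReal.ofReal (2 * δ ^ 2 *
    |wedge (fderiv ℝ (field P Q) z (1, 0)) (fderiv ℝ (field P Q) z (0, 1))| /
    (H709R2.sq (field P Q z) + δ ^ 2) ^ 2) := by
    simp only [← ev_WW, ← ev_SQ]
    have a1 := (ev_continuous (WW P Q)).measurable
    have a2 := (ev_continuous (SQ P Q)).measurable
    fun_prop
  rw [lintegral_add_right _ hmeas, lintegral_const_mul' _ _ ENNReal.ofReal_ne_top]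
  refine (add_le_add (mul_le_mul_right h2 _) h1).trans ?_
  rw [← ENNReal.ofReal_mul (by positivity), ← ENNReal.ofReal_add (by positivity) (by positivity)]
  apply ENNReal.ofReal_le_ofReal
  apply le_of_eq
  field_simp

end

end Pool.Agent.N224.Hil
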