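import Pool.Agent.N224.Hil.V2

/-! Part V, third file: the variation of the angle inside disjoint closed orbits. -/

open Real Set MeasureTheory Topology Filter
open scoped ENNReal

namespace Pool.Agent.N224.Hil

noncomputable section

open Pool.Agent.H709R2 (rot wedge field ClosedOrbit)
open Pool.Agent.H709U (rf Orb K4_hasFDerivAt K4_fderiv_field K4_mul K4_add K4_sub K4_degree)
open MvPolynomial (pderiv)

/-- the closed disc bounded by a closed orbit of the field rotated by `β` -/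
def fl (P Q : MvPolynomial (Fin 2) ℝ) (β : ℝ) (γ : ℝ → ℝ × ℝ) (T : ℝ) : Set (ℝ × ℝ) :=
  fill γ (fun t => rf (field P Q) β (γ t)) T

lemma deg_pderiv {n : ℕ} {F : MvPolynomial (Fin 2) ℝ} (hF : F.totalDegree ≤ n) (i : Fin 2) :
    (pderiv i F).totalDegree ≤ n := by
  have := K4_degree F 1 hF (by simp) i
  rwa [one_mul] at this

lemma deg_NX {n : ℕ} {P Q : MvPolynomial (Fin 2) ℝ} (hP : P.totalDegree ≤ n)
    (hQ : Q.totalDegree ≤ n) : (NX P Q).totalDegree ≤ 2 * n :=
  K4_sub (K4_mul hP (deg_pderiv hQ 0) (by omega)) (K4_mul hQ (deg_pderiv hP 0) (by omega))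

lemma deg_NY {n : ℕ} {P Q : MvPolynomial (Fin 2) ℝ} (hP : P.totalDegree ≤ n)
    (hQ : Q.totalDegree ≤ n) : (NY P Q).totalDegree ≤ 2 * n :=
  K4_sub (K4_mul hP (deg_pderiv hQ 1) (by omega)) (K4_mul hQ (deg_pderiv hP 1) (by omega))

lemma deg_Cmul {n : ℕ} {F : MvPolynomial (Fin 2) ℝ} (hF : F.totalDegree ≤ n) (c : ℝ) :
    (MvPolynomial.C c * F).totalDegree ≤ n :=
  K4_mul (m := 0) (by simp) hF (by omega)

lemma deg_KK {n : ℕ} {P Q : MvPolynomial (Fin 2) ℝ} (hP : P.totalDegree ≤ n)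
    (hQ : Q.totalDegree ≤ n) (β : ℝ) : (KK P Q β).totalDegree ≤ 3 * n :=
  K4_add (K4_mul (deg_NX hP hQ) (K4_sub (deg_Cmul hP _) (deg_Cmul hQ _)) (by omega))
    (K4_mul (deg_NY hP hQ) (K4_add (deg_Cmul hP _) (deg_Cmul hQ _)) (by omega))

/-- the variation of the regularised angle along a closed orbit -/
def LK (P Q : MvPolynomial (Fin 2) ℝ) (β δ : ℝ) (γ : ℝ → ℝ × ℝ) (T : ℝ) : ℝ :=
  ∫ t in (0:ℝ)..T, |ev (KK P Q β) (γ t)| / sd P Q δ (γ t)

variable {P Q : MvPolynomial (Fin 2) ℝ} {β : ℝ}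

lemma orb_cont {γ : ℝ → ℝ × ℝ} {T : ℝ} (h : Orb (rf (field P Q) β) γ T) : Continuous γ :=
  continuous_iff_continuousAt.2 fun t => (h.ode t).continuousAt

lemma fl_compact (h0 : S_T0) {γ : ℝ → ℝ × ℝ} {T : ℝ} (h : Orb (rf (field P Q) β) γ T) :
    IsCompact (fl P Q β γ T) := (h0 _ _ _ (orb_loop h)).2

lemma ofReal_setIntegral {E : Set (ℝ × ℝ)} (hE : IsCompact E) {f : ℝ × ℝ → ℝ} (hf : Continuous f)
    (hf0 : ∀ z, 0 ≤ f z) : ENNReal.ofReal (∫ z in E, f z) = ∫⁻ z in E, ENNReal.ofReal (f z) :=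
  ofReal_integral_eq_lintegral_ofReal (hf.continuousOn.integrableOn_compact hE)
    (Eventually.of_forall hf0)

/-- let the parameter tend to zero -/
lemma eps_zero {x : ℝ≥0∞} {B c : ℝ} (h : ∀ ε : ℝ, 0 < ε → x ≤ ENNReal.ofReal (B + ε * c)) :
    x ≤ ENNReal.ofReal B := by
  have h1 : Tendsto (fun ε : ℝ => ENNReal.ofReal (B + ε * c)) (𝓝[>] 0) (𝓝 (ENNReal.ofReal B)) := by
    have h2 : Continuous fun ε : ℝ => ENNReal.ofReal (B + ε * c) :=
      ENNReal.continuous_ofReal.comp (by fun_prop)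
    have h3 := h2.tendsto 0
    simp only [zero_mul, add_zero] at h3
    exact h3.mono_left nhdsWithin_le_nhds
  exact ge_of_tendsto h1 (by
    filter_upwards [self_mem_nhdsWithin] with ε hε
    exact h ε hε)

section one

variable (hGr : S_G) (hJ : S_J) (hN : S_N) (h0 : S_T0)
include hGr hJ hN h0

/-- the variation of the angle along one closed orbit -/
lemma LK_le {δ ε : ℝ} (hδ : 0 < δ) (hε : 0 < ε) {γ : ℝ → ℝ × ℝ} {T : ℝ}
    (h : Orb (rf (field P Q) β) γ T) :
    LK P Q β δ γ T ≤ (∫ z in fl P Q β γ T, |Ph P Q δ (gg (KK P Q β) ε) z|) +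
      ε * (2 / π * T / δ ^ 2) := by
  have hπ := pi_pos
  obtain ⟨e, he, h1⟩ := green_fill P Q hGr hJ hN h0 hδ h
  have h2 := h1 (gg (KK P Q β) ε) (gg_contDiff _ _)
  have hγ := orb_cont h
  have hTp := h.pos
  have cK : Continuous fun t => ev (KK P Q β) (γ t) := (ev_continuous _).comp hγ
  have cs : Continuous fun t => sd P Q δ (γ t) := (sd_contDiff P Q (m := 0)).continuous.comp hγ
  have hs : ∀ t, 0 < sd P Q δ (γ t) := fun t => sd_pos P Q hδ _
  have cg : Continuous fun t => gg (KK P Q β) ε (γ t) :=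
    (gg_contDiff _ _ (m := 0)).continuous.comp hγ
  have c1 : Continuous fun t => |ev (KK P Q β) (γ t)| / sd P Q δ (γ t) :=
    cK.abs.div cs fun t => (hs t).ne'
  have c2 : Continuous fun t => gg (KK P Q β) ε (γ t) * (ev (KK P Q β) (γ t) / sd P Q δ (γ t)) :=
    cg.mul (cK.div cs fun t => (hs t).ne')
  have h3 : LK P Q β δ γ T ≤ ∫ t in (0:ℝ)..T, (gg (KK P Q β) ε (γ t) *
      (ev (KK P Q β) (γ t) / sd P Q δ (γ t)) + 2 / π * ε / δ ^ 2) := by
    unfold LK
    refine intervalIntegral.integral_mono_on h.pos.le (c1.intervalIntegrable _ _)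
      ((c2.add continuous_const).intervalIntegrable _ _) fun t _ => ?_
    have h4 := abs_le_arctan hε (ev (KK P Q β) (γ t))
    have h5 : |ev (KK P Q β) (γ t)| / sd P Q δ (γ t) ≤
        (2 / π * arctan (ev (KK P Q β) (γ t) / ε) * ev (KK P Q β) (γ t) + 2 / π * ε) /
          sd P Q δ (γ t) := by
      have := hs t
      gcongr
    refine h5.trans ?_
    rw [add_div]
    refine add_le_add (le_of_eq ?_) ?_
    · unfold gg
      ring
    · have h6 := sd_ge P Q (δ := δ) (γ t)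
      gcongr
  have h7 : ∫ t in (0:ℝ)..T, (gg (KK P Q β) ε (γ t) *
      (ev (KK P Q β) (γ t) / sd P Q δ (γ t)) + 2 / π * ε / δ ^ 2) =
      (∫ t in (0:ℝ)..T, gg (KK P Q β) ε (γ t) * (ev (KK P Q β) (γ t) / sd P Q δ (γ t))) +
        ε * (2 / π * T / δ ^ 2) := by
    rw [intervalIntegral.integral_add (c2.intervalIntegrable _ _)
      (continuous_const.intervalIntegrable _ _), intervalIntegral.integral_const]
    simp only [sub_zero, smul_eq_mul]
    ring
  rw [h7, h2] at h3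
  refine h3.trans (add_le_add ?_ le_rfl)
  refine (le_abs_self _).trans ?_
  rw [abs_mul]
  have h8 : |e| = 1 := by rcases he with h | h <;> simp [h]
  rw [h8, one_mul]
  exact abs_integral_le_integral_abs

/-- the variation of the angle inside one closed orbit in one direction -/
lemma inside_le {δ ε D : ℝ} (hδ : 0 < δ) (hε : 0 < ε) (hD : 0 < D) {γ : ℝ → ℝ × ℝ} {T : ℝ}
    (h : Orb (rf (field P Q) β) γ T) (u : ℝ × ℝ) (l : ℝ)
    (hl : ∀ z ∈ fl P Q β γ T, |u.1 * z.1 + u.2 * z.2 - l| ≤ D / 2)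
    (A : MvPolynomial (Fin 2) ℝ) (hA : ∀ z, ev A z = u.1 * ev (NY P Q) z - u.2 * ev (NX P Q) z) :
    ∫ z in fl P Q β γ T, |ev A z| / sd P Q δ z ≤
      D / 2 * (LK P Q β δ γ T + ∫ z in fl P Q β γ T, |Ph P Q δ (gg A ε) z|) +
        ε * (2 / π / δ ^ 2 * volume.real (fl P Q β γ T)) := by
  have hπ := pi_pos
  obtain ⟨e, he, h1⟩ := green_fill P Q hGr hJ hN h0 hδ h
  have hK := fl_compact h0 h
  have hγ := orb_cont h
  have he1 : |e| = 1 := by rcases he with h | h <;> simp [h]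
  have hee : e * e = 1 := by rcases he with h | h <;> simp [h]
  -- the multiplier
  obtain ⟨ℓ, hℓ⟩ : ∃ ℓ : ℝ × ℝ → ℝ, ℓ = fun z => u.1 * z.1 + u.2 * z.2 - l := ⟨_, rfl⟩
  have hℓd : ∀ z, HasFDerivAt ℓ (u.1 • ContinuousLinearMap.fst ℝ ℝ ℝ +
      u.2 • ContinuousLinearMap.snd ℝ ℝ ℝ) z := by
    intro z
    rw [hℓ]
    exact ((hasFDerivAt_fst.const_mul u.1).add (hasFDerivAt_snd.const_mul u.2)).sub_const l
  have hℓc : ContDiff ℝ 1 ℓ := by
    rw [hℓ]
    fun_prop
  have hℓb : ∀ z ∈ fl P Q β γ T, |ℓ z| ≤ D / 2 := by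
    intro z hz
    rw [hℓ]
    exact hl z hz
  have hg1 : ContDiff ℝ 1 (gg A ε) := gg_contDiff _ _
  have h2 := h1 (fun z => ℓ z * gg A ε z) (hℓc.mul hg1)
  have hs : ∀ z, 0 < sd P Q δ z := fun z => sd_pos P Q hδ _
  -- the exterior derivative
  have h3 : ∀ z, Ph P Q δ (fun z => ℓ z * gg A ε z) z =
      ℓ z * Ph P Q δ (gg A ε) z + gg A ε z * (ev A z / sd P Q δ z) := by
    intro z
    have h4 : HasFDerivAt (fun z => ℓ z * gg A ε z) _ z :=
      (hℓd z).mul ((hg1.differentiable (by norm_num) z).hasFDerivAt)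
    unfold Ph
    rw [h4.fderiv, hA]
    unfold aa bb
    simp only [add_apply, smul_apply, ContinuousLinearMap.coe_fst', ContinuousLinearMap.coe_snd',
      smul_eq_mul]
    ring
  have cP : Continuous (Ph P Q δ (gg A ε)) := Ph_continuous P Q hδ hg1
  have cs : Continuous (sd P Q δ) := (sd_contDiff P Q (m := 0)).continuous
  have cA : Continuous fun z => ev A z / sd P Q δ z :=
    (ev_continuous A).div cs fun z => (hs z).ne'
  have cgA : Continuous fun z => gg A ε z * (ev A z / sd P Q δ z) := hg1.continuous.mul cA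
  have cℓP : Continuous fun z => ℓ z * Ph P Q δ (gg A ε) z := hℓc.continuous.mul cP
  have i1 := cℓP.continuousOn.integrableOn_compact (μ := volume) hK
  have i2 := cgA.continuousOn.integrableOn_compact (μ := volume) hK
  have i3 := cP.abs.continuousOn.integrableOn_compact (μ := volume) hK
  have cAa : Continuous fun z => |ev A z| / sd P Q δ z :=
    (ev_continuous A).abs.div cs fun z => (hs z).ne'
  have i4 := cAa.continuousOn.integrableOn_compact (μ := volume) hK
  simp only [h3] at h2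
  have h5 : ∫ z in fl P Q β γ T, (ℓ z * Ph P Q δ (gg A ε) z + gg A ε z * (ev A z / sd P Q δ z)) =
      (∫ z in fl P Q β γ T, ℓ z * Ph P Q δ (gg A ε) z) +
        ∫ z in fl P Q β γ T, gg A ε z * (ev A z / sd P Q δ z) := integral_add i1 i2
  have h2' : ∫ t in (0:ℝ)..T, ℓ (γ t) * gg A ε (γ t) * (ev (KK P Q β) (γ t) / sd P Q δ (γ t)) =
      e * ((∫ z in fl P Q β γ T, ℓ z * Ph P Q δ (gg A ε) z) +
        ∫ z in fl P Q β γ T, gg A ε z * (ev A z / sd P Q δ z)) := by
    rw [← h5]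
    exact h2
  have h6 : ∫ z in fl P Q β γ T, gg A ε z * (ev A z / sd P Q δ z) =
      e * (∫ t in (0:ℝ)..T, ℓ (γ t) * gg A ε (γ t) * (ev (KK P Q β) (γ t) / sd P Q δ (γ t))) -
        ∫ z in fl P Q β γ T, ℓ z * Ph P Q δ (gg A ε) z := by
    rw [h2', ← mul_assoc, hee]
    ring
  -- the line integral
  have h7 : e * (∫ t in (0:ℝ)..T, ℓ (γ t) * gg A ε (γ t) *
      (ev (KK P Q β) (γ t) / sd P Q δ (γ t))) ≤ D / 2 * LK P Q β δ γ T := by
    refine (le_abs_self _).trans ?_
    rw [abs_mul, he1, one_mul]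
    unfold LK
    rw [← intervalIntegral.integral_const_mul]
    refine (intervalIntegral.abs_integral_le_integral_abs h.pos.le).trans ?_
    have d1 : Continuous fun t => ev (KK P Q β) (γ t) := (ev_continuous _).comp hγ
    have d2 : Continuous fun t => sd P Q δ (γ t) := cs.comp hγ
    have d3 : Continuous fun t => ℓ (γ t) * gg A ε (γ t) * (ev (KK P Q β) (γ t) / sd P Q δ (γ t)) :=
      ((hℓc.continuous.comp hγ).mul (hg1.continuous.comp hγ)).mul (d1.div d2 fun t => (hs _).ne')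
    have d4 : Continuous fun t => D / 2 * (|ev (KK P Q β) (γ t)| / sd P Q δ (γ t)) :=
      continuous_const.mul (d1.abs.div d2 fun t => (hs _).ne')
    refine intervalIntegral.integral_mono_on h.pos.le (d3.abs.intervalIntegrable _ _)
      (d4.intervalIntegrable _ _) fun t _ => ?_
    rw [abs_mul, abs_mul, abs_div, abs_of_pos (hs (γ t))]
    have e1 : |ℓ (γ t)| ≤ D / 2 := hℓb _ (Or.inl ⟨t, rfl⟩)
    have e2 : |gg A ε (γ t)| ≤ 1 := abs_arctan_le _
    have e3 : 0 ≤ |ev (KK P Q β) (γ t)| / sd P Q δ (γ t) := div_nonneg (abs_nonneg _) (hs _).le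
    refine mul_le_mul_of_nonneg_right ?_ e3
    calc |ℓ (γ t)| * |gg A ε (γ t)| ≤ D / 2 * 1 :=
          mul_le_mul e1 e2 (abs_nonneg _) (by positivity)
      _ = D / 2 := mul_one _
  -- the plane integral
  have h8 : -(∫ z in fl P Q β γ T, ℓ z * Ph P Q δ (gg A ε) z) ≤
      D / 2 * ∫ z in fl P Q β γ T, |Ph P Q δ (gg A ε) z| := by
    refine (neg_le_abs _).trans ?_
    rw [← integral_const_mul]
    refine abs_integral_le_integral_abs.trans ?_
    refine setIntegral_mono_on i1.abs (i3.const_mul _) hK.measurableSet fun z hz => ?_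
    rw [abs_mul]
    exact mul_le_mul_of_nonneg_right (hℓb z hz) (abs_nonneg _)
  -- comparison with the absolute value
  have h9 : ∫ z in fl P Q β γ T, |ev A z| / sd P Q δ z ≤
      ∫ z in fl P Q β γ T, (gg A ε z * (ev A z / sd P Q δ z) + 2 / π * ε / δ ^ 2) := by
    refine setIntegral_mono_on i4 (i2.add (integrableOn_const hK.measure_lt_top.ne))
      hK.measurableSet fun z hz => ?_
    have h4 := abs_le_arctan hε (ev A z)
    have h5 : |ev A z| / sd P Q δ z ≤
        (2 / π * arctan (ev A z / ε) * ev A z + 2 / π * ε) / sd P Q δ z := by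
      have := hs z
      gcongr
    refine h5.trans ?_
    rw [add_div]
    refine add_le_add (le_of_eq ?_) ?_
    · unfold gg
      ring
    · have h6 := sd_ge P Q (δ := δ) z
      gcongr
  have h10 : ∫ z in fl P Q β γ T, (gg A ε z * (ev A z / sd P Q δ z) + 2 / π * ε / δ ^ 2) =
      (∫ z in fl P Q β γ T, gg A ε z * (ev A z / sd P Q δ z)) +
        ε * (2 / π / δ ^ 2 * volume.real (fl P Q β γ T)) := by
    rw [integral_add i2 (integrableOn_const hK.measure_lt_top.ne), setIntegral_const]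
    simp only [smul_eq_mul]
    ring
  rw [h10, h6] at h9
  linarith

end one

end

end Pool.Agent.N224.Hil
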